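import Mathlib

set_option autoImplicit false

/-!
Project FM (MP_d88658_nt, first moment): definitions. See /team-store/memo_FM_helper32.md

`Roots H a θ`: `f = ∑ a_i X^i`, `|a_i| ≤ H`, `a_d ≠ 0`, with the distinct complex roots `θ`.
`IsE θ x e`: `e t` is the square root of `x - θ t` with real part `≥ 0`.
`SRel θ e e'`: `e t * e' t = q(θ t)` for one rational polynomial `q` (strong class).
`CRel θ x x'`: `(x - θ t) (x' - θ t) = q(θ t)^2` for one rational polynomial `q` (class).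
`Thr K d H a x`: `x` is above the threshold (`K H^5 ≤ (x |a_d|)^2` for `d = 3`, `K H^7 ≤ x^4` for `d ≥ 4`).
-/

open Polynomial

namespace Pool.Agent.Helper32.FM

/-- `f = ∑ a_i X^i` of degree `d`, `|a_i| ≤ H`, with the distinct complex roots `θ` -/
structure Roots {d : ℕ} (H : ℕ) (a : Fin (d + 1) → ℤ) (θ : Fin d → ℂ) : Prop where
  box : ∀ i, |a i| ≤ (H : ℤ)
  lead : a (Fin.last d) ≠ 0
  inj : Function.Injective θ
  eval : ∀ z : ℂ, ∑ i, (a i : ℂ) * z ^ (i : ℕ) = (a (Fin.last d) : ℂ) * ∏ i, (z - θ i)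

/-- `e t` is the square root of `x - θ t` with real part `≥ 0` -/
def IsE {d : ℕ} (θ : Fin d → ℂ) (x : ℤ) (e : Fin d → ℂ) : Prop :=
  ∀ t, e t ^ 2 = (x : ℂ) - θ t ∧ 0 ≤ (e t).re

/-- strong class: the products `e t * e' t` are the values of a rational polynomial at the roots -/
def SRel {d : ℕ} (θ e e' : Fin d → ℂ) : Prop :=
  ∃ q : ℚ[X], ∀ t, e t * e' t = aeval (θ t) q

/-- class: `(x - θ t) (x' - θ t)` is the square of the value of a rational polynomial -/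
def CRel {d : ℕ} (θ : Fin d → ℂ) (x x' : ℤ) : Prop :=
  ∃ q : ℚ[X], ∀ t, ((x : ℂ) - θ t) * ((x' : ℂ) - θ t) = (aeval (θ t) q) ^ 2

/-- above the threshold -/
def Thr {d : ℕ} (K H : ℕ) (a : Fin (d + 1) → ℤ) (x : ℤ) : Prop :=
  4 * (H : ℤ) ≤ x ∧ 1 ≤ x ∧ if d = 3 then (K : ℤ) * (H : ℤ) ^ 5 ≤ (x * |a (Fin.last d)|) ^ 2
    else (K : ℤ) * (H : ℤ) ^ 7 ≤ x ^ 4

/-- `√|a|`, `a` the leading coefficient -/
noncomputable def sa {d : ℕ} (a : Fin (d + 1) → ℤ) : ℝ := Real.sqrt |((a (Fin.last d) : ℤ) : ℝ)|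

/-- the integral polynomial of the beta integrals -/
def Sp {R : Type*} [CommRing R] (p q r : ℕ) (a c : R) : R :=
  ∑ j ∈ Finset.range (r + 1),
    (((p + j).choose j * (p + q + r + 1).choose (r - j) : ℕ) : R) * a ^ j * c ^ (r - j)

/-- `(p+q+r+1)!/(p! q! r!)` times the integral of `(t-u)^p (t-v)^q (t-w)^r` from `u` to `v` -/
def Tp {R : Type*} [CommRing R] (p q r : ℕ) (u v w : R) : R :=
  (-1) ^ q * (v - u) ^ (p + q + 1) * Sp p q r (v - u) (u - w)

/-- `(p+q+r+1)!/(p! q! r!)` -/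
noncomputable def Np (p q r : ℕ) : ℝ :=
  ((p + q + r + 1).factorial : ℝ) / ((p.factorial : ℝ) * (q.factorial : ℝ) * (r.factorial : ℝ))

end Pool.Agent.Helper32.FM
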