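import Pool.Agent.Helper32.FM.OddCellI
import Pool.Agent.Helper32.FM.OddCellRed
import Pool.Agent.Helper38.DZR.OddFixR

set_option autoImplicit false

/-!
FM-E4 OddClasses. The number of inequivalent pairs of odd size whose leading coefficient has a squarefree divisor `q ≥ H / 2^t`.

PROOF. As `odd_fix_r` (Helper38/DZR/OddFixR.lean; copy the file, its private lemmas included), with the finite set `F` of indices instead of
the set of tuples (`F.image κ`, `F.image (fun i => tup i (Fin.last _))`, ...); `odd_cell_red` instead of `cell_odd_s`, `odd_cell_i` instead of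
`odd_cell_r`. `NegSq α` of the reduced `S`: `negSq_conj`. Injectivity for `CellOI`: `U^t G_i U = V^t G_j V`, `U^t S_i U = V^t S_j V` give an
integral `h` of determinant `± 1` with `G0 j = h^t (G0 i) h`, `S0 j = h^t (S0 i) h` (inverses by adjugates), so `i = j` by hypothesis.
-/

open Polynomial Matrix Pool.Agent.Helper32.DZ Pool.Agent.Helper38.DZR

namespace Pool.Agent.Helper32.FM

private theorem of_one_mem {N : ℕ} (κ : Fin N → ℤ) : (1 : Matrix (Fin N) (Fin N) ℤ) ∈ Tr κ := by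
  refine ⟨⟨fun i => Matrix.one_apply_eq i, fun i j h => Matrix.one_apply_ne (ne_of_gt h)⟩,
    fun i j h => ?_⟩
  rw [Matrix.one_apply_ne (ne_of_lt h)]
  exact ⟨le_refl _, by rw [Int.cast_zero]; positivity⟩

private theorem of_constr {m H c : ℕ} (κ : Fin (m + 1) → ℤ) (hκ : Monotone κ)
    (G S : Matrix (Fin (m + 1)) (Fin (m + 1)) ℤ) (hPG : PG G S) (hs : ∑ i, κ i ≤ (c : ℤ))
    (hU : ∀ U ∈ Tr κ, ∀ i j, |(((Uᵀ * G * U) i j : ℤ) : ℝ)| < (2 : ℝ) ^ (κ i + κ j) ∧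
      |(((Uᵀ * S * U) i j : ℤ) : ℝ)| < 2 * (H : ℝ) * (2 : ℝ) ^ (κ i + κ j)) :
    (∀ i : Fin (m + 1), 1 ≤ κ i + κ i.rev ∧ κ i + κ i.rev ≤ 2 * (c : ℤ)) ∧ 1 ≤ ∑ i, κ i := by
  have h1 := constr_odd κ hκ G hPG.2.2.1 (fun i j => by
    have := (hU 1 (of_one_mem κ) i j).1
    rwa [Matrix.transpose_one, Matrix.one_mul, Matrix.mul_one] at this) (c : ℤ) hs
  refine ⟨h1, ?_⟩
  have h2 : ∑ _i : Fin (m + 1), (1 : ℤ) ≤ ∑ i, (κ i + κ i.rev) :=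
    Finset.sum_le_sum fun i _ => (h1 i).1
  have hrev : ∑ i : Fin (m + 1), κ i.rev = ∑ i : Fin (m + 1), κ i :=
    Fintype.sum_equiv Fin.revPerm _ _ (fun i => rfl)
  rw [Finset.sum_add_distrib, hrev, Finset.sum_const, Finset.card_univ, Fintype.card_fin,
    nsmul_eq_mul, mul_one] at h2
  push_cast at h2
  omega

private theorem of_mem {m H : ℕ} (G S : Matrix (Fin (m + 1)) (Fin (m + 1)) ℤ)
    (κ : Fin (m + 1) → ℤ) (α : ℤ) (hPG : PG G S) (hN : NegSq α S)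
    (hU : ∀ U ∈ Tr κ, ∀ i j, |(((Uᵀ * G * U) i j : ℤ) : ℝ)| < (2 : ℝ) ^ (κ i + κ j) ∧
      |(((Uᵀ * S * U) i j : ℤ) : ℝ)| < 2 * (H : ℝ) * (2 : ℝ) ^ (κ i + κ j)) :
    (OT (m + 1) H κ α).Nonempty := by
  refine ⟨(G, S), ⟨hPG.1, fun i j => ?_⟩, ⟨hPG.2.1, fun i j => ?_⟩, hN, hPG⟩
  · have := (hU 1 (of_one_mem κ) i j).1
    rwa [Matrix.transpose_one, Matrix.one_mul, Matrix.mul_one] at this
  · have := (hU 1 (of_one_mem κ) i j).2
    rwa [Matrix.transpose_one, Matrix.one_mul, Matrix.mul_one] at this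

private theorem of_ps_sub (α : ℤ) (L : ℝ) :
    Ps α L ⊆ ((Finset.Icc (-(⌈L⌉ - 1)) (⌈L⌉ - 1)).erase 0 : Finset ℤ) := by
  intro s hs
  rw [Finset.mem_coe, Finset.mem_erase, Finset.mem_Icc, ← abs_le]
  refine ⟨hs.1, ?_⟩
  have h1 : ((|s| : ℤ) : ℝ) < L := by
    rw [Int.cast_abs]
    exact hs.2.1
  have := Int.lt_ceil.2 h1
  omega

private theorem of_ps_fin (α : ℤ) (L : ℝ) : (Ps α L).Finite := by
  rcases le_or_gt L 0 with h | h
  · convert Set.finite_empty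
    ext s
    refine ⟨fun hs => ?_, fun hs => hs.elim⟩
    have := abs_nonneg (s : ℝ)
    have := hs.2.1
    linarith
  · exact Set.Finite.subset (Finset.finite_toSet _) (of_ps_sub α L)

private theorem of_ps_card (α : ℤ) (L : ℝ) (hL : 0 < L) : (((Ps α L).ncard : ℕ) : ℝ) ≤ 2 * L := by
  have h1 := Set.ncard_le_ncard (of_ps_sub α L) (Finset.finite_toSet _)
  rw [Set.ncard_coe_finset] at h1
  have h0 : 0 < ⌈L⌉ := Int.ceil_pos.2 hL
  have h2 : (((Finset.Icc (-(⌈L⌉ - 1)) (⌈L⌉ - 1)).erase 0).card : ℤ) = 2 * (⌈L⌉ - 1) := by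
    rw [Finset.card_erase_of_mem (by rw [Finset.mem_Icc]; omega), Int.card_Icc]
    omega
  have h3 : (((Ps α L).ncard : ℕ) : ℤ) ≤ 2 * (⌈L⌉ - 1) := by
    rw [← h2]
    exact_mod_cast h1
  have h4 : ((((Ps α L).ncard : ℕ) : ℤ) : ℝ) ≤ ((2 * (⌈L⌉ - 1) : ℤ) : ℝ) := Int.cast_le.2 h3
  have h5 := Int.ceil_lt_add_one L
  push_cast at h4
  linarith

private theorem of_pairs (H : ℕ) (L : ℝ) (A : Finset ℤ) (hA : ∀ α ∈ A, |α| ≤ (H : ℤ))
    (hfin : {x : ℤ × ℤ | |(x.1 : ℝ)| < (H : ℝ) + 1 ∧ |(x.2 : ℝ)| < L ∧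
      ∀ p : ℕ, p.Prime → (p : ℤ) ∣ x.1 → IsSquare (((-x.2 : ℤ)) : ZMod p)}.Finite) :
    ∑ α ∈ A, (Ps α L).ncard ≤ {x : ℤ × ℤ | |(x.1 : ℝ)| < (H : ℝ) + 1 ∧ |(x.2 : ℝ)| < L ∧
      ∀ p : ℕ, p.Prime → (p : ℤ) ∣ x.1 → IsSquare (((-x.2 : ℤ)) : ZMod p)}.ncard := by
  classical
  have h1 : ∀ α ∈ A, (Ps α L).ncard = (of_ps_fin α L).toFinset.card := fun α _ =>
    Set.ncard_eq_toFinset_card _ _
  rw [Finset.sum_congr rfl h1, ← Finset.card_sigma, Set.ncard_eq_toFinset_card _ hfin]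
  refine Finset.card_le_card_of_injOn (fun x => (x.1, x.2)) ?_ ?_
  · intro x hx
    rw [Finset.mem_coe, Finset.mem_sigma, Set.Finite.mem_toFinset] at hx
    rw [Finset.mem_coe, Set.Finite.mem_toFinset]
    refine ⟨?_, hx.2.2.1, hx.2.2.2⟩
    have h2 : ((|x.1| : ℤ) : ℝ) ≤ ((H : ℤ) : ℝ) := Int.cast_le.2 (hA _ hx.1)
    push_cast at h2
    show |((x.1 : ℤ) : ℝ)| < (H : ℝ) + 1
    linarith
  · rintro ⟨a, b⟩ _ ⟨a', b'⟩ _ h
    have h3 : a = a' := congrArg Prod.fst h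
    have h4 : b = b' := congrArg Prod.snd h
    subst h3
    subst h4
    rfl

private theorem of_step {ι : Type} (m H : ℕ) (hH : 1 ≤ H) (K : ℝ) (hK : 1 ≤ K)
    (F : Finset ι) (κ : ι → Fin (m + 1) → ℤ) (le : ι → ℤ)
    (hF : ∀ a ∈ F, |le a| ≤ (H : ℤ))
    (hcell : ∀ κ0 ∈ F.image κ, ∀ α ∈ F.image le,
      ((F.filter fun a => κ a = κ0 ∧ le a = α).card : ℝ) ≤
        K * √((H : ℝ) ^ (2 * m + 1)) +
        K * (H : ℝ) ^ m * (2 : ℝ) ^ (-(2 * κ0 0)) * (3 / 4 : ℝ) ^ (κ0 (Fin.last m) - κ0 0) *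
          (((Ps α (2 * (H : ℝ) * (2 : ℝ) ^ (2 * κ0 0))).ncard : ℕ) : ℝ)) :
    (F.card : ℝ) ≤ ((F.image κ).card : ℝ) * (3 * H * (K * √((H : ℝ) ^ (2 * m + 1)))) +
      ∑ κ0 ∈ F.image κ, K * (H : ℝ) ^ m * (2 : ℝ) ^ (-(2 * κ0 0)) *
        (3 / 4 : ℝ) ^ (κ0 (Fin.last m) - κ0 0) *
          ∑ α ∈ F.image le,
            (((Ps α (2 * (H : ℝ) * (2 : ℝ) ^ (2 * κ0 0))).ncard : ℕ) : ℝ) := by
  classical
  have h1 : F.card = ∑ κ0 ∈ F.image κ, ∑ α ∈ F.image le,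
      (F.filter fun a => κ a = κ0 ∧ le a = α).card := by
    rw [Finset.card_eq_sum_card_fiberwise (f := κ) (t := F.image κ)
      (fun a ha => Finset.mem_image_of_mem κ ha)]
    refine Finset.sum_congr rfl fun κ0 _ => ?_
    rw [Finset.card_eq_sum_card_fiberwise (f := le)
      (t := F.image le)
      (fun a ha => Finset.mem_image_of_mem _ (Finset.mem_filter.1 ha).1)]
    refine Finset.sum_congr rfl fun α _ => ?_
    rw [Finset.filter_filter]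
  have hA : ((F.image le).card : ℝ) ≤ 3 * H := by
    have h2 : F.image le ⊆ Finset.Icc (-(H : ℤ)) H := by
      intro α hα
      obtain ⟨a, ha, rfl⟩ := Finset.mem_image.1 hα
      rw [Finset.mem_Icc]
      exact abs_le.1 (hF a ha)
    have h3 := Finset.card_le_card h2
    rw [Int.card_Icc] at h3
    have h4 : (F.image le).card ≤ 3 * H := by omega
    exact_mod_cast h4
  have h2 : (F.card : ℝ) ≤ ∑ κ0 ∈ F.image κ, ∑ α ∈ F.image le,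
      (K * √((H : ℝ) ^ (2 * m + 1)) +
        K * (H : ℝ) ^ m * (2 : ℝ) ^ (-(2 * κ0 0)) * (3 / 4 : ℝ) ^ (κ0 (Fin.last m) - κ0 0) *
          (((Ps α (2 * (H : ℝ) * (2 : ℝ) ^ (2 * κ0 0))).ncard : ℕ) : ℝ)) := by
    rw [h1]
    push_cast
    exact Finset.sum_le_sum fun κ0 h0 => Finset.sum_le_sum fun α hα => hcell κ0 h0 α hα
  refine h2.trans ?_
  rw [← nsmul_eq_mul ((F.image κ).card), ← Finset.sum_const, ← Finset.sum_add_distrib]
  refine Finset.sum_le_sum fun κ0 _ => ?_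
  rw [Finset.sum_add_distrib, Finset.sum_const, nsmul_eq_mul, Finset.mul_sum]
  have h5 : 0 ≤ K * √((H : ℝ) ^ (2 * m + 1)) := by positivity
  have := mul_le_mul_of_nonneg_right hA h5
  linarith

/-- the number of the cells against `√H` -/
private theorem of_log (m a H : ℕ) (hH : 2 ≤ H) :
    ((2 * (a + Nat.clog 2 H) + 1 : ℕ) : ℝ) ^ (m + 1) * (Real.log H) ^ (1 / 8 : ℝ) ≤
      (2 * (a : ℝ) + 3 + 8 * (m + 2)) ^ (m + 1) * (2 * (m + 2)) * √(H : ℝ) := by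
  have hHr : (2 : ℝ) ≤ H := by exact_mod_cast hH
  have hH0 : (0 : ℝ) ≤ H := by linarith
  have hH1 : (1 : ℝ) ≤ H := by linarith
  obtain ⟨k, hk⟩ : ∃ k : ℝ, k = 2 * ((m : ℝ) + 2) := ⟨_, rfl⟩
  have hk4 : 4 ≤ k := by
    have : (0 : ℝ) ≤ m := Nat.cast_nonneg m
    rw [hk]
    linarith
  have hk0 : 0 < k := by linarith
  obtain ⟨y, hy⟩ : ∃ y : ℝ, y = (H : ℝ) ^ (1 / k) := ⟨_, rfl⟩
  have hy1 : 1 ≤ y := by
    rw [hy]
    exact Real.one_le_rpow hH1 (by positivity)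
  have hlog : Real.log H ≤ k * y := by
    have h1 := Real.log_le_rpow_div hH0 (show 0 < 1 / k by positivity)
    rw [hy]
    refine h1.trans (le_of_eq ?_)
    field_simp
  have hlog0 : 0 < Real.log H := Real.log_pos (by linarith)
  have hclog : ((Nat.clog 2 H : ℕ) : ℝ) ≤ 1 + 2 * Real.log H := by
    have h1 : 2 ^ (Nat.clog 2 H - 1) < H := Nat.pow_pred_clog_lt_self (by norm_num) (by omega)
    have h2 : ((2 : ℝ)) ^ (Nat.clog 2 H - 1) ≤ H := by exact_mod_cast h1.le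
    have h3 := Real.log_le_log (by positivity) h2
    rw [Real.log_pow] at h3
    have h4 : (1 : ℝ) / 2 ≤ Real.log 2 := by
      have := Real.log_two_gt_d9
      linarith
    have h5 : ((Nat.clog 2 H : ℕ) : ℝ) ≤ ((Nat.clog 2 H - 1 : ℕ) : ℝ) + 1 := by
      have : Nat.clog 2 H ≤ (Nat.clog 2 H - 1) + 1 := by omega
      exact_mod_cast this
    have h6 : 0 ≤ ((Nat.clog 2 H - 1 : ℕ) : ℝ) := Nat.cast_nonneg _
    nlinarith
  have hbase : ((2 * (a + Nat.clog 2 H) + 1 : ℕ) : ℝ) ≤ (2 * (a : ℝ) + 3 + 8 * (m + 2)) * y := by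
    push_cast
    have ha : (0 : ℝ) ≤ a := Nat.cast_nonneg a
    have h1 : 8 * ((m : ℝ) + 2) = 4 * k := by rw [hk]; ring
    rw [h1]
    have h2 : 2 * ((a : ℝ) + (Nat.clog 2 H : ℕ)) + 1 ≤ 2 * a + 3 + 4 * (k * y) := by
      linarith
    have h3 : 2 * (a : ℝ) + 3 ≤ (2 * a + 3) * y := by nlinarith
    have h4 : (2 * (a : ℝ) + 3 + 4 * k) * y = (2 * a + 3) * y + 4 * (k * y) := by ring
    rw [h4]
    linarith
  have h8 : (Real.log H) ^ (1 / 8 : ℝ) ≤ k * y := by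
    have h1 : 1 ≤ k * y := by nlinarith
    calc (Real.log H) ^ (1 / 8 : ℝ) ≤ (k * y) ^ (1 / 8 : ℝ) :=
          Real.rpow_le_rpow hlog0.le hlog (by norm_num)
      _ ≤ (k * y) ^ (1 : ℝ) := Real.rpow_le_rpow_of_exponent_le h1 (by norm_num)
      _ = k * y := Real.rpow_one _
  have hyp : y ^ (m + 2) = √(H : ℝ) := by
    rw [hy, ← Real.rpow_natCast, ← Real.rpow_mul hH0, Real.sqrt_eq_rpow]
    congr 1
    rw [hk]
    push_cast
    field_simp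
  calc ((2 * (a + Nat.clog 2 H) + 1 : ℕ) : ℝ) ^ (m + 1) * (Real.log H) ^ (1 / 8 : ℝ)
      ≤ ((2 * (a : ℝ) + 3 + 8 * (m + 2)) * y) ^ (m + 1) * (k * y) := by
        refine mul_le_mul (pow_le_pow_left₀ (Nat.cast_nonneg _) hbase _) h8 ?_ ?_
        · exact Real.rpow_nonneg hlog0.le _
        · positivity
    _ = (2 * (a : ℝ) + 3 + 8 * (m + 2)) ^ (m + 1) * k * y ^ (m + 2) := by
        rw [mul_pow]
        ring
    _ = _ := by
        rw [hyp, hk]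

private theorem of_two_pow (x : ℝ) : ∃ k : ℕ, x ≤ 2 ^ k := by
  obtain ⟨k, hk⟩ := pow_unbounded_of_one_lt x (one_lt_two : (1 : ℝ) < 2)
  exact ⟨k, hk.le⟩

private theorem of_sqrt (H m : ℕ) : √((H : ℝ) ^ (2 * m + 1)) = (H : ℝ) ^ m * √(H : ℝ) := by
  rw [pow_succ, pow_mul', Real.sqrt_mul (by positivity), Real.sqrt_sq (by positivity)]

private theorem oc_inv {N : ℕ} (g : Matrix (Fin N) (Fin N) ℤ) (hg : g.det = 1 ∨ g.det = -1) :
    ∃ g' : Matrix (Fin N) (Fin N) ℤ, g * g' = 1 ∧ (g'.det = 1 ∨ g'.det = -1) := by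
  have hu : IsUnit g.det := by
    rcases hg with h | h <;> rw [h]
    · exact isUnit_one
    · exact isUnit_one.neg
  refine ⟨g⁻¹, Matrix.mul_nonsing_inv g hu, ?_⟩
  have h1 : g.det * (g⁻¹).det = 1 := by
    rw [← Matrix.det_mul, Matrix.mul_nonsing_inv g hu, Matrix.det_one]
  rcases hg with h | h
  · left
    rwa [h, one_mul] at h1
  · right
    rw [h] at h1
    linarith

private theorem oc_conj {N : ℕ} (A B a b b' : Matrix (Fin N) (Fin N) ℤ) (hb : b * b' = 1)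
    (h : aᵀ * A * a = bᵀ * B * b) : B = (a * b')ᵀ * A * (a * b') := by
  have h1 : (a * b')ᵀ * A * (a * b') = b'ᵀ * (aᵀ * A * a) * b' := by
    rw [Matrix.transpose_mul]
    simp only [Matrix.mul_assoc]
  have h2 : b'ᵀ * (bᵀ * B * b) * b' = (b * b')ᵀ * B * (b * b') := by
    rw [Matrix.transpose_mul]
    simp only [Matrix.mul_assoc]
  rw [h1, h, h2, hb, Matrix.transpose_one, Matrix.one_mul, Matrix.mul_one]

private theorem oc_assoc {N : ℕ} (A g U : Matrix (Fin N) (Fin N) ℤ) :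
    Uᵀ * (gᵀ * A * g) * U = (g * U)ᵀ * A * (g * U) := by
  rw [Matrix.transpose_mul]
  simp only [Matrix.mul_assoc]

private theorem oc_det {N : ℕ} (g U : Matrix (Fin N) (Fin N) ℤ)
    (hg : g.det = 1 ∨ g.det = -1) (hU : U.det = 1 ∨ U.det = -1) :
    (g * U).det = 1 ∨ (g * U).det = -1 := by
  rw [Matrix.det_mul]
  rcases hg with h | h <;> rcases hU with h' | h' <;> rw [h, h'] <;> norm_num

/-- equal translates give an integral equivalence and the same polynomial -/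
private theorem oc_eq {d : ℕ} (α : ℤ) (hα : α ≠ 0) (a b : Fin (d + 1) → ℤ)
    (G1 S1 G2 S2 g1 g2 U V : Matrix (Fin d) (Fin d) ℤ)
    (hg1 : g1.det = 1 ∨ g1.det = -1) (hg2 : g2.det = 1 ∨ g2.det = -1)
    (hU : U.det = 1) (hV : V.det = 1)
    (ha : pen (α • G1) S1 = C (-(-1) ^ ((d + 1) / 2) * α ^ (d - 1)) * pol a)
    (hb : pen (α • G2) S2 = C (-(-1) ^ ((d + 1) / 2) * α ^ (d - 1)) * pol b)
    (h1 : Uᵀ * (g1ᵀ * G1 * g1) * U = Vᵀ * (g2ᵀ * G2 * g2) * V)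
    (h2 : Uᵀ * (g1ᵀ * S1 * g1) * U = Vᵀ * (g2ᵀ * S2 * g2) * V) :
    ∃ h : Matrix (Fin d) (Fin d) ℤ, (h.det = 1 ∨ h.det = -1) ∧ b = a ∧ G2 = hᵀ * G1 * h ∧
      S2 = hᵀ * S1 * h := by
  have hC : (C (-(-1) ^ ((d + 1) / 2) * α ^ (d - 1)) : ℤ[X]) ≠ 0 := by
    rw [Ne, C_eq_zero]
    exact mul_ne_zero (neg_ne_zero.2 (pow_ne_zero _ (by norm_num))) (pow_ne_zero _ hα)
  obtain ⟨b', hb', hd'⟩ := oc_inv (g2 * V) (oc_det g2 V hg2 (Or.inl hV))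
  rw [oc_assoc, oc_assoc] at h1 h2
  have hd := oc_det (g1 * U) b' (oc_det g1 U hg1 (Or.inl hU)) hd'
  have e1 := oc_conj G1 G2 (g1 * U) (g2 * V) b' hb' h1
  have e2 := oc_conj S1 S2 (g1 * U) (g2 * V) b' hb' h2
  refine ⟨g1 * U * b', hd, ?_, e1, e2⟩
  have hsq : (g1 * U * b').det ^ 2 = 1 := by
    rcases hd with h | h <;> rw [h] <;> norm_num
  have h3 : pen (α • G2) S2 = pen (α • G1) S1 := by
    have e3 : α • ((g1 * U * b')ᵀ * G1 * (g1 * U * b')) =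
        (g1 * U * b')ᵀ * (α • G1) * (g1 * U * b') := by
      rw [Matrix.mul_smul, Matrix.smul_mul]
    rw [e1, e2, e3, pen_conj, hsq, C_1, one_mul]
  rw [ha, hb] at h3
  exact pol_inj _ _ (mul_left_cancel₀ hC h3)

theorem odd_classes (m : ℕ) (hm : Even m) (h2 : 2 ≤ m) : ∃ K1 : ℕ, ∀ t H : ℕ, 2 ≤ H →
    ∀ (ι : Type) (F : Finset ι) (tup : ι → Fin (m + 1 + 1) → ℤ)
      (G S : ι → Matrix (Fin (m + 1)) (Fin (m + 1)) ℤ),
      (∀ i ∈ F, (∀ k, |tup i k| ≤ (H : ℤ)) ∧ Good (tup i) ∧ (G i).IsSymm ∧ (S i).IsSymm ∧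
        ((G i).det = 1 ∨ (G i).det = -1) ∧ NegSq (tup i (Fin.last (m + 1))) (S i) ∧
        pen (tup i (Fin.last (m + 1)) • G i) (S i) =
          C (-(-1) ^ (((m + 1) + 1) / 2) * (tup i (Fin.last (m + 1))) ^ ((m + 1) - 1)) * pol (tup i) ∧
        ∃ q : ℕ, Squarefree q ∧ (q : ℤ) ∣ tup i (Fin.last (m + 1)) ∧ (H : ℝ) ≤ 2 ^ t * q) →
      (∀ i ∈ F, ∀ j ∈ F, ∀ g : Matrix (Fin (m + 1)) (Fin (m + 1)) ℤ, (g.det = 1 ∨ g.det = -1) →
        tup j = tup i → G j = gᵀ * G i * g → S j = gᵀ * S i * g → i = j) →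
      (F.card : ℝ) ≤
        2 ^ (K1 * (t + 1)) * (H : ℝ) ^ (m + 2) * (Real.log H) ^ (-(1 / 8 : ℝ)) := by
  classical
  obtain ⟨c, hc⟩ := odd_cell_red (m + 1) hm.add_one (by omega)
  obtain ⟨K4, hK4⟩ := odd_cell_i m hm h2 c
  obtain ⟨K3, hK3⟩ := odd_low_r m hm h2 c
  obtain ⟨K, hK1, hK⟩ := pair_dens_r
  obtain ⟨Ct, hCt1, hCt⟩ := odd_total_r m c (4 * K) (by linarith)
  obtain ⟨K7, hK7⟩ := of_two_pow (3 * ((2 * ((K3 + c : ℕ) : ℝ) + 3 + 8 * (m + 2)) ^ (m + 1) *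
    (2 * (m + 2))) + Ct)
  refine ⟨K7 + (m + 1) + K4, fun t H hH ι F tup G0 S0 hmem hinj => ?_⟩
  have hH1' : 1 ≤ H := by omega
  have hHr : (2 : ℝ) ≤ H := by exact_mod_cast hH
  have hlog0 : 0 < Real.log H := Real.log_pos (by linarith)
  obtain ⟨le, hle⟩ : ∃ le : ι → ℤ, ∀ i, tup i (Fin.last (m + 1)) = le i := ⟨_, fun _ => rfl⟩
  have hle0 : ∀ i ∈ F, le i ≠ 0 := fun i hi => by
    rw [← hle]
    exact (hmem i hi).2.1.1
  have hch : ∀ a, a ∈ F →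
      ∃ (g : Matrix (Fin (m + 1)) (Fin (m + 1)) ℤ) (κ : Fin (m + 1) → ℤ),
      (g.det = 1 ∨ g.det = -1) ∧ PG (gᵀ * G0 a * g) (gᵀ * S0 a * g) ∧
      Monotone κ ∧ ∑ i, κ i ≤ (c : ℤ) ∧
      ∀ U ∈ Tr κ, ∀ i j, |(((Uᵀ * (gᵀ * G0 a * g) * U) i j : ℤ) : ℝ)| < (2 : ℝ) ^ (κ i + κ j) ∧
        |(((Uᵀ * (gᵀ * S0 a * g) * U) i j : ℤ) : ℝ)| < 2 * (H : ℝ) * (2 : ℝ) ^ (κ i + κ j) :=
    fun a ha => hc H hH1' (tup a) (hmem a ha).1 (hmem a ha).2.1 (G0 a) (S0 a)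
      (hmem a ha).2.2.1 (hmem a ha).2.2.2.1 (hmem a ha).2.2.2.2.1 (hmem a ha).2.2.2.2.2.2.1
  choose! g κ hg hPG hmono hκs hU using hch
  obtain ⟨G, hG⟩ : ∃ G : ι → Matrix (Fin (m + 1)) (Fin (m + 1)) ℤ,
      ∀ i, (g i)ᵀ * G0 i * g i = G i := ⟨_, fun _ => rfl⟩
  obtain ⟨S, hS⟩ : ∃ S : ι → Matrix (Fin (m + 1)) (Fin (m + 1)) ℤ,
      ∀ i, (g i)ᵀ * S0 i * g i = S i := ⟨_, fun _ => rfl⟩
  simp only [hG, hS] at hPG hU
  have hN : ∀ a ∈ F, NegSq (le a) (S a) := fun a ha => by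
    rw [← hS, ← hle]
    exact negSq_conj _ _ _ (hmem a ha).2.2.2.2.2.1
  have hq : ∀ a ∈ F, ∃ q : ℕ, Squarefree q ∧ (q : ℤ) ∣ le a ∧ (H : ℝ) ≤ 2 ^ t * q :=
    fun a ha => by
      rw [← hle]
      exact (hmem a ha).2.2.2.2.2.2.2
  have hleH : ∀ a ∈ F, |le a| ≤ (H : ℤ) := fun a ha => by
    rw [← hle]
    exact (hmem a ha).1 _
  have hkey : ∀ i ∈ F, ∀ j ∈ F, le i = le j → ∀ U V : Matrix (Fin (m + 1)) (Fin (m + 1)) ℤ,
      U.det = 1 → V.det = 1 → Uᵀ * G i * U = Vᵀ * G j * V → Uᵀ * S i * U = Vᵀ * S j * V →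
      i = j := by
    intro i hi j hj hij U V hU1 hV1 h3 h4
    rw [← hG, ← hG] at h3
    rw [← hS, ← hS] at h4
    have h5 := (hmem i hi).2.2.2.2.2.2.1
    have h6 := (hmem j hj).2.2.2.2.2.2.1
    rw [hle] at h5 h6
    rw [← hij] at h6
    obtain ⟨h, hd, e1, e2, e3⟩ := oc_eq (le i) (hle0 i hi) (tup i) (tup j) (G0 i) (S0 i) (G0 j)
      (S0 j) (g i) (g j) U V (hg i hi) (hg j hj) hU1 hV1 h5 h6 h3 h4
    exact hinj i hi j hj h hd e1 e2 e3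
  have hcon : ∀ κ0 ∈ F.image κ, Monotone κ0 ∧
      (∀ i : Fin (m + 1), 1 ≤ κ0 i + κ0 i.rev ∧ κ0 i + κ0 i.rev ≤ 2 * (c : ℤ)) ∧
      1 ≤ ∑ i, κ0 i ∧ ∑ i, κ0 i ≤ (c : ℤ) := by
    intro κ0 hκ0
    obtain ⟨a, ha, rfl⟩ := Finset.mem_image.1 hκ0
    obtain ⟨h3, h4⟩ := of_constr (κ a) (hmono a ha) (G a) (S a) (hPG a ha) (hκs a ha) (hU a ha)
    exact ⟨hmono a ha, h3, h4, hκs a ha⟩
  obtain ⟨P, hP⟩ : ∃ P : ℝ, P = 2 ^ (K4 * (t + 1)) := ⟨_, rfl⟩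
  have hP1 : 1 ≤ P := by
    rw [hP]
    exact one_le_pow₀ one_le_two
  have hstep := of_step m H hH1' P hP1 F κ le hleH (by
    intro κ0 hκ0 α hα
    obtain ⟨a, ha, haα⟩ := Finset.mem_image.1 hα
    obtain ⟨q, hq1, hq2, hq3⟩ := hq a ha
    rw [haα] at hq2
    have hα0 : α ≠ 0 := by
      rw [← haα]
      exact hle0 a ha
    obtain ⟨h3, h4, _, h5⟩ := hcon κ0 hκ0
    have h6 := hK4 t H hH1' q α hα0 hq1 hq2 hq3 κ0 h4 h5 ι
      (↑(F.filter fun a => κ a = κ0 ∧ le a = α)) (Finset.finite_toSet _) G S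
      ⟨h3, fun i hi j hj U hU1 V hV1 e1 e2 => by
        rw [Finset.mem_coe, Finset.mem_filter] at hi hj
        exact hkey i hi.1 j hj.1 (hi.2.2.trans hj.2.2.symm) U V (ut_det U hU1.1)
          (ut_det V hV1.1) e1 e2, fun b hb => by
        rw [Finset.mem_coe, Finset.mem_filter] at hb
        have h7 := hb.1
        refine ⟨hPG b h7, ?_, ?_⟩
        · rw [← hb.2.2]
          exact hN b h7
        · rw [← hb.2.1]
          exact hU b h7⟩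
    rw [Set.ncard_coe_finset, ← hP] at h6
    exact h6)
  -- the number of cells
  obtain ⟨X, hX⟩ : ∃ X : ℕ, X = K3 * (t + 1) + Nat.clog 2 H := ⟨_, rfl⟩
  have hIc : (F.image κ).card ≤ (2 * X + 2 * c + 1) ^ (m + 1) := by
    apply card_cells m c X
    intro κ0 hκ0
    obtain ⟨h3, h4, _, _⟩ := hcon κ0 hκ0
    refine ⟨h3, ?_, ?_⟩
    · have := (h4 0).2
      rwa [Fin.rev_zero] at this
    · obtain ⟨a, ha, haκ⟩ := Finset.mem_image.1 hκ0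
      obtain ⟨q, hq1, hq2, hq3⟩ := hq a ha
      have h7 := hK3 t H hH1' q (le a) hq1 hq2 hq3 κ0 h3 h4 (by
        rw [← haκ]
        exact of_mem (G a) (S a) (κ a) _ (hPG a ha) (hN a ha) (hU a ha))
      refine h7.trans ?_
      rw [hX, pow_add]
      have h8 : (H : ℝ) ≤ 2 ^ (Nat.clog 2 H) := by
        exact_mod_cast Nat.le_pow_clog (by norm_num) H
      exact mul_le_mul_of_nonneg_left h8 (by positivity)
  have hIr : ((F.image κ).card : ℝ) ≤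
      ((2 * ((K3 + c) + Nat.clog 2 H) + 1 : ℕ) : ℝ) ^ (m + 1) * 2 ^ ((m + 1) * (t + 1)) := by
    have h1 : 2 * X + 2 * c + 1 ≤ (2 * ((K3 + c) + Nat.clog 2 H) + 1) * 2 ^ (t + 1) := by
      have h3 : t + 1 ≤ 2 ^ (t + 1) := Nat.lt_two_pow_self.le
      have h4 : 1 ≤ 2 ^ (t + 1) := Nat.one_le_two_pow
      have h5 : 2 * X + 2 * c + 1 = 2 * K3 * (t + 1) + (2 * Nat.clog 2 H + 2 * c + 1) := by
        rw [hX]
        ring
      rw [h5]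
      calc 2 * K3 * (t + 1) + (2 * Nat.clog 2 H + 2 * c + 1)
          ≤ 2 * K3 * 2 ^ (t + 1) + (2 * Nat.clog 2 H + 2 * c + 1) * 2 ^ (t + 1) :=
            Nat.add_le_add (Nat.mul_le_mul_left _ h3) (Nat.le_mul_of_pos_right _ (by omega))
        _ = (2 * ((K3 + c) + Nat.clog 2 H) + 1) * 2 ^ (t + 1) := by ring
    have h2 : (F.image κ).card ≤ ((2 * ((K3 + c) + Nat.clog 2 H) + 1) * 2 ^ (t + 1)) ^ (m + 1) :=
      hIc.trans (Nat.pow_le_pow_left h1 _)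
    have h3 : ((F.image κ).card : ℝ) ≤
        ((((2 * ((K3 + c) + Nat.clog 2 H) + 1) * 2 ^ (t + 1)) ^ (m + 1) : ℕ) : ℝ) := by
      exact_mod_cast h2
    refine h3.trans (le_of_eq ?_)
    push_cast
    rw [mul_pow, ← pow_mul, Nat.mul_comm (t + 1) (m + 1)]
  have hA : ((F.image κ).card : ℝ) * (3 * H * (P * √((H : ℝ) ^ (2 * m + 1)))) ≤
      (3 * ((2 * ((K3 + c : ℕ) : ℝ) + 3 + 8 * (m + 2)) ^ (m + 1) * (2 * (m + 2)))) *
        (2 ^ ((m + 1) * (t + 1)) * P * (H : ℝ) ^ (m + 2) * (Real.log H) ^ (-(1 / 8 : ℝ))) := by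
    have h1 := of_log m (K3 + c) H hH
    have hl : 0 < (Real.log H) ^ (-(1 / 8 : ℝ)) := Real.rpow_pos_of_pos hlog0 _
    have hll : (Real.log H) ^ (1 / 8 : ℝ) * (Real.log H) ^ (-(1 / 8 : ℝ)) = 1 := by
      rw [← Real.rpow_add hlog0]
      norm_num
    have h3 : ((2 * ((K3 + c) + Nat.clog 2 H) + 1 : ℕ) : ℝ) ^ (m + 1) ≤
        (2 * ((K3 + c : ℕ) : ℝ) + 3 + 8 * (m + 2)) ^ (m + 1) * (2 * (m + 2)) * √(H : ℝ) *
          (Real.log H) ^ (-(1 / 8 : ℝ)) := by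
      have h4 := mul_le_mul_of_nonneg_right h1 hl.le
      rwa [mul_assoc, hll, mul_one] at h4
    have h4 := mul_le_mul_of_nonneg_right h3 (show (0 : ℝ) ≤ 2 ^ ((m + 1) * (t + 1)) by positivity)
    have h5 := hIr.trans h4
    rw [of_sqrt]
    have h6 := mul_le_mul_of_nonneg_right h5
      (show (0 : ℝ) ≤ 3 * H * (P * ((H : ℝ) ^ m * √(H : ℝ))) by positivity)
    refine h6.trans (le_of_eq ?_)
    have h7 : √(H : ℝ) * √(H : ℝ) = H := Real.mul_self_sqrt (by positivity)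
    calc _ = (3 * ((2 * ((K3 + c : ℕ) : ℝ) + 3 + 8 * (m + 2)) ^ (m + 1) * (2 * (m + 2)))) *
          (2 ^ ((m + 1) * (t + 1)) * P * ((H : ℝ) ^ m * H * (√(H : ℝ) * √(H : ℝ))) *
            (Real.log H) ^ (-(1 / 8 : ℝ))) := by ring
      _ = _ := by
          rw [h7]
          ring
  -- the main terms
  obtain ⟨A, hAd⟩ : ∃ A : Finset ℤ, A = F.image le := ⟨_, rfl⟩
  have hAm : ∀ α ∈ A, α ≠ 0 ∧ |α| ≤ (H : ℤ) := by
    intro α hα
    rw [hAd] at hα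
    obtain ⟨a, ha, rfl⟩ := Finset.mem_image.1 hα
    exact ⟨hle0 a ha, hleH a ha⟩
  have hAc : (A.card : ℝ) ≤ 2 * H := by
    have h3 : A ⊆ (Finset.Icc (-(H : ℤ)) H).erase 0 := by
      intro α hα
      rw [Finset.mem_erase, Finset.mem_Icc]
      exact ⟨(hAm α hα).1, abs_le.1 (hAm α hα).2⟩
    have h4 := Finset.card_le_card h3
    rw [Finset.card_erase_of_mem (by rw [Finset.mem_Icc]; omega), Int.card_Icc] at h4
    have h5 : A.card ≤ 2 * H := by omega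
    exact_mod_cast h5
  have hB := hCt H hH (F.image κ)
    (fun κ0 => ∑ α ∈ A, (((Ps α (2 * (H : ℝ) * (2 : ℝ) ^ (2 * κ0 0))).ncard : ℕ) : ℝ))
    (by
      intro κ0 hκ0
      obtain ⟨h3, h4, h5, h6⟩ := hcon κ0 hκ0
      refine ⟨h3, ?_, h5, h6⟩
      have := (h4 0).1
      rwa [Fin.rev_zero] at this)
    (by
      intro κ0 _
      refine ⟨Finset.sum_nonneg fun α _ => Nat.cast_nonneg _, ?_⟩
      refine (Finset.sum_le_sum fun α _ => of_ps_card α _ (by positivity)).trans ?_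
      rw [Finset.sum_const, nsmul_eq_mul]
      refine (mul_le_mul_of_nonneg_right hAc (by positivity)).trans (le_of_eq ?_)
      ring)
    (by
      intro κ0 _ N0 hN2 hNH hN0
      obtain ⟨hf, hle'⟩ := hK N0 hN2 ((H : ℝ) + 1) (2 * (H : ℝ) * (2 : ℝ) ^ (2 * κ0 0))
        (by linarith) hN0
      have h7 := of_pairs H (2 * (H : ℝ) * (2 : ℝ) ^ (2 * κ0 0)) A (fun α hα => (hAm α hα).2) hf
      have h8 : ∑ α ∈ A, (((Ps α (2 * (H : ℝ) * (2 : ℝ) ^ (2 * κ0 0))).ncard : ℕ) : ℝ) ≤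
          K * (Real.log N0) ^ (-(1 / 8 : ℝ)) *
            (((H : ℝ) + 1) * (2 * (H : ℝ) * (2 : ℝ) ^ (2 * κ0 0))) := by
        refine le_trans ?_ hle'
        exact_mod_cast h7
      refine h8.trans ?_
      have hl : 0 ≤ (Real.log N0) ^ (-(1 / 8 : ℝ)) :=
        Real.rpow_nonneg (Real.log_nonneg (by linarith)) _
      have hz : 0 < (2 : ℝ) ^ (2 * κ0 0) := by positivity
      have h9 : ((H : ℝ) + 1) * (2 * (H : ℝ) * (2 : ℝ) ^ (2 * κ0 0)) ≤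
          4 * ((H : ℝ) ^ 2 * (2 : ℝ) ^ (2 * κ0 0)) := by
        have h10 : ((H : ℝ) + 1) * (2 * (H : ℝ)) ≤ 4 * (H : ℝ) ^ 2 := by nlinarith
        have h11 := mul_le_mul_of_nonneg_right h10 hz.le
        linarith
      have h12 := mul_le_mul_of_nonneg_left h9 (show 0 ≤ K * (Real.log N0) ^ (-(1 / 8 : ℝ)) by
        have : 0 ≤ K := by linarith
        positivity)
      refine h12.trans (le_of_eq ?_)
      ring)
  have hB' : ∑ κ0 ∈ F.image κ, P * (H : ℝ) ^ m * (2 : ℝ) ^ (-(2 * κ0 0)) *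
        (3 / 4 : ℝ) ^ (κ0 (Fin.last m) - κ0 0) *
          ∑ α ∈ A, (((Ps α (2 * (H : ℝ) * (2 : ℝ) ^ (2 * κ0 0))).ncard : ℕ) : ℝ) ≤
      Ct * (2 ^ ((m + 1) * (t + 1)) * P * (H : ℝ) ^ (m + 2) *
        (Real.log H) ^ (-(1 / 8 : ℝ))) := by
    have h3 : ∑ κ0 ∈ F.image κ, P * (H : ℝ) ^ m * (2 : ℝ) ^ (-(2 * κ0 0)) *
        (3 / 4 : ℝ) ^ (κ0 (Fin.last m) - κ0 0) *
          ∑ α ∈ A, (((Ps α (2 * (H : ℝ) * (2 : ℝ) ^ (2 * κ0 0))).ncard : ℕ) : ℝ) =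
        P * ∑ κ0 ∈ F.image κ, (H : ℝ) ^ m * (2 : ℝ) ^ (-(2 * κ0 0)) *
        (3 / 4 : ℝ) ^ (κ0 (Fin.last m) - κ0 0) *
          ∑ α ∈ A, (((Ps α (2 * (H : ℝ) * (2 : ℝ) ^ (2 * κ0 0))).ncard : ℕ) : ℝ) := by
      rw [Finset.mul_sum]
      refine Finset.sum_congr rfl fun κ0 _ => ?_
      ring
    rw [h3]
    refine (mul_le_mul_of_nonneg_left hB (by linarith)).trans ?_
    have hl : 0 ≤ (Real.log H) ^ (-(1 / 8 : ℝ)) := Real.rpow_nonneg hlog0.le _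
    have h4 : (1 : ℝ) ≤ 2 ^ ((m + 1) * (t + 1)) := one_le_pow₀ one_le_two
    have h5 : 0 ≤ P * (H : ℝ) ^ (m + 2) * (Real.log H) ^ (-(1 / 8 : ℝ)) := by positivity
    have h6 : P * (H : ℝ) ^ (m + 2) * (Real.log H) ^ (-(1 / 8 : ℝ)) ≤
        2 ^ ((m + 1) * (t + 1)) * (P * (H : ℝ) ^ (m + 2) * (Real.log H) ^ (-(1 / 8 : ℝ))) := by
      nlinarith
    have h7 := mul_le_mul_of_nonneg_left h6 (show 0 ≤ Ct by linarith)
    calc P * (Ct * (H : ℝ) ^ (m + 2) * (Real.log H) ^ (-(1 / 8 : ℝ)))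
        = Ct * (P * (H : ℝ) ^ (m + 2) * (Real.log H) ^ (-(1 / 8 : ℝ))) := by ring
      _ ≤ _ := h7
      _ = _ := by ring
  rw [← hAd] at hstep
  have h9 := hstep.trans (add_le_add hA hB')
  rw [← add_mul] at h9
  refine h9.trans ?_
  have hl : 0 ≤ (Real.log H) ^ (-(1 / 8 : ℝ)) := Real.rpow_nonneg hlog0.le _
  have h10 : 0 ≤ 2 ^ ((m + 1) * (t + 1)) * P * (H : ℝ) ^ (m + 2) *
      (Real.log H) ^ (-(1 / 8 : ℝ)) := by positivity
  refine (mul_le_mul_of_nonneg_right hK7 h10).trans ?_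
  have h11 : (2 : ℝ) ^ K7 ≤ 2 ^ (K7 * (t + 1)) :=
    pow_le_pow_right₀ one_le_two (Nat.le_mul_of_pos_right _ (by omega))
  refine (mul_le_mul_of_nonneg_right h11 h10).trans (le_of_eq ?_)
  rw [hP]
  have h12 : (2 : ℝ) ^ ((K7 + (m + 1) + K4) * (t + 1)) =
      2 ^ (K7 * (t + 1)) * 2 ^ ((m + 1) * (t + 1)) * 2 ^ (K4 * (t + 1)) := by
    rw [← pow_add, ← pow_add]
    congr 1
    ring
  rw [h12]
  ring

end Pool.Agent.Helper32.FM
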