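import Pool.Agent.Helper32.FM.Defs

set_option autoImplicit false

/-!
FM-P1 BetaInt. The beta integral form of `Sp`, and `Np`.

PROOF. `beta_int`: induction on `q` (for all `p`): `q = 0`: `∫ s^p = 1/(p+1)`. Step: integration by parts, or
`(1-s)^(q+1) = (1-s)^q - s (1-s)^q`, so `I(p,q+1) = I(p,q) - I(p+1,q)` and
`p! q!/(p+q+1)! - (p+1)! q!/(p+q+2)! = p! q! ((p+q+2) - (p+1))/(p+q+2)! = p! (q+1)!/(p+q+2)!`. (All integrands continuous.)
`sp_int`: binomial theorem for `(c + a s)^r = ∑_j C(r,j) (a s)^j c^(r-j)`, `beta_int (p+j) q` and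
`(p+q+r+1)!/(p! q! r!) * C(r,j) (p+j)! q!/(p+q+j+1)! = C(p+j,j) C(p+q+r+1,r-j)` (`j ≤ r`; write the binomials as quotients
of factorials: `Nat.choose_eq_factorial_div_factorial`, cast in `ℂ`, `field_simp`; `p + q + r + 1 - (r - j) = p + q + j + 1`).
Checked by computer.
`np_le`: `(p+q+r+1)!/(p! q! r!) = (p+q+r+1) * (multinomial) ≤ (p+q+r+1) 3^(p+q+r)`:
`(p+q+r)!/(p! q! r!) = C(p+q+r,p) C(q+r,q)` and `C(n,p) C(n-p,q) ≤ ∑_p ∑_q C(n,p) C(n-p,q) = 3^n`
(`∑_p C(n,p) 2^(n-p) = 3^n`, `C(n-p,q) ≤ 2^(n-p)`; so `C(n,p) 2^(n-p) ≤ (1+2)^n`, one term of the binomial sum).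
-/

open MeasureTheory intervalIntegral

namespace Pool.Agent.Helper32.FM

theorem beta_int (p q : ℕ) : ∫ s in (0:ℝ)..1, (s : ℝ) ^ p * (1 - s) ^ q =
    (p.factorial : ℝ) * (q.factorial : ℝ) / ((p + q + 1).factorial : ℝ) := by
  induction q generalizing p with
  | zero =>
    have h1 : ∫ s in (0:ℝ)..1, (s : ℝ) ^ p * (1 - s) ^ 0 = ∫ s in (0:ℝ)..1, (s : ℝ) ^ p := by
      refine intervalIntegral.integral_congr fun s _ => ?_
      simp
    rw [h1, integral_pow, Nat.add_zero, Nat.factorial_succ, Nat.factorial_zero]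
    have h2 : (p.factorial : ℝ) ≠ 0 := Nat.cast_ne_zero.2 p.factorial_ne_zero
    have h3 : (p : ℝ) + 1 ≠ 0 := Nat.cast_add_one_ne_zero p
    push_cast
    field_simp
    simp
  | succ q ih =>
    have h1 : ∫ s in (0:ℝ)..1, (s : ℝ) ^ p * (1 - s) ^ (q + 1) =
        ∫ s in (0:ℝ)..1, ((s : ℝ) ^ p * (1 - s) ^ q - (s : ℝ) ^ (p + 1) * (1 - s) ^ q) := by
      refine intervalIntegral.integral_congr fun s _ => ?_
      show (s : ℝ) ^ p * (1 - s) ^ (q + 1) = (s : ℝ) ^ p * (1 - s) ^ q - (s : ℝ) ^ (p + 1) * (1 - s) ^ q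
      ring
    rw [h1, intervalIntegral.integral_sub
      (Continuous.intervalIntegrable (by fun_prop) _ _)
      (Continuous.intervalIntegrable (by fun_prop) _ _), ih p, ih (p + 1)]
    have e1 : p + 1 + q + 1 = p + q + 1 + 1 := by ring
    have e2 : p + (q + 1) + 1 = p + q + 1 + 1 := by ring
    rw [e1, e2, Nat.factorial_succ (p + q + 1), Nat.factorial_succ p, Nat.factorial_succ q]
    have h2 : ((p + q + 1).factorial : ℝ) ≠ 0 := Nat.cast_ne_zero.2 (Nat.factorial_ne_zero _)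
    have h3 : (p : ℝ) + q + 1 + 1 ≠ 0 := by positivity
    push_cast
    field_simp
    ring

private theorem bi_term (p q : ℕ) : ∫ s in (0:ℝ)..1, (s : ℂ) ^ p * (1 - (s : ℂ)) ^ q =
    (p.factorial : ℂ) * (q.factorial : ℂ) / ((p + q + 1).factorial : ℂ) := by
  have h1 : ∫ s in (0:ℝ)..1, (s : ℂ) ^ p * (1 - (s : ℂ)) ^ q =
      ∫ s in (0:ℝ)..1, (((s : ℝ) ^ p * (1 - s) ^ q : ℝ) : ℂ) := by
    refine intervalIntegral.integral_congr fun s _ => ?_
    push_cast
    rfl
  rw [h1, intervalIntegral.integral_ofReal, beta_int]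
  push_cast
  rfl

theorem sp_int (p q r : ℕ) (a c : ℂ) :
    Sp p q r a c = (Np p q r : ℂ) *
      ∫ s in (0:ℝ)..1, (s : ℂ) ^ p * (1 - (s : ℂ)) ^ q * (c + a * (s : ℂ)) ^ r := by
  have h1 : ∫ s in (0:ℝ)..1, (s : ℂ) ^ p * (1 - (s : ℂ)) ^ q * (c + a * (s : ℂ)) ^ r =
      ∫ s in (0:ℝ)..1, ∑ j ∈ Finset.range (r + 1),
        (((r.choose j : ℕ) : ℂ) * a ^ j * c ^ (r - j)) *
          ((s : ℂ) ^ (p + j) * (1 - (s : ℂ)) ^ q) := by
    refine intervalIntegral.integral_congr fun s _ => ?_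
    show (s : ℂ) ^ p * (1 - (s : ℂ)) ^ q * (c + a * (s : ℂ)) ^ r = _
    rw [add_comm c, add_pow, Finset.mul_sum]
    refine Finset.sum_congr rfl fun j _ => ?_
    rw [mul_pow, pow_add]
    ring
  rw [h1, intervalIntegral.integral_finsetSum
    (fun j _ => Continuous.intervalIntegrable (by fun_prop) _ _)]
  unfold Sp
  rw [Finset.mul_sum]
  refine Finset.sum_congr rfl fun j hj => ?_
  have hjr : j ≤ r := Nat.lt_succ_iff.1 (Finset.mem_range.1 hj)
  rw [intervalIntegral.integral_const_mul, bi_term]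
  have hc : (((p + j).choose j * (p + q + r + 1).choose (r - j) : ℕ) : ℂ) =
      (Np p q r : ℂ) * (((r.choose j : ℕ) : ℂ) * (((p + j).factorial : ℂ) * (q.factorial : ℂ) /
        ((p + j + q + 1).factorial : ℂ))) := by
    have e1 : p + q + r + 1 - (r - j) = p + j + q + 1 := by omega
    rw [Nat.cast_mul, Nat.cast_choose ℂ (Nat.le_add_left j p),
      Nat.cast_choose ℂ (show r - j ≤ p + q + r + 1 by omega), Nat.cast_choose ℂ hjr, e1,
      Nat.add_sub_cancel]
    unfold Np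
    have f1 : ∀ n : ℕ, (n.factorial : ℂ) ≠ 0 := fun n => Nat.cast_ne_zero.2 n.factorial_ne_zero
    have g1 := f1 j
    have g2 := f1 p
    have g3 := f1 (r - j)
    have g4 := f1 (p + j + q + 1)
    have g5 := f1 q
    have g6 := f1 r
    push_cast
    field_simp
  rw [hc]
  ring

theorem np_le (p q r : ℕ) : Np p q r ≤ ((p + q + r + 1 : ℕ) : ℝ) * 3 ^ (p + q + r) := by
  have f1 : ∀ n : ℕ, (n.factorial : ℝ) ≠ 0 := fun n => Nat.cast_ne_zero.2 n.factorial_ne_zero
  have h1 : Np p q r = ((p + q + r + 1 : ℕ) : ℝ) *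
      (((p + q + r).choose p * (q + r).choose q : ℕ) : ℝ) := by
    have e1 : p + q + r - p = q + r := by omega
    have e2 : q + r - q = r := by omega
    unfold Np
    rw [Nat.cast_mul ((p + q + r).choose p), Nat.cast_choose ℝ (show p ≤ p + q + r by omega),
      Nat.cast_choose ℝ (show q ≤ q + r by omega), e1, e2, Nat.factorial_succ (p + q + r)]
    have g1 := f1 p
    have g2 := f1 q
    have g3 := f1 r
    have g4 := f1 (q + r)
    push_cast
    field_simp
  rw [h1]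
  refine mul_le_mul_of_nonneg_left ?_ (Nat.cast_nonneg _)
  have h2 : (p + q + r).choose p * (q + r).choose q ≤ 3 ^ (p + q + r) := by
    have h3 : (q + r).choose q ≤ 2 ^ (q + r) := Nat.choose_le_two_pow _ _
    have h4 : (p + q + r).choose p * 2 ^ (q + r) ≤ 3 ^ (p + q + r) := by
      have h5 := add_pow 1 2 (p + q + r)
      have h6 : (1 + 2 : ℕ) ^ (p + q + r) = 3 ^ (p + q + r) := by norm_num
      rw [← h6, h5]
      have h7 : (p + q + r).choose p * 2 ^ (q + r) =
          1 ^ p * 2 ^ (p + q + r - p) * (p + q + r).choose p := by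
        rw [one_pow, one_mul, mul_comm, show p + q + r - p = q + r by omega]
      rw [h7]
      exact Finset.single_le_sum (f := fun m => 1 ^ m * 2 ^ (p + q + r - m) * (p + q + r).choose m)
        (fun m _ => Nat.zero_le _) (Finset.mem_range.2 (by omega))
    exact (Nat.mul_le_mul_left _ h3).trans h4
  exact_mod_cast h2

end Pool.Agent.Helper32.FM
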