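import Pool.Agent.Helper32.FM.Size

set_option autoImplicit false

/-!
FM-C1 Classes. `CRel` is an equivalence relation; a class consists of at most `2^d` strong classes.

PROOF. INVERSE: for an integer `x` with `x - θ t ≠ 0` for all `t` (here: `x ≥ 4H`, `1 ≤ x`, `‖θ t‖ ≤ 2H`) there is `r ∈ ℚ[X]` with
`(x - θ t) r(θ t) = 1`: `f = ∑ a_i X^i`, `f(x) ≠ 0`, `f - C (f x) = (X - C x) g`, at `θ t`: `- f(x) = (θ t - x) g(θ t)`, `r = g/f(x)`.
`crel_refl`: `q = X - x` (`q(θ) = θ - x`, squared). `crel_symm`: clear. `crel_trans`: `q q' r`.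
`colors`: fix `x0 ∈ S` (if `S` is empty: trivial); for `x ∈ S` choose `q_x` with `(x0 - θ t)(x - θ t) = q_x(θ t)^2`; then
`(e_(x0) t * e_x t)^2 = q_x(θ t)^2`, so `e_(x0) t * e_x t = ± q_x(θ t)`; `c x t = true` iff the sign is `+`. If `c x = c x'`:
`(x0 - θ t) e_x t e_x' t = (e_(x0) t e_x t)(e_(x0) t e_x' t) = q_x(θ t) q_x'(θ t)` (the signs cancel), so
`e_x t * e_x' t = (q_x q_x' r)(θ t)`.
-/

open Polynomial

namespace Pool.Agent.Helper32.FM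

/-- `x - θ t` does not vanish -/
private theorem sub_ne {d H : ℕ} {a : Fin (d + 1) → ℤ} {θ : Fin d → ℂ} (hR : Roots H a θ) {x : ℤ}
    (hx : 4 * (H : ℤ) ≤ x) (hx1 : 1 ≤ x) (t : Fin d) : (x : ℂ) - θ t ≠ 0 := by
  intro h
  have h1 : θ t = (x : ℂ) := (sub_eq_zero.1 h).symm
  have h2 := root_le' hR t
  rw [h1, Complex.norm_intCast] at h2
  have h3 : (x : ℝ) ≤ 2 * H := (le_abs_self _).trans h2
  have h4 : (4 : ℝ) * H ≤ x := by exact_mod_cast hx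
  have h5 : (1 : ℝ) ≤ x := by exact_mod_cast hx1
  linarith

/-- the inverse of `x - θ t` is the value of a rational polynomial -/
private theorem inverse {d H : ℕ} {a : Fin (d + 1) → ℤ} {θ : Fin d → ℂ} (hR : Roots H a θ) {x : ℤ}
    (hx : 4 * (H : ℤ) ≤ x) (hx1 : 1 ≤ x) :
    ∃ r : ℚ[X], ∀ t, ((x : ℂ) - θ t) * aeval (θ t) r = 1 := by
  obtain ⟨f, hf⟩ : ∃ f : ℚ[X], f = ∑ i, C ((a i : ℤ) : ℚ) * X ^ (i : ℕ) := ⟨_, rfl⟩
  have hev : ∀ z : ℂ, aeval z f = (a (Fin.last d) : ℂ) * ∏ i, (z - θ i) := by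
    intro z
    rw [← hR.eval z, hf, map_sum]
    refine Finset.sum_congr rfl fun i _ => ?_
    rw [map_mul, map_pow, aeval_X, aeval_C]
    simp
  obtain ⟨g, hg⟩ := X_sub_C_dvd_sub_C_eval (a := ((x : ℤ) : ℚ)) (p := f)
  obtain ⟨b, hb⟩ : ∃ b : ℚ, b = f.eval ((x : ℤ) : ℚ) := ⟨_, rfl⟩
  rw [← hb] at hg
  have hbx : ((b : ℚ) : ℂ) = aeval (x : ℂ) f := by
    have h1 : ((x : ℤ) : ℂ) = algebraMap ℚ ℂ ((x : ℤ) : ℚ) := by simp
    rw [h1, aeval_algebraMap_apply, coe_aeval_eq_eval, ← hb]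
    simp
  have hb0 : ((b : ℚ) : ℂ) ≠ 0 := by
    rw [hbx, hev]
    refine mul_ne_zero ?_ (Finset.prod_ne_zero_iff.2 fun i _ => sub_ne hR hx hx1 i)
    exact_mod_cast hR.lead
  refine ⟨C (b⁻¹) * g, fun t => ?_⟩
  have h0 : aeval (θ t) f = 0 := by
    rw [hev, Finset.prod_eq_zero (Finset.mem_univ t) (sub_self _), mul_zero]
  have h1 := congrArg (aeval (θ t)) hg
  rw [map_sub, h0, map_mul, map_sub, aeval_X, aeval_C, aeval_C] at h1
  simp only [eq_ratCast, Rat.cast_intCast] at h1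
  rw [map_mul, aeval_C]
  simp only [eq_ratCast, Rat.cast_inv]
  have h2 : ((x : ℂ) - θ t) * aeval (θ t) g = b := by linear_combination h1
  calc ((x : ℂ) - θ t) * ((b : ℂ)⁻¹ * aeval (θ t) g)
      = (b : ℂ)⁻¹ * (((x : ℂ) - θ t) * aeval (θ t) g) := by ring
    _ = 1 := by rw [h2, inv_mul_cancel₀ hb0]

theorem crel_refl {d : ℕ} (θ : Fin d → ℂ) (x : ℤ) : CRel θ x x := by
  refine ⟨X - C ((x : ℤ) : ℚ), fun t => ?_⟩
  rw [map_sub, aeval_X, aeval_C]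
  simp only [eq_ratCast, Rat.cast_intCast]
  ring

theorem crel_symm {d : ℕ} {θ : Fin d → ℂ} {x y : ℤ} (h : CRel θ x y) : CRel θ y x := by
  obtain ⟨q, hq⟩ := h
  exact ⟨q, fun t => by rw [mul_comm, hq t]⟩

theorem crel_trans {d H : ℕ} {a : Fin (d + 1) → ℤ} {θ : Fin d → ℂ} (hR : Roots H a θ) {x y z : ℤ}
    (hy : 4 * (H : ℤ) ≤ y) (hy1 : 1 ≤ y) (h : CRel θ x y) (h' : CRel θ y z) : CRel θ x z := by
  obtain ⟨r, hr⟩ := inverse hR hy hy1
  obtain ⟨q, hq⟩ := h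
  obtain ⟨q', hq'⟩ := h'
  refine ⟨q * q' * r, fun t => ?_⟩
  rw [map_mul, map_mul]
  calc ((x : ℂ) - θ t) * ((z : ℂ) - θ t)
      = ((x : ℂ) - θ t) * ((z : ℂ) - θ t) * (((y : ℂ) - θ t) * aeval (θ t) r) ^ 2 := by
        rw [hr t]; ring
    _ = (((x : ℂ) - θ t) * ((y : ℂ) - θ t)) * (((y : ℂ) - θ t) * ((z : ℂ) - θ t))
        * aeval (θ t) r ^ 2 := by ring
    _ = (aeval (θ t) q * aeval (θ t) q' * aeval (θ t) r) ^ 2 := by
        rw [hq t, hq' t]; ring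

theorem colors {d H : ℕ} {a : Fin (d + 1) → ℤ} {θ : Fin d → ℂ} (hR : Roots H a θ) (S : Set ℤ)
    (hS : ∀ x ∈ S, 4 * (H : ℤ) ≤ x ∧ 1 ≤ x) (hC : ∀ x ∈ S, ∀ y ∈ S, CRel θ x y)
    (e : ℤ → Fin d → ℂ) (he : ∀ x, IsE θ x (e x)) :
    ∃ c : ℤ → Fin d → Bool, ∀ x ∈ S, ∀ y ∈ S, c x = c y → SRel θ (e x) (e y) := by
  classical
  rcases S.eq_empty_or_nonempty with rfl | ⟨x0, hx0⟩
  · exact ⟨fun _ _ => true, fun x hx => absurd hx (Set.notMem_empty x)⟩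
  have hq : ∀ x : ℤ, ∃ q : ℚ[X], x ∈ S →
      ∀ t, ((x0 : ℂ) - θ t) * ((x : ℂ) - θ t) = (aeval (θ t) q) ^ 2 := by
    intro x
    by_cases hx : x ∈ S
    · obtain ⟨q, hq⟩ := hC x0 hx0 x hx
      exact ⟨q, fun _ => hq⟩
    · exact ⟨0, fun h => absurd h hx⟩
  choose q hq using hq
  obtain ⟨r, hr⟩ := inverse hR (hS x0 hx0).1 (hS x0 hx0).2
  have hpm : ∀ x ∈ S, ∀ t, e x0 t * e x t = aeval (θ t) (q x) ∨
      e x0 t * e x t = -aeval (θ t) (q x) := by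
    intro x hx t
    rw [← sq_eq_sq_iff_eq_or_eq_neg, mul_pow, (he x0 t).1, (he x t).1]
    exact hq x hx t
  refine ⟨fun x t => decide (e x0 t * e x t = aeval (θ t) (q x)), fun x hx y hy hxy => ?_⟩
  refine ⟨q x * q y * r, fun t => ?_⟩
  have h1 : (e x0 t * e x t) * (e x0 t * e y t) = aeval (θ t) (q x) * aeval (θ t) (q y) := by
    have h2 : (e x0 t * e x t = aeval (θ t) (q x)) ↔ (e x0 t * e y t = aeval (θ t) (q y)) := by
      have h3 := congrFun hxy t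
      simpa only [decide_eq_decide] using h3
    by_cases h4 : e x0 t * e x t = aeval (θ t) (q x)
    · rw [h4, h2.1 h4]
    · have h5 : e x0 t * e y t ≠ aeval (θ t) (q y) := fun h => h4 (h2.2 h)
      rw [(hpm x hx t).resolve_left h4, (hpm y hy t).resolve_left h5]
      ring
  have h6 := (he x0 t).1
  rw [map_mul, map_mul]
  calc e x t * e y t = e x t * e y t * (((x0 : ℂ) - θ t) * aeval (θ t) r) := by
        rw [hr t, mul_one]
    _ = ((e x0 t * e x t) * (e x0 t * e y t)) * aeval (θ t) r := by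
        rw [← h6]; ring
    _ = _ := by rw [h1]

end Pool.Agent.Helper32.FM
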