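import Pool.Agent.Helper32.FM.BetaInt

set_option autoImplicit false

/-!
FM-P6c Window. The inequality of `delta_norm` is false in the window `X0^(2n) ≤ X1 ≤ X0^(2n+2)`, `n ≥ 3`, when
`X0 ≥ (4H)^512`. (Real numbers; `X l = (R l)^2`.)

PROOF. `K = 4H ≥ 4`, `N = Np n (n+κ) n ≤ (3n+κ+1) 3^(3n+κ) ≤ (3n+2) 3^(3n+1) ≤ K^(4n+2)` (`np_le`; `3n+2 ≤ 4^(n+1)`, `3^(3n+1) ≤ 4^(3n+1)`).
With `3 ≤ K`, `κ ≤ 1`:
 `(K/R0)^(2n+1) (3R0)^(n+κ) (3R1) ≤ K^(3n+3) R1/R0^(n+1-κ) =: K^(3n+3) u1`,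
 `(3R0)^(3n+1+κ) K/R1 ≤ K^(3n+3) R0^(3n+1+κ)/R1 =: K^(3n+3) u2`,
 `(K/R0)^(3n+1+κ) (K/R1) ≤ K^(3n+3)/(R0^(3n+1+κ) R1)`.
So `1 ≤ (N K^(3n+3) (u1 + u2))^3 * 2 N K^(3n+3)/(R0^(3n+1+κ) R1) ≤ 16 N^4 K^(12n+12) max(u1,u2)^3/(R0^(3n+1+κ) R1)`
(`(u1+u2)^3 ≤ 8 max^3`), and `16 N^4 K^(12n+12) ≤ K^(2+16n+8+12n+12) = K^(28n+22) ≤ K^(28(n+1)) =: c`.
 max = u1: `R0^(6n+4-2κ) ≤ c R1^2`, i.e. `X0^(3n+2-κ) ≤ c X1`, so `X0^(3n+1) ≤ c X1 ≤ c X0^(2n+2)`.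
 max = u2: `R1^4 ≤ c R0^(6n+2+2κ)`, i.e. `X1^2 ≤ c X0^(3n+1+κ) ≤ c X0^(3n+2)`.
`c^16 = K^(448 (n+1)) < K^(512(n+1)) ≤ X0^(n+1)`:
 first: `X0^(16(3n+1)) ≤ c^16 X0^(16(2n+2)) < X0^(33n+33)`, `48n+16 < 33n+33`, `n ≤ 1`, contradiction.
 second: `X0^(64n) ≤ X1^32 ≤ c^16 X0^(16(3n+2)) < X0^(49n+33)`, `64 n < 49 n + 33`, `n ≤ 2`, contradiction.
-/

namespace Pool.Agent.Helper32.FM

private theorem lin_le (n : ℕ) : 3 * n + 2 ≤ 4 ^ (n + 1) := by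
  induction n with
  | zero => norm_num
  | succ n ih =>
    have h : 4 ^ (n + 1 + 1) = 4 * 4 ^ (n + 1) := by ring
    omega

private theorem np_bound (K : ℝ) (hK : 4 ≤ K) (n κ : ℕ) (hκ : κ ≤ 1) :
    Np n (n + κ) n ≤ K ^ (4 * n + 2) := by
  refine le_trans (np_le n (n + κ) n) ?_
  have h1 : ((n + (n + κ) + n + 1 : ℕ) : ℝ) ≤ K ^ (n + 1) := by
    have h2 : n + (n + κ) + n + 1 ≤ 4 ^ (n + 1) := le_trans (by omega) (lin_le n)
    calc ((n + (n + κ) + n + 1 : ℕ) : ℝ) ≤ ((4 ^ (n + 1) : ℕ) : ℝ) := by exact_mod_cast h2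
      _ = (4 : ℝ) ^ (n + 1) := by push_cast; ring
      _ ≤ K ^ (n + 1) := pow_le_pow_left₀ (by norm_num) hK _
  have h3 : (3 : ℝ) ^ (n + (n + κ) + n) ≤ K ^ (3 * n + 1) := by
    calc (3 : ℝ) ^ (n + (n + κ) + n) ≤ K ^ (n + (n + κ) + n) :=
          pow_le_pow_left₀ (by norm_num) (by linarith) _
      _ ≤ K ^ (3 * n + 1) := pow_le_pow_right₀ (by linarith) (by omega)
  calc ((n + (n + κ) + n + 1 : ℕ) : ℝ) * 3 ^ (n + (n + κ) + n) ≤ K ^ (n + 1) * K ^ (3 * n + 1) :=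
        mul_le_mul h1 h3 (by positivity) (by positivity)
    _ = K ^ (4 * n + 2) := by rw [← pow_add]; congr 1; ring

private theorem fin_step (K X : ℝ) (hK : 4 ≤ K) (hX : K ^ 512 ≤ X) (n : ℕ) (hn : 3 ≤ n)
    (h : X ^ (n - 2) ≤ K ^ (28 * (n + 1))) : False := by
  have hX1 : 1 ≤ X := le_trans (one_le_pow₀ (by linarith)) hX
  have h1 : (X ^ (n - 2)) ^ 16 ≤ (K ^ (28 * (n + 1))) ^ 16 :=
    pow_le_pow_left₀ (by positivity) h _
  rw [← pow_mul, ← pow_mul] at h1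
  have h2 : K ^ (28 * (n + 1) * 16) < K ^ (512 * (n + 1)) :=
    pow_lt_pow_right₀ (by linarith) (by omega)
  have h3 : K ^ (512 * (n + 1)) ≤ X ^ (n + 1) := by
    rw [pow_mul]
    exact pow_le_pow_left₀ (by positivity) hX _
  have h4 : X ^ (n + 1) ≤ X ^ ((n - 2) * 16) := pow_le_pow_right₀ hX1 (by omega)
  linarith

theorem window (H : ℕ) (hH : 1 ≤ H) (n κ : ℕ) (hn : 3 ≤ n) (hκ : κ ≤ 1) (R0 R1 : ℝ) (h0 : 1 ≤ R0)
    (h1 : 1 ≤ R1) (hX : (4 * (H : ℝ)) ^ 512 ≤ R0 ^ 2) (hlo : (R0 ^ 2) ^ (2 * n) ≤ R1 ^ 2)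
    (hhi : R1 ^ 2 ≤ (R0 ^ 2) ^ (2 * n + 2))
    (h : 1 ≤ (Np n (n + κ) n * ((4 * H / R0) ^ (2 * n + 1) * (3 * R0) ^ (n + κ) * (3 * R1) +
        (3 * R0) ^ (3 * n + 1 + κ) * (4 * H / R1))) ^ 3 *
      (Np n (n + κ) n * (2 * ((4 * H / R0) ^ (3 * n + 1 + κ) * (4 * H / R1))))) : False := by
  have hHr : (1 : ℝ) ≤ H := by exact_mod_cast hH
  have hK : 4 ≤ 4 * (H : ℝ) := by linarith
  generalize 4 * (H : ℝ) = K at *
  have hN := np_bound K hK n κ hκ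
  have hN0 : 0 ≤ Np n (n + κ) n := by
    unfold Np
    positivity
  generalize Np n (n + κ) n = N at *
  have hK0 : 0 < K := by linarith
  have hR0 : 0 < R0 := by linarith
  have hR1 : 0 < R1 := by linarith
  obtain ⟨a, ha⟩ : ∃ a, a + κ = n + 1 := ⟨n + 1 - κ, by omega⟩
  obtain ⟨b, hb⟩ : ∃ b, b = 3 * n + 1 + κ := ⟨_, rfl⟩
  rw [← hb] at h
  have e1 : (K / R0) ^ (2 * n + 1) * (3 * R0) ^ (n + κ) * (3 * R1) =
      (K ^ (2 * n + 1) * 3 ^ (n + κ + 1)) * (R1 / R0 ^ a) := by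
    have e : 2 * n + 1 = a + (n + κ) := by omega
    rw [div_pow, mul_pow, pow_succ 3 (n + κ)]
    have e' : R0 ^ (2 * n + 1) = R0 ^ a * R0 ^ (n + κ) := by rw [e, pow_add]
    rw [e']
    field_simp
  have e2 : (3 * R0) ^ b * (K / R1) = (3 ^ b * K) * (R0 ^ b / R1) := by
    rw [mul_pow]
    ring
  have e3 : (K / R0) ^ b * (K / R1) = (K ^ b * K) * (1 / (R0 ^ b * R1)) := by
    rw [div_pow]
    field_simp
  rw [e1, e2, e3] at h
  have hu1 : 0 ≤ R1 / R0 ^ a := by positivity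
  have hu2 : 0 ≤ R0 ^ b / R1 := by positivity
  have hw : 0 ≤ 1 / (R0 ^ b * R1) := by positivity
  have c1 : K ^ (2 * n + 1) * 3 ^ (n + κ + 1) ≤ K ^ (3 * n + 3) := by
    calc K ^ (2 * n + 1) * 3 ^ (n + κ + 1) ≤ K ^ (2 * n + 1) * K ^ (n + κ + 1) :=
          mul_le_mul_of_nonneg_left (pow_le_pow_left₀ (by norm_num) (by linarith) _) (by positivity)
      _ = K ^ (2 * n + 1 + (n + κ + 1)) := (pow_add K _ _).symm
      _ ≤ K ^ (3 * n + 3) := pow_le_pow_right₀ (by linarith) (by omega)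
  have c3 : K ^ b * K ≤ K ^ (3 * n + 3) := by
    rw [← pow_succ]
    exact pow_le_pow_right₀ (by linarith) (by omega)
  have c2 : 3 ^ b * K ≤ K ^ (3 * n + 3) :=
    le_trans (mul_le_mul_of_nonneg_right (pow_le_pow_left₀ (by norm_num) (by linarith) _) hK0.le) c3
  -- the main inequality
  have key : ∀ M : ℝ, R1 / R0 ^ a ≤ M → R0 ^ b / R1 ≤ M →
      1 ≤ K ^ (28 * (n + 1)) * M ^ 3 * (1 / (R0 ^ b * R1)) := by
    intro M hM1 hM2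
    have hM0 : 0 ≤ M := le_trans hu1 hM1
    have t1 : K ^ (2 * n + 1) * 3 ^ (n + κ + 1) * (R1 / R0 ^ a) + 3 ^ b * K * (R0 ^ b / R1) ≤
        2 * (K ^ (3 * n + 3) * M) := by
      have s1 := mul_le_mul c1 hM1 hu1 (by positivity)
      have s2 := mul_le_mul c2 hM2 hu2 (by positivity)
      linarith
    have t2 : 2 * (K ^ b * K * (1 / (R0 ^ b * R1))) ≤ 2 * (K ^ (3 * n + 3) * (1 / (R0 ^ b * R1))) := by
      have s3 := mul_le_mul_of_nonneg_right c3 hw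
      linarith
    have t3 : (N * (K ^ (2 * n + 1) * 3 ^ (n + κ + 1) * (R1 / R0 ^ a) + 3 ^ b * K * (R0 ^ b / R1))) ^ 3 ≤
        (K ^ (4 * n + 2) * (2 * (K ^ (3 * n + 3) * M))) ^ 3 :=
      pow_le_pow_left₀ (by positivity) (mul_le_mul hN t1 (by positivity) (by positivity)) _
    have t4 : N * (2 * (K ^ b * K * (1 / (R0 ^ b * R1)))) ≤
        K ^ (4 * n + 2) * (2 * (K ^ (3 * n + 3) * (1 / (R0 ^ b * R1)))) :=
      mul_le_mul hN t2 (by positivity) (by positivity)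
    have t5 := le_trans h (mul_le_mul t3 t4 (by positivity) (by positivity))
    have t6 : (K ^ (4 * n + 2) * (2 * (K ^ (3 * n + 3) * M))) ^ 3 *
        (K ^ (4 * n + 2) * (2 * (K ^ (3 * n + 3) * (1 / (R0 ^ b * R1))))) =
        (16 * K ^ (28 * n + 20)) * (M ^ 3 * (1 / (R0 ^ b * R1))) := by
      have e : 28 * n + 20 = 4 * (4 * n + 2) + 4 * (3 * n + 3) := by ring
      rw [e, pow_add K (4 * (4 * n + 2)), pow_mul' K 4 (4 * n + 2), pow_mul' K 4 (3 * n + 3)]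
      ring
    rw [t6] at t5
    have t7 : 16 * K ^ (28 * n + 20) ≤ K ^ (28 * (n + 1)) := by
      have s : (16 : ℝ) ≤ K ^ 2 := by nlinarith
      calc 16 * K ^ (28 * n + 20) ≤ K ^ 2 * K ^ (28 * n + 20) :=
            mul_le_mul_of_nonneg_right s (by positivity)
        _ = K ^ (2 + (28 * n + 20)) := (pow_add K _ _).symm
        _ ≤ K ^ (28 * (n + 1)) := pow_le_pow_right₀ (by linarith) (by omega)
    have t8 := mul_le_mul_of_nonneg_right t7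
      (show 0 ≤ M ^ 3 * (1 / (R0 ^ b * R1)) by positivity)
    calc (1 : ℝ) ≤ 16 * K ^ (28 * n + 20) * (M ^ 3 * (1 / (R0 ^ b * R1))) := t5
      _ ≤ K ^ (28 * (n + 1)) * (M ^ 3 * (1 / (R0 ^ b * R1))) := t8
      _ = K ^ (28 * (n + 1)) * M ^ 3 * (1 / (R0 ^ b * R1)) := by ring
  have hX1 : 1 ≤ R0 ^ 2 := one_le_pow₀ h0
  have hX0 : 0 < R0 ^ 2 := by positivity
  refine fin_step K (R0 ^ 2) hK hX n hn ?_
  rcases le_total (R0 ^ b / R1) (R1 / R0 ^ a) with hc | hc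
  · have q := key _ le_rfl hc
    have q1 : R0 ^ (3 * a + b) ≤ K ^ (28 * (n + 1)) * R1 ^ 2 := by
      have e : K ^ (28 * (n + 1)) * (R1 / R0 ^ a) ^ 3 * (1 / (R0 ^ b * R1)) =
          (K ^ (28 * (n + 1)) * R1 ^ 2) / R0 ^ (3 * a + b) := by
        rw [pow_add, pow_mul' R0 3 a, div_pow]
        field_simp
      rw [e, one_le_div (by positivity)] at q
      exact q
    have q2 : (R0 ^ 2) ^ (3 * n + 1) ≤ R0 ^ (3 * a + b) := by
      rw [← pow_mul]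
      exact pow_le_pow_right₀ h0 (by omega)
    have q3 : (R0 ^ 2) ^ (3 * n + 1) ≤ K ^ (28 * (n + 1)) * (R0 ^ 2) ^ (2 * n + 2) :=
      le_trans q2 (le_trans q1 (mul_le_mul_of_nonneg_left hhi (by positivity)))
    have q4 : (R0 ^ 2) ^ (n - 2) * (R0 ^ 2) ^ (2 * n + 2) ≤ (R0 ^ 2) ^ (3 * n + 1) := by
      rw [← pow_add]
      exact pow_le_pow_right₀ hX1 (by omega)
    exact le_of_mul_le_mul_right (le_trans q4 q3) (by positivity)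
  · have q := key _ hc le_rfl
    have q1 : R1 ^ 4 ≤ K ^ (28 * (n + 1)) * R0 ^ (2 * b) := by
      have e : K ^ (28 * (n + 1)) * (R0 ^ b / R1) ^ 3 * (1 / (R0 ^ b * R1)) =
          (K ^ (28 * (n + 1)) * R0 ^ (2 * b)) / R1 ^ 4 := by
        rw [pow_mul' R0 2 b, div_pow]
        field_simp
      rw [e, one_le_div (by positivity)] at q
      exact q
    have q2 : (R0 ^ 2) ^ (4 * n) ≤ R1 ^ 4 := by
      have s := pow_le_pow_left₀ (by positivity) hlo 2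
      rw [← pow_mul, ← pow_mul R1] at s
      have e : 2 * n * 2 = 4 * n := by ring
      rw [e] at s
      exact s
    have q3 : R0 ^ (2 * b) ≤ (R0 ^ 2) ^ (3 * n + 2) := by
      rw [← pow_mul]
      exact pow_le_pow_right₀ h0 (by omega)
    have q4 : (R0 ^ 2) ^ (n - 2) * (R0 ^ 2) ^ (3 * n + 2) ≤ K ^ (28 * (n + 1)) * (R0 ^ 2) ^ (3 * n + 2) := by
      have e : n - 2 + (3 * n + 2) = 4 * n := by omega
      rw [← pow_add, e]
      exact le_trans q2 (le_trans q1 (mul_le_mul_of_nonneg_left q3 (by positivity)))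
    exact le_of_mul_le_mul_right q4 (by positivity)

end Pool.Agent.Helper32.FM
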