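import Pool.Agent.Helper32.FM.DeltaNorm
import Pool.Agent.Helper32.FM.Window

set_option autoImplicit false

/-!
FM-P6 LargePair. Two large points of one strong class: `|a| x1 < (|a| x0)^6`.

PROOF. `X l = |a_d| x l = (R l)^2`, `R l = sa a * √(x l)`. Suppose `X0^6 ≤ X1`. `X0 ≥ 2`. There is `n` with `(X0^2)^n ≤ X1 < (X0^2)^(n+1)`
(`exists_nat_pow_near` or `Nat.log`), and `n ≥ 3`. Three different indices `i, j, k` (`3 ≤ d`). For `κ = 0` and `κ = 1`: if `Dl n κ .. ≠ 0`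
then `delta_norm` and `window` give a contradiction. So `Dl n 0 .. = 0` and `Dl n 1 .. = 0`, i.e. (unfold `Dl`; `n + 0 = n`)
`Tp n n n u v w * B - Tp n n n v w u * A = 0`, `Tp n (n+1) n u v w * B - Tp (n+1) n n v w u * A = 0`; `not_both` with `α = A`, `β = B`:
`u ≠ v` etc. because `e 0 i ≠ e 0 j` (squares differ), and `(A, B) ≠ (0,0)` because `e 1 i ≠ e 1 j`.
`K0 = 512 + 4 * (2^d * d!)`: `(12H)^(2 * 2^d d!) < (4H)^(4 * 2^d d!) ≤ (4H)^K0 ≤ x0 ≤ X0` (`12 H < (4H)^2` as `H ≥ 1`), `(4H)^512 ≤ X0`.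
-/

namespace Pool.Agent.Helper32.FM

theorem large_pair {d H : ℕ} (hd : 3 ≤ d) {a : Fin (d + 1) → ℤ} {θ : Fin d → ℂ} (hR : Roots H a θ)
    (x0 x1 : ℤ) (e0 e1 : Fin d → ℂ) (h0 : IsE θ x0 e0) (h1 : IsE θ x1 e1) (hs : SRel θ e0 e1)
    (hx : (4 * (H : ℤ)) ^ (512 + 4 * (2 ^ d * d.factorial)) ≤ x0) (h01 : x0 ≤ x1) :
    |a (Fin.last d)| * x1 < (|a (Fin.last d)| * x0) ^ 6 := by
  by_contra hcon
  push Not at hcon
  -- basic size facts
  have haz : (1 : ℤ) ≤ |a (Fin.last d)| := Int.one_le_abs hR.lead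
  have hHz : (1 : ℤ) ≤ (H : ℤ) := le_trans haz (hR.box _)
  have hH : 1 ≤ H := by exact_mod_cast hHz
  have h4z : (1 : ℤ) ≤ 4 * (H : ℤ) := by linarith
  have hM : 1 ≤ 2 ^ d * d.factorial := Nat.one_le_iff_ne_zero.mpr
    (Nat.mul_ne_zero (by positivity) (Nat.factorial_ne_zero d))
  have hx4 : 4 * (H : ℤ) ≤ x0 := by
    refine le_trans ?_ hx
    calc 4 * (H : ℤ) = (4 * (H : ℤ)) ^ 1 := (pow_one _).symm
      _ ≤ _ := pow_le_pow_right₀ h4z (by omega)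
  have hx0 : (1 : ℤ) ≤ x0 := le_trans h4z hx4
  have hx14 : 4 * (H : ℤ) ≤ x1 := le_trans hx4 h01
  have hx1 : (1 : ℤ) ≤ x1 := le_trans hx0 h01
  -- real versions
  set A : ℝ := |((a (Fin.last d) : ℤ) : ℝ)| with hA
  have hA1 : (1 : ℝ) ≤ A := by
    rw [hA]; exact_mod_cast haz
  have hA0 : (0 : ℝ) ≤ A := le_trans zero_le_one hA1
  have hHr : (1 : ℝ) ≤ (H : ℝ) := by exact_mod_cast hH
  have hx0r : (1 : ℝ) ≤ (x0 : ℝ) := by exact_mod_cast hx0
  have hx1r : (1 : ℝ) ≤ (x1 : ℝ) := by exact_mod_cast hx1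
  have hxr : (4 * (H : ℝ)) ^ (512 + 4 * (2 ^ d * d.factorial)) ≤ (x0 : ℝ) := by exact_mod_cast hx
  have hconr : (A * (x0 : ℝ)) ^ 6 ≤ A * (x1 : ℝ) := by
    rw [hA]; exact_mod_cast hcon
  have hsa0 : (0 : ℝ) < sa a := by
    unfold sa; exact Real.sqrt_pos.mpr (lt_of_lt_of_le one_pos hA1)
  have hsa2 : (sa a) ^ 2 = A := by
    unfold sa; exact Real.sq_sqrt hA0
  have h4r : (1 : ℝ) ≤ 4 * (H : ℝ) := by linarith
  have h4r4 : (4 : ℝ) ≤ 4 * (H : ℝ) := by linarith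
  set R0 : ℝ := sa a * Real.sqrt (x0 : ℝ) with hR0
  set R1 : ℝ := sa a * Real.sqrt (x1 : ℝ) with hR1
  have hR0sq : R0 ^ 2 = A * (x0 : ℝ) := by
    rw [hR0, mul_pow, hsa2, Real.sq_sqrt (by linarith)]
  have hR1sq : R1 ^ 2 = A * (x1 : ℝ) := by
    rw [hR1, mul_pow, hsa2, Real.sq_sqrt (by linarith)]
  have hR0p : 0 ≤ R0 := mul_nonneg hsa0.le (Real.sqrt_nonneg _)
  have hR1p : 0 ≤ R1 := mul_nonneg hsa0.le (Real.sqrt_nonneg _)
  have hX0 : (1 : ℝ) ≤ A * (x0 : ℝ) := one_le_mul_of_one_le_of_one_le hA1 hx0r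
  have hX1 : (1 : ℝ) ≤ A * (x1 : ℝ) := one_le_mul_of_one_le_of_one_le hA1 hx1r
  have hR01 : 1 ≤ R0 := by
    by_contra hlt
    push Not at hlt
    nlinarith
  have hR11 : 1 ≤ R1 := by
    by_contra hlt
    push Not at hlt
    nlinarith
  have hbig : (4 * (H : ℝ)) ^ 512 ≤ A * (x0 : ℝ) := by
    calc (4 * (H : ℝ)) ^ 512 ≤ (4 * (H : ℝ)) ^ (512 + 4 * (2 ^ d * d.factorial)) :=
          pow_le_pow_right₀ h4r (by omega)
      _ ≤ (x0 : ℝ) := hxr
      _ ≤ A * (x0 : ℝ) := by nlinarith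
  have hX : (12 * (H : ℝ)) ^ (2 * (2 ^ d * d.factorial)) < A * (x0 : ℝ) := by
    have e1 : (12 * (H : ℝ)) ^ (2 * (2 ^ d * d.factorial)) ≤
        ((4 * (H : ℝ)) ^ 2) ^ (2 * (2 ^ d * d.factorial)) := by
      refine pow_le_pow_left₀ (by positivity) ?_ _
      nlinarith
    have e2 : ((4 * (H : ℝ)) ^ 2) ^ (2 * (2 ^ d * d.factorial)) <
        (4 * (H : ℝ)) ^ (512 + 4 * (2 ^ d * d.factorial)) := by
      rw [← pow_mul]
      refine pow_lt_pow_right₀ (by linarith) ?_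
      omega
    calc _ ≤ _ := e1
      _ < _ := e2
      _ ≤ (x0 : ℝ) := hxr
      _ ≤ A * (x0 : ℝ) := by nlinarith
  have hX0g : (1 : ℝ) < A * (x0 : ℝ) := by
    refine lt_of_lt_of_le ?_ hbig
    exact one_lt_pow₀ (by linarith) (by norm_num)
  -- the power
  obtain ⟨n, hn1, hn2⟩ := exists_nat_pow_near hX1
    (y := (A * (x0 : ℝ)) ^ 2) (one_lt_pow₀ hX0g (by norm_num))
  have hn : 3 ≤ n := by
    by_contra hlt
    push Not at hlt
    have : A * (x1 : ℝ) < ((A * (x0 : ℝ)) ^ 2) ^ 3 :=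
      lt_of_lt_of_le hn2 (pow_le_pow_right₀ (one_le_pow₀ hX0) (by omega))
    rw [← pow_mul, show 2 * 3 = 6 from rfl] at this
    linarith
  -- three indices
  set i : Fin d := ⟨0, by omega⟩ with hi
  set j : Fin d := ⟨1, by omega⟩ with hj
  set k : Fin d := ⟨2, by omega⟩ with hk
  have hij : i ≠ j := by simp [hi, hj]
  have hjk : j ≠ k := by simp [hj, hk]
  have hik : i ≠ k := by simp [hi, hk]
  have hsc : ((sa a : ℝ) : ℂ) ≠ 0 := by exact_mod_cast hsa0.ne'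
  have hne : ∀ (x : ℤ) (e : Fin d → ℂ), IsE θ x e → ∀ s t : Fin d, s ≠ t → e s ≠ e t := by
    intro x e he s t hst heq
    have h2 := (he s).1
    have h3 := (he t).1
    rw [heq, h3] at h2
    exact hst (hR.inj (by linear_combination h2))
  have key : ∀ κ : ℕ, κ ≤ 1 → Dl n κ (-((sa a : ℂ) * e0 i)) (-((sa a : ℂ) * e0 j))
      (-((sa a : ℂ) * e0 k)) ((sa a : ℂ) * e1 i - (sa a : ℂ) * e1 j)
      ((sa a : ℂ) * e1 j - (sa a : ℂ) * e1 k) = 0 := by
    intro κ hκ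
    by_contra hD
    have hfin := delta_norm hR ![x0, x1] ![e0, e1]
      (by intro l; fin_cases l
          · exact h0
          · exact h1)
      (by simpa using hs)
      (by intro l; fin_cases l
          · exact hx4
          · exact hx14)
      (by intro l; fin_cases l
          · exact hx0
          · exact hx1)
      (by simpa using hX) i j k hij hjk hik n κ hκ (by simpa using hD) R0 R1
      (by simpa using hR0) (by simpa using hR1)
    exact window H hH n κ hn hκ R0 R1 hR01 hR11 (by rw [hR0sq]; exact hbig)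
      (by rw [hR0sq, hR1sq, pow_mul]; exact hn1)
      (by rw [hR0sq, hR1sq]
          calc A * (x1 : ℝ) ≤ ((A * (x0 : ℝ)) ^ 2) ^ (n + 1) := hn2.le
            _ = (A * (x0 : ℝ)) ^ (2 * n + 2) := by rw [← pow_mul]; ring_nf) hfin
  have k0 := key 0 (by norm_num)
  have k1 := key 1 le_rfl
  unfold Dl at k0 k1
  simp only [add_zero] at k0
  refine not_both n _ _ _ ?_ ?_ ?_ _ _ ?_ k0 k1
  · intro h
    exact hne x0 e0 h0 i j hij (mul_left_cancel₀ hsc (neg_injective h))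
  · intro h
    exact hne x0 e0 h0 j k hjk (mul_left_cancel₀ hsc (neg_injective h))
  · intro h
    exact hne x0 e0 h0 i k hik (mul_left_cancel₀ hsc (neg_injective h))
  · rintro ⟨h, -⟩
    exact hne x1 e1 h1 i j hij (mul_left_cancel₀ hsc (sub_eq_zero.mp h))

end Pool.Agent.Helper32.FM
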