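import Pool.Agent.Helper32.FM.Gap
import Pool.Agent.Helper32.FM.LargePair
import Pool.Agent.Helper32.FM.Classes

set_option autoImplicit false

/-!
FM-C2 ClassCard. A class has at most `N` points above the threshold.

PROOF of `strong_card`. `K ≥` the two constants of `growth`, `growth2` (Thr is monotone in `K`). Put `C0 = 512 + 4 * (2^d * d!) + 13 + K2`
(`K2` the constant of `growth2`), `X* = (4H)^C0` (so `X* ≥ K2 H^12`, since `4^K2 ≥ K2`; `H ≥ 1` as `0 < |a_d| ≤ H`).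
(1) points `< X*`: in increasing order `y_1 < y_2 < ... < y_k < X*`: by `growth` for consecutive triples `16 H y_(i+1)^4 ≤ y_(i+2)^4`, so
`y_k^4 ≥ (16H)^(k-2)` and `y_k^4 < (4H)^(4 C0) ≤ (16 H)^(4 C0)`: `k ≤ 4 C0 + 2`.
(2) points `≥ X*`: `z_1 < z_2 < .. < z_k`: `growth2`: `z_i z_(i+1)^2 ≤ z_(i+2)^2`, so `z_(i+2)^2 ≥ z_1 z_(i+1)^2`, hence
`z_k^2 ≥ z_1^(k-2) z_2^2 ≥ z_1^k`; `large_pair` for `z_1, z_k`: `|a| z_k < (|a| z_1)^6`, so `z_k < |a|^5 z_1^6 ≤ H^5 z_1^6 ≤ z_1^7`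
(`H ≤ z_1`... `H^5 ≤ z_1`), `z_1^k ≤ z_k^2 < z_1^14`: `k < 14`.
`N = 4 C0 + 16`. (Write the increasing enumeration with `Finset.orderEmbOfFin`, or induct on the cardinality.)
`class_card`: `colors`: at most `2^d` colours, each colour class has at most `N` elements (`Finset.card_le_mul_card_image`).
`transversal`: choose a maximal `T ⊆ S` with pairwise `¬ CRel`; every `x ∈ S` is related to some `t ∈ T` (maximality, `crel_symm`); the fibre of `t` is
pairwise related (`crel_trans` through `t`), so it has at most `2^d N` elements.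
-/

namespace Pool.Agent.Helper32.FM

private lemma one_le_H {d H : ℕ} {a : Fin (d + 1) → ℤ} {θ : Fin d → ℂ} (hR : Roots H a θ) :
    (1 : ℤ) ≤ |a (Fin.last d)| ∧ (1 : ℤ) ≤ (H : ℤ) := by
  have haz : (1 : ℤ) ≤ |a (Fin.last d)| := Int.one_le_abs hR.lead
  exact ⟨haz, le_trans haz (hR.box _)⟩

/-- the small points -/
private lemma small_card {C : ℕ} {H : ℤ} (hH : 1 ≤ H) (S : Finset ℤ) (h1 : ∀ x ∈ S, 1 ≤ x)
    (hX : ∀ x ∈ S, x < (4 * H) ^ C)
    (hg : ∀ x ∈ S, ∀ y ∈ S, ∀ z ∈ S, x < y → y < z → 16 * H * y ^ 4 ≤ z ^ 4) :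
    S.card ≤ 4 * C + 2 := by
  obtain ⟨k, hk⟩ : ∃ k, S.card = k := ⟨_, rfl⟩
  set f := S.orderEmbOfFin hk with hf
  have hmem : ∀ i, f i ∈ S := fun i => Finset.orderEmbOfFin_mem S hk i
  have key : ∀ j (hj : j + 1 < k), (16 * H) ^ j ≤ (f ⟨j + 1, hj⟩) ^ 4 := by
    intro j
    induction j with
    | zero =>
      intro hj
      have := h1 _ (hmem ⟨0 + 1, hj⟩)
      rw [pow_zero]
      exact one_le_pow₀ this
    | succ j ih =>
      intro hj
      have hj' : j + 1 < k := by omega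
      have h2 := hg _ (hmem ⟨j, by omega⟩) _ (hmem ⟨j + 1, hj'⟩) _ (hmem ⟨j + 1 + 1, hj⟩)
        (f.lt_iff_lt.2 (by simp)) (f.lt_iff_lt.2 (by simp))
      refine le_trans ?_ h2
      rw [pow_succ']
      exact mul_le_mul_of_nonneg_left (ih hj') (by positivity)
  rw [hk]
  by_contra hlt
  push Not at hlt
  have hj : (k - 2) + 1 < k := by omega
  have h3 := key (k - 2) hj
  have h4 := hX _ (hmem ⟨k - 2 + 1, hj⟩)
  have h5 := h1 _ (hmem ⟨k - 2 + 1, hj⟩)
  have h6 : (f ⟨k - 2 + 1, hj⟩) ^ 4 < ((4 * H) ^ C) ^ 4 :=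
    pow_lt_pow_left₀ h4 (by linarith) (by norm_num)
  have h7 : ((4 * H) ^ C) ^ 4 ≤ (16 * H) ^ (4 * C) := by
    rw [← pow_mul, mul_comm C 4]
    exact pow_le_pow_left₀ (by positivity) (by linarith) _
  have h8 : (16 * H) ^ (4 * C) ≤ (16 * H) ^ (k - 2) :=
    pow_le_pow_right₀ (by linarith) (by omega)
  linarith

/-- the large points -/
private lemma large_card {A H : ℤ} (hA : 1 ≤ A) (hAH : A ≤ H) (S : Finset ℤ)
    (h1 : ∀ x ∈ S, 2 ≤ x) (h5 : ∀ x ∈ S, H ^ 5 ≤ x)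
    (hg : ∀ x ∈ S, ∀ y ∈ S, ∀ z ∈ S, x < y → y < z → x * y ^ 2 ≤ z ^ 2)
    (hp : ∀ x ∈ S, ∀ y ∈ S, x ≤ y → A * y < (A * x) ^ 6) :
    S.card ≤ 13 := by
  obtain ⟨k, hk⟩ : ∃ k, S.card = k := ⟨_, rfl⟩
  set f := S.orderEmbOfFin hk with hf
  have hmem : ∀ i, f i ∈ S := fun i => Finset.orderEmbOfFin_mem S hk i
  rw [hk]
  by_contra hlt
  push Not at hlt
  have h0 : 0 < k := by omega
  set z := f ⟨0, h0⟩ with hz
  have hz2 : 2 ≤ z := h1 _ (hmem _)
  have key : ∀ j (hj : j + 1 < k), z ^ (j + 2) ≤ (f ⟨j + 1, hj⟩) ^ 2 := by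
    intro j
    induction j with
    | zero =>
      intro hj
      have h3 : z ≤ f ⟨0 + 1, hj⟩ := f.le_iff_le.2 (by simp)
      exact pow_le_pow_left₀ (by linarith) h3 2
    | succ j ih =>
      intro hj
      have hj' : j + 1 < k := by omega
      have h2 := hg _ (hmem ⟨j, by omega⟩) _ (hmem ⟨j + 1, hj'⟩) _ (hmem ⟨j + 1 + 1, hj⟩)
        (f.lt_iff_lt.2 (by simp)) (f.lt_iff_lt.2 (by simp))
      have h3 : z ≤ f ⟨j, by omega⟩ := f.le_iff_le.2 (by simp)
      calc z ^ (j + 1 + 2) = z * z ^ (j + 2) := by ring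
        _ ≤ f ⟨j, by omega⟩ * (f ⟨j + 1, hj'⟩) ^ 2 :=
          mul_le_mul h3 (ih hj') (by positivity) (by linarith)
        _ ≤ _ := h2
  have hj : (k - 2) + 1 < k := by omega
  have h3 := key (k - 2) hj
  set w := f ⟨k - 2 + 1, hj⟩ with hw
  have h4 : z ≤ w := f.le_iff_le.2 (by simp)
  have h6 := hp _ (hmem _) _ (hmem _) h4
  have h7 : w < A ^ 5 * z ^ 6 := by
    have : A * w < A * (A ^ 5 * z ^ 6) := by
      calc A * w < (A * z) ^ 6 := h6
        _ = A * (A ^ 5 * z ^ 6) := by ring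
    exact lt_of_mul_lt_mul_left this (by linarith)
  have h8 : A ^ 5 * z ^ 6 ≤ z * z ^ 6 :=
    mul_le_mul_of_nonneg_right (le_trans (pow_le_pow_left₀ (by linarith) hAH 5)
      (h5 _ (hmem _))) (by positivity)
  have h9 : w ^ 2 < (z * z ^ 6) ^ 2 :=
    pow_lt_pow_left₀ (lt_of_lt_of_le h7 h8) (by linarith) (by norm_num)
  have h10 : (z * z ^ 6) ^ 2 = z ^ 14 := by ring
  have h11 : z ^ 14 ≤ z ^ (k - 2 + 2) := pow_le_pow_right₀ (by linarith) (by omega)
  linarith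

theorem strong_card (d : ℕ) (hd : 3 ≤ d) : ∃ K N : ℕ, 1 ≤ K ∧ ∀ (H : ℕ) (a : Fin (d + 1) → ℤ)
    (θ : Fin d → ℂ), Roots H a θ → ∀ (e : ℤ → Fin d → ℂ), (∀ x, IsE θ x (e x)) →
    ∀ S : Finset ℤ, (∀ x ∈ S, Thr K H a x) → (∀ x ∈ S, ∀ y ∈ S, SRel θ (e x) (e y)) →
    S.card ≤ N := by
  obtain ⟨K1, hK1, g1⟩ := growth d hd
  obtain ⟨K2, hK2, g2⟩ := growth2 d hd
  set C0 : ℕ := 512 + 4 * (2 ^ d * d.factorial) + (13 + K2) with hC0
  refine ⟨K1, 4 * C0 + 2 + 13, hK1, ?_⟩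
  intro H a θ hR e he S hT hS
  obtain ⟨hA, hH⟩ := one_le_H hR
  have h4 : (1 : ℤ) ≤ 4 * (H : ℤ) := by linarith
  have htri : ∀ x ∈ S, ∀ y ∈ S, ∀ z ∈ S, ∀ l, (![x, y, z] : Fin 3 → ℤ) l ∈ S := by
    intro x hx y hy z hz l
    fin_cases l
    · exact hx
    · exact hy
    · exact hz
  have hsum : S.card = (S.filter (· < (4 * (H : ℤ)) ^ C0)).card +
      (S.filter (fun x => ¬ x < (4 * (H : ℤ)) ^ C0)).card :=
    (Finset.card_filter_add_card_filter_not _).symm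
  rw [hsum]
  refine add_le_add ?_ ?_
  · refine small_card hH _ ?_ ?_ ?_
    · intro x hx
      exact (hT x (Finset.mem_filter.1 hx).1).2.1
    · intro x hx
      exact (Finset.mem_filter.1 hx).2
    · intro x hx y hy z hz hxy hyz
      have hx' := (Finset.mem_filter.1 hx).1
      have hy' := (Finset.mem_filter.1 hy).1
      have hz' := (Finset.mem_filter.1 hz).1
      have := g1 H a θ hR ![x, y, z] (hT x hx') hxy hyz (fun l => e (![x, y, z] l))
        (fun l => he _) (fun l l' => hS _ (htri x hx' y hy' z hz' l) _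
          (htri x hx' y hy' z hz' l'))
      simpa using this
  · have hbase : ∀ x ∈ S.filter (fun x => ¬ x < (4 * (H : ℤ)) ^ C0),
        (4 * (H : ℤ)) ^ C0 ≤ x := fun x hx => not_lt.1 (Finset.mem_filter.1 hx).2
    refine large_card hA (hR.box _) _ ?_ ?_ ?_ ?_
    · intro x hx
      refine le_trans ?_ (hbase x hx)
      calc (2 : ℤ) ≤ (4 * (H : ℤ)) ^ 1 := by linarith
        _ ≤ _ := pow_le_pow_right₀ h4 (by omega)
    · intro x hx
      refine le_trans ?_ (hbase x hx)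
      calc (H : ℤ) ^ 5 ≤ (4 * (H : ℤ)) ^ 5 := pow_le_pow_left₀ (by linarith) (by linarith) 5
        _ ≤ _ := pow_le_pow_right₀ h4 (by omega)
    · intro x hx y hy z hz hxy hyz
      have hx' := (Finset.mem_filter.1 hx).1
      have hy' := (Finset.mem_filter.1 hy).1
      have hz' := (Finset.mem_filter.1 hz).1
      have hK : (K2 : ℤ) * (H : ℤ) ^ 12 ≤ x := by
        refine le_trans ?_ (hbase x hx)
        have e1 : (K2 : ℤ) ≤ (4 * (H : ℤ)) ^ K2 := by
          calc (K2 : ℤ) ≤ (2 : ℤ) ^ K2 := by exact_mod_cast (Nat.lt_two_pow_self).le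
            _ ≤ _ := pow_le_pow_left₀ (by norm_num) (by linarith) _
        have e2 : (H : ℤ) ^ 12 ≤ (4 * (H : ℤ)) ^ 12 :=
          pow_le_pow_left₀ (by linarith) (by linarith) 12
        calc (K2 : ℤ) * (H : ℤ) ^ 12 ≤ (4 * (H : ℤ)) ^ K2 * (4 * (H : ℤ)) ^ 12 :=
              mul_le_mul e1 e2 (by positivity) (by positivity)
          _ = (4 * (H : ℤ)) ^ (K2 + 12) := by rw [pow_add]
          _ ≤ _ := pow_le_pow_right₀ h4 (by omega)
      have := g2 H a θ hR ![x, y, z] (by simpa using hK) hxy hyz (fun l => e (![x, y, z] l))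
        (fun l => he _) (fun l l' => hS _ (htri x hx' y hy' z hz' l) _
          (htri x hx' y hy' z hz' l'))
      simpa using this
    · intro x hx y hy hxy
      have hx' := (Finset.mem_filter.1 hx).1
      have hy' := (Finset.mem_filter.1 hy).1
      refine large_pair hd hR x y (e x) (e y) (he x) (he y) (hS x hx' y hy') ?_ hxy
      exact le_trans (pow_le_pow_right₀ h4 (by omega)) (hbase x hx)

theorem class_card (d : ℕ) (hd : 3 ≤ d) : ∃ K N : ℕ, 1 ≤ K ∧ ∀ (H : ℕ) (a : Fin (d + 1) → ℤ)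
    (θ : Fin d → ℂ), Roots H a θ → ∀ S : Finset ℤ, (∀ x ∈ S, Thr K H a x) →
    (∀ x ∈ S, ∀ y ∈ S, CRel θ x y) → S.card ≤ N := by
  obtain ⟨K, N, hK, h⟩ := strong_card d hd
  refine ⟨K, N * 2 ^ d, hK, ?_⟩
  intro H a θ hR S hT hC
  choose e he using exists_ise θ
  obtain ⟨c, hc⟩ := colors hR (S : Set ℤ) (fun x hx => ⟨(hT x hx).1, (hT x hx).2.1⟩)
    (fun x hx y hy => hC x hx y hy) e he
  have h1 : S.card ≤ N * (S.image c).card := by
    refine Finset.card_le_mul_card_image S N ?_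
    intro b _
    refine h H a θ hR e he _ ?_ ?_
    · intro x hx
      exact hT x (Finset.mem_filter.1 hx).1
    · intro x hx y hy
      obtain ⟨hx1, hx2⟩ := Finset.mem_filter.1 hx
      obtain ⟨hy1, hy2⟩ := Finset.mem_filter.1 hy
      exact hc x hx1 y hy1 (hx2.trans hy2.symm)
  refine le_trans h1 (Nat.mul_le_mul_left N ?_)
  calc (S.image c).card ≤ (Finset.univ : Finset (Fin d → Bool)).card :=
        Finset.card_le_card (Finset.subset_univ _)
    _ = 2 ^ d := by simp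

theorem transversal (d : ℕ) (hd : 3 ≤ d) : ∃ K N : ℕ, 1 ≤ K ∧ ∀ (H : ℕ) (a : Fin (d + 1) → ℤ)
    (θ : Fin d → ℂ), Roots H a θ → ∀ S : Finset ℤ, (∀ x ∈ S, Thr K H a x) →
    ∃ T ⊆ S, (∀ x ∈ T, ∀ y ∈ T, CRel θ x y → x = y) ∧ S.card ≤ N * T.card := by
  classical
  obtain ⟨K, N, hK, h⟩ := class_card d hd
  refine ⟨K, N, hK, ?_⟩
  intro H a θ hR S hT
  obtain ⟨P, hP⟩ : ∃ P : Finset ℤ → Prop, P = fun T => ∀ x ∈ T, ∀ y ∈ T, CRel θ x y → x = y :=
    ⟨_, rfl⟩
  obtain ⟨T, hTm, hmax⟩ := Finset.exists_max_image (S.powerset.filter P) Finset.card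
    ⟨∅, Finset.mem_filter.2 ⟨Finset.empty_mem_powerset S, by simp [hP]⟩⟩
  obtain ⟨hTS, hTP⟩ := Finset.mem_filter.1 hTm
  rw [Finset.mem_powerset] at hTS
  rw [hP] at hTP
  refine ⟨T, hTS, hTP, ?_⟩
  have hcov : ∀ x ∈ S, ∃ t ∈ T, CRel θ x t := by
    intro x hx
    by_contra hno
    push Not at hno
    have hxT : x ∉ T := fun hxT => hno x hxT (crel_refl θ x)
    have h1 := hmax (insert x T) (Finset.mem_filter.2
      ⟨Finset.mem_powerset.2 (Finset.insert_subset hx hTS), by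
        rw [hP]
        intro u hu v hv huv
        rcases Finset.mem_insert.1 hu with rfl | hu'
        · rcases Finset.mem_insert.1 hv with rfl | hv'
          · rfl
          · exact absurd huv (hno v hv')
        · rcases Finset.mem_insert.1 hv with rfl | hv'
          · exact absurd (crel_symm huv) (hno u hu')
          · exact hTP u hu' v hv' huv⟩)
    rw [Finset.card_insert_of_notMem hxT] at h1
    omega
  choose! g hg using hcov
  have h1 : S.card ≤ N * (S.image g).card := by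
    refine Finset.card_le_mul_card_image S N ?_
    intro t _
    refine h H a θ hR _ ?_ ?_
    · intro x hx
      exact hT x (Finset.mem_filter.1 hx).1
    · intro x hx y hy
      obtain ⟨hx1, hx2⟩ := Finset.mem_filter.1 hx
      obtain ⟨hy1, hy2⟩ := Finset.mem_filter.1 hy
      obtain ⟨ht1, hxt⟩ := hg x hx1
      obtain ⟨ht2, hyt⟩ := hg y hy1
      rw [hx2] at hxt ht1
      rw [hy2] at hyt
      have ht := hT t (hTS ht1)
      exact crel_trans hR ht.1 ht.2.1 hxt (crel_symm hyt)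
  refine le_trans h1 (Nat.mul_le_mul_left N (Finset.card_le_card ?_))
  intro t ht
  obtain ⟨x, hx, rfl⟩ := Finset.mem_image.1 ht
  exact (hg x hx).1

end Pool.Agent.Helper32.FM
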