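import Pool.Agent.Helper32.DZ.PenLem
import Pool.Agent.Helper32.FM.Classes

set_option autoImplicit false

/-!
FM-E6 Corner. Equivalent pencils of points: the points are in the same class.

`PtOf θ c k x P R`: with `M t = adj (θ t P - R)` (complex matrix): `y^t (M t) y = c (x - θ t)^k` for one rational vector `y` and all `t`.

PROOF of `crel_of_equiv`. `M t = adj (θ t P - R)` is symmetric of rank one: `det (θ t P - R) = 0`, so all `2 x 2` minors of the adjugate vanish
(Jacobi; in Helper32/DZ/Jac.lean `jac` for integral matrices: `det ∣ adj i j * adj l l - adj i l * adj l j`; the same proof gives over any commutative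
ring `adj i j * adj k l - adj i l * adj k j = det * (..)`; copy it, or: if the rank of `Q = θ t P - R` is `≤ N - 2` then `adj Q = 0`; if the kernel of `Q`
is a line `ℂ v` then the columns of `adj Q` are multiples of `v` and, by symmetry, `adj Q = λ v v^t`). So for vectors `y, z`:
`(y^t M y)(z^t M z) = (y^t M z)^2`. Let `h = adj g`, `M' t = adj (θ t P' - R') = adj (g^t (θ t P - R) g) = h M h^t`
(`Matrix.adjugate_mul_distrib`). With `y'` from `h'` and `z = h^t y'`: `y'^t M' y' = z^t M z`. So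
`c (x - θ)^k * c (x' - θ)^k = (y^t M z)^2`, and `y^t (M t) z = q0(θ t)`, `q0 = ∑_(i,j) y_i z_j adj(X P - R)_(i,j) ∈ ℚ[X]` (`adjugate` commutes with the ring
map evaluation at `θ t`: `RingHom.map_adjugate`). `k = 2 r + 1`, `D = (x - θ)(x' - θ)`: `c^2 D^(2r+1) = q0(θ)^2`, so `D = (q0(θ)/(c D^r))^2`, and
`1/D` is the value of a rational polynomial at the `θ t` (inverse of `x - X` modulo `f`, see the header of Classes.lean: prove `exists_inv`
there or here).
-/

open Polynomial Matrix Pool.Agent.Helper32.DZ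

namespace Pool.Agent.Helper32.FM

/-- see the header -/
def PtOf {N n : ℕ} (θ : Fin n → ℂ) (c : ℚ) (k : ℕ) (x : ℤ) (P R : Matrix (Fin N) (Fin N) ℤ) :
    Prop :=
  ∃ y : Fin N → ℚ, ∀ t, ∑ i, ∑ j, (y i : ℂ) * (y j : ℂ) *
    (θ t • P.map (Int.cast : ℤ → ℂ) - R.map (Int.cast : ℤ → ℂ)).adjugate i j =
      (c : ℂ) * ((x : ℂ) - θ t) ^ k

theorem crel_of_equiv {d N H : ℕ} {a : Fin (d + 1) → ℤ} {θ : Fin d → ℂ} (hR : Roots H a θ)
    (P R P' R' g : Matrix (Fin N) (Fin N) ℤ) (hP : P.IsSymm) (hRs : R.IsSymm)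
    (hdet : ∀ t, (θ t • P.map (Int.cast : ℤ → ℂ) - R.map (Int.cast : ℤ → ℂ)).det = 0)
    (e1 : P' = gᵀ * P * g) (e2 : R' = gᵀ * R * g) (c : ℚ) (hc : c ≠ 0) (k : ℕ) (hk : Odd k)
    (x x' : ℤ) (hx : 4 * (H : ℤ) ≤ x) (hx1 : 1 ≤ x) (hx' : 4 * (H : ℤ) ≤ x') (hx1' : 1 ≤ x')
    (h : PtOf θ c k x P R) (h' : PtOf θ c k x' P' R') : CRel θ x x' := by
  sorry

end Pool.Agent.Helper32.FM
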