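import Pool.Agent.Helper32.FM.Triangle

set_option autoImplicit false

/-!
FM-P3 NotBoth. The two Padé determinants do not vanish together.

PROOF. `φ = (X-u)(X-v)(X-w)`. Antiderivatives `F0' = φ^n`, `F1' = (X-v) φ^n` (`exists_anti`), normalised by
`F0(v) = F1(v) = 0` (subtract a constant). By `tp_eq` (`Np ≠ 0`): `T12 = -N F_i(u)`, `T23 = N F_i(w)` (note the orders of the
factors of `hF`, and `Np n (n+1) n = Np (n+1) n n`), so `h0`, `h1` say `β F_i(u) + α F_i(w) = 0` for `i = 0, 1`: the `2 x 2`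
matrix with rows `(F0(u), F1(u))`, `(F0(w), F1(w))` has a left kernel vector `(β, α) ≠ 0`, so its determinant is zero and there is
`(μ, ν) ≠ 0` with `μ F0 + ν F1` zero at `u` and `w` (explicitly: if the first row is not zero take `(μ,ν) = (F1(u), -F0(u))`,
else if the second row is not zero take it from the second row, else `(1,0)`). `F = μ F0 + ν F1` is zero at `u, v, w` and
`F' = (C μ + C ν (X - v)) φ^n`. If `F ≠ 0`: the multiplicity of each of `u, v, w` in `F` is at least `n + 1`
(`Polynomial.derivative_rootMultiplicity_of_root`, char 0; `F' ≠ 0` then, or divisibility: `(X - C u)^n ∣ F'` and `F(u) = 0`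
give `(X - C u)^(n+1) ∣ F`), the three powers are pairwise coprime, so `φ^(n+1) ∣ F`, degree `3 n + 3`, but
`deg F ≤ 3 n + 2`. So `F = 0`, `F' = 0`, `C μ + C ν (X - C v) = 0`, `μ = ν = 0`: contradiction.
-/

open Polynomial

namespace Pool.Agent.Helper32.FM

private lemma nb_np (p q r : ℕ) : ((Np p q r : ℝ) : ℂ) ≠ 0 := by
  unfold Np
  have h1 : (0 : ℝ) < ((p + q + r + 1).factorial : ℝ) := by exact_mod_cast Nat.factorial_pos _
  have h2 : (0 : ℝ) < (p.factorial : ℝ) := by exact_mod_cast Nat.factorial_pos _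
  have h3 : (0 : ℝ) < (q.factorial : ℝ) := by exact_mod_cast Nat.factorial_pos _
  have h4 : (0 : ℝ) < (r.factorial : ℝ) := by exact_mod_cast Nat.factorial_pos _
  have h5 := div_pos h1 (mul_pos (mul_pos h2 h3) h4)
  exact_mod_cast h5.ne'

private lemma nb_np_comm (n : ℕ) : Np (n + 1) n n = Np n (n + 1) n := by
  unfold Np
  rw [show n + 1 + n + n + 1 = n + (n + 1) + n + 1 by ring,
    mul_comm ((n + 1).factorial : ℝ) (n.factorial : ℝ)]

/-- an antiderivative with a prescribed zero -/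
private lemma nb_anti (P : ℂ[X]) (v : ℂ) :
    ∃ F : ℂ[X], derivative F = P ∧ F.natDegree ≤ P.natDegree + 1 ∧ F.eval v = 0 := by
  obtain ⟨G, h1, h2⟩ := exists_anti P
  refine ⟨G - C (G.eval v), ?_, ?_, ?_⟩
  · rw [derivative_sub, derivative_C, sub_zero, h1]
  · rw [natDegree_sub_C]
    exact h2
  · rw [eval_sub, eval_C, sub_self]

private lemma nb_pow_dvd {F : ℂ[X]} (hF : F ≠ 0) {u : ℂ} (hu : F.eval u = 0) {n : ℕ}
    (h : (X - C u) ^ n ∣ derivative F) : (X - C u) ^ (n + 1) ∣ F := by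
  have hroot : F.IsRoot u := hu
  have hF' : derivative F ≠ 0 := by
    intro h0
    have h1 := derivative_eq_zero.1 h0
    rw [natDegree_eq_zero] at h1
    obtain ⟨c, rfl⟩ := h1
    rw [eval_C] at hu
    apply hF
    rw [hu, C_0]
  have h1 : n ≤ rootMultiplicity u (derivative F) := (le_rootMultiplicity_iff hF').2 h
  rw [derivative_rootMultiplicity_of_root hroot] at h1
  have h2 : 0 < rootMultiplicity u F := (rootMultiplicity_pos hF).2 hroot
  exact (le_rootMultiplicity_iff hF).1 (by omega)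

private lemma nb_coprime {u v : ℂ} (h : u ≠ v) (a b : ℕ) :
    IsCoprime ((X - C u) ^ a : ℂ[X]) ((X - C v) ^ b) := by
  apply IsCoprime.pow
  apply isCoprime_X_sub_C_of_isUnit_sub
  exact (sub_ne_zero.2 h).isUnit

private lemma nb_deg (a b c : ℕ) (u v w : ℂ) :
    ((X - C u) ^ a * (X - C v) ^ b * (X - C w) ^ c : ℂ[X]).natDegree = a + b + c := by
  rw [natDegree_mul (mul_ne_zero (pow_ne_zero _ (X_sub_C_ne_zero u))
    (pow_ne_zero _ (X_sub_C_ne_zero v))) (pow_ne_zero _ (X_sub_C_ne_zero w)),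
    natDegree_mul (pow_ne_zero _ (X_sub_C_ne_zero u)) (pow_ne_zero _ (X_sub_C_ne_zero v)),
    natDegree_pow, natDegree_pow, natDegree_pow, natDegree_X_sub_C, natDegree_X_sub_C,
    natDegree_X_sub_C, mul_one, mul_one, mul_one]

theorem not_both (n : ℕ) (u v w : ℂ) (huv : u ≠ v) (hvw : v ≠ w) (huw : u ≠ w) (α β : ℂ)
    (h : ¬ (α = 0 ∧ β = 0))
    (h0 : Tp n n n u v w * β - Tp n n n v w u * α = 0)
    (h1 : Tp n (n + 1) n u v w * β - Tp (n + 1) n n v w u * α = 0) : False := by
  obtain ⟨F0, hF0, hd0, hv0⟩ := nb_anti ((X - C u) ^ n * (X - C v) ^ n * (X - C w) ^ n) v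
  obtain ⟨F1, hF1, hd1, hv1⟩ := nb_anti ((X - C u) ^ n * (X - C v) ^ (n + 1) * (X - C w) ^ n) v
  rw [nb_deg] at hd0 hd1
  have e0 : β * F0.eval u + α * F0.eval w = 0 := by
    rw [tp_eq n n n u v w F0 hF0, tp_eq n n n v w u F0 (by rw [hF0]; ring), hv0] at h0
    have hN := nb_np n n n
    apply mul_left_cancel₀ hN
    linear_combination -h0
  have e1 : β * F1.eval u + α * F1.eval w = 0 := by
    rw [tp_eq n (n + 1) n u v w F1 hF1, tp_eq (n + 1) n n v w u F1 (by rw [hF1]; ring), hv1,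
      nb_np_comm] at h1
    have hN := nb_np n (n + 1) n
    apply mul_left_cancel₀ hN
    linear_combination -h1
  have hdet : F0.eval u * F1.eval w - F1.eval u * F0.eval w = 0 := by
    by_contra hD
    apply h
    constructor
    · apply (mul_eq_zero.1 _).resolve_right hD
      linear_combination F0.eval u * e1 - F1.eval u * e0
    · apply (mul_eq_zero.1 _).resolve_right hD
      linear_combination F1.eval w * e0 - F0.eval w * e1
  obtain ⟨μ, ν, hμν, hu, hw⟩ : ∃ μ ν : ℂ, ¬ (μ = 0 ∧ ν = 0) ∧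
      μ * F0.eval u + ν * F1.eval u = 0 ∧ μ * F0.eval w + ν * F1.eval w = 0 := by
    by_cases h2 : F1.eval u = 0 ∧ -F0.eval u = 0
    · by_cases h3 : F1.eval w = 0 ∧ -F0.eval w = 0
      · refine ⟨1, 0, by simp, ?_, ?_⟩
        · rw [neg_eq_zero.1 h2.2]
          ring
        · rw [neg_eq_zero.1 h3.2]
          ring
      · refine ⟨F1.eval w, -F0.eval w, h3, ?_, by ring⟩
        rw [neg_eq_zero.1 h2.2, h2.1]
        ring
    · refine ⟨F1.eval u, -F0.eval u, h2, by ring, ?_⟩
      linear_combination -hdet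
  set F : ℂ[X] := C μ * F0 + C ν * F1 with hFdef
  have hder : derivative F = (C μ + C ν * (X - C v)) *
      ((X - C u) ^ n * (X - C v) ^ n * (X - C w) ^ n) := by
    rw [hFdef, derivative_add, derivative_C_mul, derivative_C_mul, hF0, hF1]
    ring
  have hFu : F.eval u = 0 := by
    rw [hFdef, eval_add, eval_mul, eval_mul, eval_C, eval_C]
    exact hu
  have hFw : F.eval w = 0 := by
    rw [hFdef, eval_add, eval_mul, eval_mul, eval_C, eval_C]
    exact hw
  have hFv : F.eval v = 0 := by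
    rw [hFdef, eval_add, eval_mul, eval_mul, eval_C, eval_C, hv0, hv1]
    ring
  by_cases hF : F = 0
  · rw [hF, derivative_zero] at hder
    have hne : ((X - C u) ^ n * (X - C v) ^ n * (X - C w) ^ n : ℂ[X]) ≠ 0 :=
      mul_ne_zero (mul_ne_zero (pow_ne_zero _ (X_sub_C_ne_zero u))
        (pow_ne_zero _ (X_sub_C_ne_zero v))) (pow_ne_zero _ (X_sub_C_ne_zero w))
    have h4 := (mul_eq_zero.1 hder.symm).resolve_right hne
    have h5 := congrArg (eval v) h4
    have h6 := congrArg (eval (v + 1)) h4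
    simp only [eval_add, eval_mul, eval_sub, eval_X, eval_C, eval_zero, sub_self, mul_zero,
      add_zero] at h5
    simp only [eval_add, eval_mul, eval_sub, eval_X, eval_C, eval_zero] at h6
    rw [h5] at h6
    exact hμν ⟨h5, by linear_combination h6⟩
  · have d1 : (X - C u) ^ (n + 1) ∣ F := nb_pow_dvd hF hFu (by
      rw [hder]
      exact Dvd.intro ((C μ + C ν * (X - C v)) * ((X - C v) ^ n * (X - C w) ^ n)) (by ring))
    have d2 : (X - C v) ^ (n + 1) ∣ F := nb_pow_dvd hF hFv (by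
      rw [hder]
      exact Dvd.intro ((C μ + C ν * (X - C v)) * ((X - C u) ^ n * (X - C w) ^ n)) (by ring))
    have d3 : (X - C w) ^ (n + 1) ∣ F := nb_pow_dvd hF hFw (by
      rw [hder]
      exact Dvd.intro ((C μ + C ν * (X - C v)) * ((X - C u) ^ n * (X - C v) ^ n)) (by ring))
    have d4 := IsCoprime.mul_dvd (nb_coprime huv (n + 1) (n + 1)) d1 d2
    have d5 := IsCoprime.mul_dvd (IsCoprime.mul_left (nb_coprime huw (n + 1) (n + 1))
      (nb_coprime hvw (n + 1) (n + 1))) d4 d3
    have d6 := natDegree_le_of_dvd d5 hF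
    rw [nb_deg] at d6
    have d7 : F.natDegree ≤ n + (n + 1) + n + 1 := by
      refine (natDegree_add_le _ _).trans (max_le ?_ ?_)
      · exact (natDegree_C_mul_le _ _).trans (by omega)
      · exact (natDegree_C_mul_le _ _).trans hd1
    omega

end Pool.Agent.Helper32.FM
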