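import Pool.Agent.Helper32.FM.Triangle
import Pool.Agent.Helper32.FM.NotBoth

set_option autoImplicit false

/-!
FM-P6a Delta. The determinant of two points: definition and sizes (pure complex numbers).

`Dl n k u v w A B = T12 * B - T23 * A`, `T12 = Tp n (n+k) n u v w`, `T23 = Tp (n+k) n n v w u` (`k = 0, 1`), `u, v, w` from the first point,
`A, B, C` (`C = -(A+B)`) the differences of the second point.

PROOF of the sizes. `T31 = Tp n n (n+k) w u v`, `T12 + T23 + T31 = 0` (`tp_cycle`), `A + B + C = 0`, so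
`Dl = T23 C - T31 B = T31 A - T12 C`. `N = Np n (n+k) n` (`Np` is symmetric). `tp_bound`:
`‖T12‖ ≤ N ‖v-u‖^(2n+1+k) (max)^n`, `‖T23‖ ≤ N ‖w-v‖^(2n+1+k) max^n`, `‖T31‖ ≤ N ‖u-w‖^(2n+1) max^(n+k)`. All differences are `≤ L1`
(first point) resp. `≤ L2` (second point), `0 < s1 ≤ L1`.
 case `v - u` small (`‖v-u‖ ≤ s1`, `‖A‖ ≤ s2`): `‖T12 B‖ ≤ N s1^(2n+1+k) L1^n L2 ≤ N s1^(2n+1) L1^(n+k) L2`, `‖T23 A‖ ≤ N L1^(3n+1+k) s2`.
 case `w - v` small (`‖w-v‖ ≤ s1`, `‖B‖ ≤ s2`): the same with the roles exchanged.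
 case `u - w` small (`‖u-w‖ ≤ s1`, `‖C‖ ≤ s2`): `Dl = T31 A - T12 C`, `‖T31 A‖ ≤ N s1^(2n+1) L1^(n+k) L2`, `‖T12 C‖ ≤ N L1^(3n+1+k) s2`.
 case all small: `‖Dl‖ ≤ 2 N s1^(3n+1+k) s2`.
-/

namespace Pool.Agent.Helper32.FM

/-- the determinant -/
def Dl {R : Type*} [CommRing R] (n k : ℕ) (u v w A B : R) : R :=
  Tp n (n + k) n u v w * B - Tp (n + k) n n v w u * A

private theorem np_nonneg (p q r : ℕ) : 0 ≤ Np p q r := by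
  unfold Np
  positivity

private theorem np_symm1 (p q r : ℕ) : Np q r p = Np p q r := by
  unfold Np
  rw [show q + r + p + 1 = p + q + r + 1 by ring]
  congr 1
  ring

/-- the sizes of the three integrals -/
private theorem t12 (n k : ℕ) (u v w : ℂ) (M s : ℝ) (hs : 0 ≤ s) (h0 : ‖v - u‖ ≤ s) (h1 : ‖w - v‖ ≤ M)
    (h2 : ‖u - w‖ ≤ M) :
    ‖Tp n (n + k) n u v w‖ ≤ Np n (n + k) n * (s ^ (2 * n + 1 + k) * M ^ n) := by
  have h3 : ‖v - w‖ ≤ M := by rw [norm_sub_rev]; exact h1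
  have hM : 0 ≤ M := (norm_nonneg _).trans h2
  refine (tp_bound n (n + k) n u v w M h2 h3).trans ?_
  rw [mul_assoc, show n + (n + k) + 1 = 2 * n + 1 + k by ring]
  exact mul_le_mul_of_nonneg_left (mul_le_mul_of_nonneg_right
    (pow_le_pow_left₀ (norm_nonneg _) h0 _) (pow_nonneg hM _)) (np_nonneg _ _ _)

private theorem t23 (n k : ℕ) (u v w : ℂ) (M s : ℝ) (hs : 0 ≤ s) (h0 : ‖w - v‖ ≤ s) (h1 : ‖v - u‖ ≤ M)
    (h2 : ‖u - w‖ ≤ M) :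
    ‖Tp (n + k) n n v w u‖ ≤ Np n (n + k) n * (s ^ (2 * n + 1 + k) * M ^ n) := by
  have h3 : ‖w - u‖ ≤ M := by rw [norm_sub_rev]; exact h2
  have hM : 0 ≤ M := (norm_nonneg _).trans h2
  refine (tp_bound (n + k) n n v w u M h1 h3).trans ?_
  rw [np_symm1 n (n + k) n, mul_assoc, show n + k + n + 1 = 2 * n + 1 + k by ring]
  exact mul_le_mul_of_nonneg_left (mul_le_mul_of_nonneg_right
    (pow_le_pow_left₀ (norm_nonneg _) h0 _) (pow_nonneg hM _)) (np_nonneg _ _ _)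

private theorem t31 (n k : ℕ) (u v w : ℂ) (M s : ℝ) (hs : 0 ≤ s) (h0 : ‖u - w‖ ≤ s) (h1 : ‖v - u‖ ≤ M)
    (h2 : ‖w - v‖ ≤ M) :
    ‖Tp n n (n + k) w u v‖ ≤ Np n (n + k) n * (s ^ (2 * n + 1) * M ^ (n + k)) := by
  have h3 : ‖u - v‖ ≤ M := by rw [norm_sub_rev]; exact h1
  have hM : 0 ≤ M := (norm_nonneg _).trans h2
  refine (tp_bound n n (n + k) w u v M h2 h3).trans ?_
  rw [← np_symm1 n (n + k) n, ← np_symm1 (n + k) n n, mul_assoc, show n + n + 1 = 2 * n + 1 by ring]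
  exact mul_le_mul_of_nonneg_left (mul_le_mul_of_nonneg_right
    (pow_le_pow_left₀ (norm_nonneg _) h0 _) (pow_nonneg hM _)) (np_nonneg _ _ _)

private theorem mul_le (x y : ℂ) (N a L b : ℝ) (hN : 0 ≤ N) (ha : 0 ≤ a) (hx : ‖x‖ ≤ N * a)
    (hy : ‖y‖ ≤ L) (hb : a * L ≤ b) : ‖x * y‖ ≤ N * b := by
  rw [norm_mul]
  calc ‖x‖ * ‖y‖ ≤ (N * a) * L := mul_le_mul hx hy (norm_nonneg _) (mul_nonneg hN ha)
    _ = N * (a * L) := by ring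
    _ ≤ N * b := mul_le_mul_of_nonneg_left hb hN

theorem dl_one (n k : ℕ) (hk : k ≤ 1) (u v w A B : ℂ) (L1 L2 s1 s2 : ℝ) (hs : 0 < s1) (hsL : s1 ≤ L1)
    (hL2 : 0 ≤ L2) (hs2 : 0 ≤ s2)
    (h1 : ‖v - u‖ ≤ L1) (h2 : ‖w - v‖ ≤ L1) (h3 : ‖u - w‖ ≤ L1) (h4 : ‖A‖ ≤ L2) (h5 : ‖B‖ ≤ L2)
    (h6 : ‖A + B‖ ≤ L2)
    (h : (‖v - u‖ ≤ s1 ∧ ‖A‖ ≤ s2) ∨ (‖w - v‖ ≤ s1 ∧ ‖B‖ ≤ s2) ∨ (‖u - w‖ ≤ s1 ∧ ‖A + B‖ ≤ s2)) :
    ‖Dl n k u v w A B‖ ≤ Np n (n + k) n *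
      (s1 ^ (2 * n + 1) * L1 ^ (n + k) * L2 + L1 ^ (3 * n + 1 + k) * s2) := by
  have hL1 : 0 < L1 := hs.trans_le hsL
  have hN := np_nonneg n (n + k) n
  -- the small term
  have e1 : s1 ^ (2 * n + 1 + k) * L1 ^ n * L2 ≤ s1 ^ (2 * n + 1) * L1 ^ (n + k) * L2 := by
    refine mul_le_mul_of_nonneg_right ?_ hL2
    rw [pow_add s1 (2 * n + 1) k, pow_add L1 n k, mul_assoc, mul_comm (s1 ^ k), ← mul_assoc,
      ← mul_assoc]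
    exact mul_le_mul_of_nonneg_left (pow_le_pow_left₀ hs.le hsL _)
      (mul_nonneg (pow_nonneg hs.le _) (pow_nonneg hL1.le _))
  have e2 : L1 ^ (2 * n + 1 + k) * L1 ^ n * s2 ≤ L1 ^ (3 * n + 1 + k) * s2 := by
    rw [← pow_add, show 2 * n + 1 + k + n = 3 * n + 1 + k by ring]
  have p1 : ∀ m l : ℕ, 0 ≤ s1 ^ m * L1 ^ l := fun m l =>
    mul_nonneg (pow_nonneg hs.le _) (pow_nonneg hL1.le _)
  have p2 : ∀ m l : ℕ, 0 ≤ L1 ^ m * L1 ^ l := fun m l =>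
    mul_nonneg (pow_nonneg hL1.le _) (pow_nonneg hL1.le _)
  rcases h with ⟨ha, hb⟩ | ⟨ha, hb⟩ | ⟨ha, hb⟩
  · have a1 := mul_le _ B _ _ L2 _ hN (p1 _ _) (t12 n k u v w L1 s1 hs.le ha h2 h3) h5 e1
    have a2 := mul_le _ A _ _ s2 _ hN (p2 _ _) (t23 n k u v w L1 L1 hL1.le h2 h1 h3) hb e2
    unfold Dl
    refine (norm_sub_le _ _).trans ((add_le_add a1 a2).trans (le_of_eq ?_))
    ring
  · have a1 := mul_le _ A _ _ L2 _ hN (p1 _ _) (t23 n k u v w L1 s1 hs.le ha h1 h3) h4 e1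
    have a2 := mul_le _ B _ _ s2 _ hN (p2 _ _) (t12 n k u v w L1 L1 hL1.le h1 h2 h3) hb e2
    unfold Dl
    refine (norm_sub_le _ _).trans ((add_le_add a2 a1).trans (le_of_eq ?_))
    ring
  · have a1 := mul_le _ A _ _ L2 _ hN (p1 _ _) (t31 n k u v w L1 s1 hs.le ha h1 h2) h4 le_rfl
    have a2 := mul_le _ (A + B) _ _ s2 _ hN (p2 _ _) (t12 n k u v w L1 L1 hL1.le h1 h2 h3) hb e2
    have e3 : Dl n k u v w A B = Tp n n (n + k) w u v * A + Tp n (n + k) n u v w * (A + B) := by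
      have h7 := tp_cycle n (n + k) n u v w
      unfold Dl
      linear_combination (-A) * h7
    rw [e3]
    refine (norm_add_le _ _).trans ((add_le_add a1 a2).trans (le_of_eq ?_))
    ring

theorem dl_all (n k : ℕ) (u v w A B : ℂ) (s1 s2 : ℝ) (hs : 0 < s1) (hs2 : 0 ≤ s2)
    (h1 : ‖v - u‖ ≤ s1) (h2 : ‖w - v‖ ≤ s1) (h3 : ‖u - w‖ ≤ s1) (h4 : ‖A‖ ≤ s2) (h5 : ‖B‖ ≤ s2) :
    ‖Dl n k u v w A B‖ ≤ Np n (n + k) n * (2 * (s1 ^ (3 * n + 1 + k) * s2)) := by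
  have hN := np_nonneg n (n + k) n
  have e2 : s1 ^ (2 * n + 1 + k) * s1 ^ n * s2 ≤ s1 ^ (3 * n + 1 + k) * s2 := by
    rw [← pow_add, show 2 * n + 1 + k + n = 3 * n + 1 + k by ring]
  have p2 : 0 ≤ s1 ^ (2 * n + 1 + k) * s1 ^ n :=
    mul_nonneg (pow_nonneg hs.le _) (pow_nonneg hs.le _)
  have a1 := mul_le _ B _ _ s2 _ hN p2 (t12 n k u v w s1 s1 hs.le h1 h2 h3) h5 e2
  have a2 := mul_le _ A _ _ s2 _ hN p2 (t23 n k u v w s1 s1 hs.le h2 h1 h3) h4 e2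
  unfold Dl
  refine (norm_sub_le _ _).trans ((add_le_add a1 a2).trans (le_of_eq ?_))
  ring

end Pool.Agent.Helper32.FM
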