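import Pool.Agent.Helper32.FM.Size

set_option autoImplicit false

/-!
FM-P5 Pattern. The sign patterns are equidistributed when `x` is large.

`NormOne`: the conclusion of `gal` (FM-P4) for given `G, π, χ`.

PROOF. `E t = sa a * e 0 t`, `R = sa a * √x`, `x = x 0`. For `P = X (0,i) - X (0,j)`, `i ≠ j`: `E i ≠ E j` (`e i^2 ≠ e j^2`
because `θ i ≠ θ j`). The factor of `g` is `‖χ_i E (π i) - χ_j E (π j)‖`: `= ‖E (π i) - E (π j)‖ ≤ 4H/R` if `χ_i = χ_j`
(`small_sub`), `= ‖E (π i) + E (π j)‖ ≤ 3 R` if not (`big_add`). So with `n1 = #{χ_i = χ_j}`, `n2 = #{χ_i ≠ χ_j}`: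
`1 ≤ (4H/R)^n1 (3R)^n2`. For `P = X (0,i) + X (0,j)`, nonzero since the real parts are positive (`ise_norm`: `(e t).re^2 ≥ x/2 > 0`
and `≥ 0`): `1 ≤ (3R)^n1 (4H/R)^n2`. If `n1 > n2`: `(4H/R)^n1 (3R)^n2 = (4H/R)^(n1-n2) (12 H)^n2 ≤ (4H/R) (12H)^n2 ≤ (12H)^(card G)/R < 1`
(`4H/R ≤ 1` and `R^2 = |a| x > (12H)^(2 card G)`, `H ≥ 1` because `0 < |a_d| ≤ H`): contradiction. Same for `n2 > n1`. So `n1 = n2`.
`pattern3`: for three different indices with `p = #{χ_i = χ_j = χ_k}`, `p_i = #{χ_j = χ_k ≠ χ_i}` etc.: `p + p_k = p_i + p_j`,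
`p + p_i = p_j + p_k`, `p + p_j = p_i + p_k`, so all four are equal, and the sum of the four is `card G` (two of three signs
agree).
-/

open Polynomial

namespace Pool.Agent.Helper32.FM

/-- norms are `≥ 1` (see `gal`) -/
def NormOne {d : ℕ} (a : Fin (d + 1) → ℤ) (e : Fin 2 → Fin d → ℂ) (G : Type) [Fintype G]
    (π : G → Equiv.Perm (Fin d)) (χ : G → Fin d → ℤ) : Prop :=
  (∀ g t, χ g t = 1 ∨ χ g t = -1) ∧
  ∀ P : MvPolynomial (Fin 2 × Fin d) ℤ,
    MvPolynomial.aeval (fun i : Fin 2 × Fin d => (sa a : ℂ) * e i.1 i.2) P ≠ 0 →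
    1 ≤ ∏ g : G, ‖MvPolynomial.aeval (fun i : Fin 2 × Fin d =>
      ((χ g i.2 : ℤ) : ℂ) * ((sa a : ℂ) * e i.1 (π g i.2))) P‖

/-- the real inequality behind `pattern2` -/
theorem pat_real {n1 n2 N : ℕ} (hN : n1 + n2 = N) {H R : ℝ} (hH : 1 ≤ H) (hR0 : 0 < R)
    (hR : (12 * H) ^ N < R) (h : 1 ≤ (4 * H / R) ^ n1 * (3 * R) ^ n2) : n1 ≤ n2 := by
  by_contra hcon
  push Not at hcon
  obtain ⟨m, rfl⟩ : ∃ m, n1 = n2 + (m + 1) := ⟨n1 - n2 - 1, by omega⟩
  have h12 : (1 : ℝ) ≤ 12 * H := by linarith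
  have hA0 : 0 ≤ 4 * H / R := by positivity
  have hle : (12 * H) ^ (n2 + 1) ≤ (12 * H) ^ N := pow_le_pow_right₀ h12 (by omega)
  have h1 : 12 * H ≤ (12 * H) ^ N := by
    calc 12 * H = (12 * H) ^ 1 := (pow_one _).symm
      _ ≤ (12 * H) ^ N := pow_le_pow_right₀ h12 (by omega)
  have hA1 : 4 * H / R ≤ 1 := by
    rw [div_le_one hR0]
    linarith
  have h2 : (4 * H / R) ^ (n2 + (m + 1)) * (3 * R) ^ n2 =
      (4 * H / R) ^ (m + 1) * (12 * H) ^ n2 := by
    have h3 : 4 * H / R * (3 * R) = 12 * H := by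
      field_simp
      ring
    rw [← h3, mul_pow (4 * H / R) (3 * R) n2, pow_add]
    ring
  rw [h2] at h
  have h4 : (4 * H / R) ^ (m + 1) ≤ 4 * H / R := by
    calc (4 * H / R) ^ (m + 1) = (4 * H / R) ^ m * (4 * H / R) := pow_succ _ _
      _ ≤ 1 * (4 * H / R) := mul_le_mul_of_nonneg_right (pow_le_one₀ hA0 hA1) hA0
      _ = 4 * H / R := one_mul _
  have h5 : (4 * H / R) ^ (m + 1) * (12 * H) ^ n2 ≤ (12 * H) ^ N / R := by
    have h6 : (0 : ℝ) ≤ (12 * H) ^ n2 := by positivity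
    calc (4 * H / R) ^ (m + 1) * (12 * H) ^ n2 ≤ 4 * H / R * (12 * H) ^ n2 :=
          mul_le_mul_of_nonneg_right h4 h6
      _ ≤ 12 * H / R * (12 * H) ^ n2 := by
          refine mul_le_mul_of_nonneg_right ?_ h6
          exact div_le_div_of_nonneg_right (by linarith) hR0.le
      _ = (12 * H) ^ (n2 + 1) / R := by ring
      _ ≤ (12 * H) ^ N / R := div_le_div_of_nonneg_right hle hR0.le
  have h7 : (12 * H) ^ N / R < 1 := by
    rw [div_lt_one hR0]
    exact hR
  linarith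

theorem pattern2 {d H : ℕ} {a : Fin (d + 1) → ℤ} {θ : Fin d → ℂ} (hR : Roots H a θ)
    (x : Fin 2 → ℤ) (e : Fin 2 → Fin d → ℂ) (he : IsE θ (x 0) (e 0)) (hx : 4 * (H : ℤ) ≤ x 0)
    (G : Type) [Fintype G] (π : G → Equiv.Perm (Fin d)) (χ : G → Fin d → ℤ)
    (hN : NormOne a e G π χ)
    (hX : (12 * (H : ℝ)) ^ (2 * Fintype.card G) < |((a (Fin.last d) : ℤ) : ℝ)| * x 0)
    (i j : Fin d) (hij : i ≠ j) :
    (Finset.univ.filter fun g : G => χ g i = χ g j).card =
      (Finset.univ.filter fun g : G => χ g i ≠ χ g j).card := by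
  classical
  obtain ⟨hsgn, hnorm⟩ := hN
  have hH1 : (1 : ℝ) ≤ H := by
    have h1 := hR.box (Fin.last d)
    have h2 : 0 < |a (Fin.last d)| := abs_pos.2 hR.lead
    have h3 : (1 : ℤ) ≤ (H : ℤ) := by omega
    exact_mod_cast h3
  have hx1 : 1 ≤ x 0 := by
    have h3 : (1 : ℤ) ≤ (H : ℤ) := by exact_mod_cast hH1
    omega
  have hx0 : (1 : ℝ) ≤ ((x 0 : ℤ) : ℝ) := by exact_mod_cast hx1
  have hlead : 0 < |((a (Fin.last d) : ℤ) : ℝ)| := abs_pos.2 (by exact_mod_cast hR.lead)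
  have hsa : 0 < sa a := Real.sqrt_pos.2 hlead
  have hsx : 0 < Real.sqrt ((x 0 : ℤ) : ℝ) := Real.sqrt_pos.2 (by linarith)
  set R : ℝ := sa a * Real.sqrt ((x 0 : ℤ) : ℝ) with hRdef
  have hR0 : 0 < R := mul_pos hsa hsx
  have hRR : R ^ 2 = |((a (Fin.last d) : ℤ) : ℝ)| * ((x 0 : ℤ) : ℝ) := by
    rw [hRdef, mul_pow, Real.sq_sqrt (by linarith : (0 : ℝ) ≤ ((x 0 : ℤ) : ℝ)), sa,
      Real.sq_sqrt (abs_nonneg _)]
  have hRbig : (12 * (H : ℝ)) ^ Fintype.card G < R := by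
    have h1 : ((12 * (H : ℝ)) ^ Fintype.card G) ^ 2 < R ^ 2 := by
      rw [hRR, ← pow_mul, mul_comm (Fintype.card G) 2]
      exact hX
    exact lt_of_pow_lt_pow_left₀ 2 hR0.le h1
  have hsaC : (sa a : ℂ) ≠ 0 := by exact_mod_cast hsa.ne'
  have hne : e 0 i ≠ e 0 j := by
    intro h0
    have h1 := (he i).1
    have h2 := (he j).1
    rw [h0, h2] at h1
    apply hij
    apply hR.inj
    linear_combination h1
  have hne2 : e 0 i + e 0 j ≠ 0 := by
    intro h0
    have h1 := (ise_norm hR hx he i).2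
    have h2 := (he i).2
    have h3 := (he j).2
    have h4 : (e 0 i).re + (e 0 j).re = 0 := by
      rw [← Complex.add_re, h0, Complex.zero_re]
    have h5 : (e 0 i).re = 0 := by linarith
    rw [h5] at h1
    norm_num at h1
    linarith
  have hcard : (Finset.univ.filter fun g : G => χ g i = χ g j).card +
      (Finset.univ.filter fun g : G => χ g i ≠ χ g j).card = Fintype.card G := by
    rw [← Finset.card_univ]
    exact Finset.card_filter_add_card_filter_not (fun g : G => χ g i = χ g j)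
  -- norms of the factors
  have hfac : ∀ g : G,
      (χ g i = χ g j → ‖((χ g i : ℤ) : ℂ) * ((sa a : ℂ) * e 0 (π g i)) -
          ((χ g j : ℤ) : ℂ) * ((sa a : ℂ) * e 0 (π g j))‖ ≤ 4 * H / R) ∧
      (χ g i ≠ χ g j → ‖((χ g i : ℤ) : ℂ) * ((sa a : ℂ) * e 0 (π g i)) -
          ((χ g j : ℤ) : ℂ) * ((sa a : ℂ) * e 0 (π g j))‖ ≤ 3 * R) ∧
      (χ g i = χ g j → ‖((χ g i : ℤ) : ℂ) * ((sa a : ℂ) * e 0 (π g i)) +
          ((χ g j : ℤ) : ℂ) * ((sa a : ℂ) * e 0 (π g j))‖ ≤ 3 * R) ∧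
      (χ g i ≠ χ g j → ‖((χ g i : ℤ) : ℂ) * ((sa a : ℂ) * e 0 (π g i)) +
          ((χ g j : ℤ) : ℂ) * ((sa a : ℂ) * e 0 (π g j))‖ ≤ 4 * H / R) := by
    intro g
    have hs := small_sub hR hx hx1 he (π g i) (π g j)
    have hb := (big_add hR hx he (π g i) (π g j)).2
    rcases hsgn g i with h1 | h1 <;> rcases hsgn g j with h2 | h2 <;> rw [h1, h2]
    · refine ⟨fun _ => ?_, fun h => absurd rfl h, fun _ => ?_, fun h => absurd rfl h⟩
      · simpa using hs
      · simpa using hb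
    · refine ⟨fun h => absurd h (by norm_num), fun _ => ?_, fun h => absurd h (by norm_num),
        fun _ => ?_⟩
      · simpa using hb
      · simpa [sub_eq_add_neg] using hs
    · refine ⟨fun h => absurd h (by norm_num), fun _ => ?_, fun h => absurd h (by norm_num),
        fun _ => ?_⟩
      · have h3 : ((-1 : ℤ) : ℂ) * ((sa a : ℂ) * e 0 (π g i)) -
            ((1 : ℤ) : ℂ) * ((sa a : ℂ) * e 0 (π g j)) =
            -((sa a : ℂ) * e 0 (π g i) + (sa a : ℂ) * e 0 (π g j)) := by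
          push_cast
          ring
        rw [h3, norm_neg]
        exact hb
      · have h3 : ((-1 : ℤ) : ℂ) * ((sa a : ℂ) * e 0 (π g i)) +
            ((1 : ℤ) : ℂ) * ((sa a : ℂ) * e 0 (π g j)) =
            -((sa a : ℂ) * e 0 (π g i) - (sa a : ℂ) * e 0 (π g j)) := by
          push_cast
          ring
        rw [h3, norm_neg]
        exact hs
    · refine ⟨fun _ => ?_, fun h => absurd rfl h, fun _ => ?_, fun h => absurd rfl h⟩
      · have h3 : ((-1 : ℤ) : ℂ) * ((sa a : ℂ) * e 0 (π g i)) -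
            ((-1 : ℤ) : ℂ) * ((sa a : ℂ) * e 0 (π g j)) =
            -((sa a : ℂ) * e 0 (π g i) - (sa a : ℂ) * e 0 (π g j)) := by
          push_cast
          ring
        rw [h3, norm_neg]
        exact hs
      · have h3 : ((-1 : ℤ) : ℂ) * ((sa a : ℂ) * e 0 (π g i)) +
            ((-1 : ℤ) : ℂ) * ((sa a : ℂ) * e 0 (π g j)) =
            -((sa a : ℂ) * e 0 (π g i) + (sa a : ℂ) * e 0 (π g j)) := by
          push_cast
          ring
        rw [h3, norm_neg]
        exact hb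
  apply le_antisymm
  · -- `X i - X j`
    refine pat_real hcard hH1 hR0 hRbig ?_
    have h1 := hnorm (MvPolynomial.X (0, i) - MvPolynomial.X (0, j)) (by
      rw [map_sub, MvPolynomial.aeval_X, MvPolynomial.aeval_X, ← mul_sub]
      exact mul_ne_zero hsaC (sub_ne_zero.2 hne))
    refine h1.trans ?_
    calc ∏ g : G, ‖MvPolynomial.aeval (fun i : Fin 2 × Fin d =>
          ((χ g i.2 : ℤ) : ℂ) * ((sa a : ℂ) * e i.1 (π g i.2)))
            (MvPolynomial.X (0, i) - MvPolynomial.X (0, j) : MvPolynomial (Fin 2 × Fin d) ℤ)‖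
        ≤ ∏ g : G, (if χ g i = χ g j then 4 * (H : ℝ) / R else 3 * R) := by
          refine Finset.prod_le_prod (fun g _ => norm_nonneg _) fun g _ => ?_
          rw [map_sub, MvPolynomial.aeval_X, MvPolynomial.aeval_X]
          split_ifs with h2
          · exact (hfac g).1 h2
          · exact (hfac g).2.1 h2
      _ = _ := by
          rw [Finset.prod_ite, Finset.prod_const, Finset.prod_const]
  · -- `X i + X j`
    have hcard' : (Finset.univ.filter fun g : G => χ g i ≠ χ g j).card +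
      (Finset.univ.filter fun g : G => χ g i = χ g j).card = Fintype.card G := by
      rw [add_comm]; exact hcard
    refine pat_real hcard' hH1 hR0 hRbig ?_
    have h1 := hnorm (MvPolynomial.X (0, i) + MvPolynomial.X (0, j)) (by
      rw [map_add, MvPolynomial.aeval_X, MvPolynomial.aeval_X, ← mul_add]
      exact mul_ne_zero hsaC hne2)
    refine h1.trans ?_
    calc ∏ g : G, ‖MvPolynomial.aeval (fun i : Fin 2 × Fin d =>
          ((χ g i.2 : ℤ) : ℂ) * ((sa a : ℂ) * e i.1 (π g i.2)))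
            (MvPolynomial.X (0, i) + MvPolynomial.X (0, j) : MvPolynomial (Fin 2 × Fin d) ℤ)‖
        ≤ ∏ g : G, (if χ g i = χ g j then 3 * R else 4 * (H : ℝ) / R) := by
          refine Finset.prod_le_prod (fun g _ => norm_nonneg _) fun g _ => ?_
          rw [map_add, MvPolynomial.aeval_X, MvPolynomial.aeval_X]
          split_ifs with h2
          · exact (hfac g).2.2.1 h2
          · exact (hfac g).2.2.2 h2
      _ = _ := by
          rw [Finset.prod_ite, Finset.prod_const, Finset.prod_const, mul_comm]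

theorem pattern3 {d H : ℕ} {a : Fin (d + 1) → ℤ} {θ : Fin d → ℂ} (hR : Roots H a θ)
    (x : Fin 2 → ℤ) (e : Fin 2 → Fin d → ℂ) (he : IsE θ (x 0) (e 0)) (hx : 4 * (H : ℤ) ≤ x 0)
    (G : Type) [Fintype G] (π : G → Equiv.Perm (Fin d)) (χ : G → Fin d → ℤ)
    (hN : NormOne a e G π χ)
    (hX : (12 * (H : ℝ)) ^ (2 * Fintype.card G) < |((a (Fin.last d) : ℤ) : ℝ)| * x 0)
    (i j k : Fin d) (hij : i ≠ j) (hjk : j ≠ k) (hik : i ≠ k) :
    Fintype.card G = 4 * (Finset.univ.filter fun g : G => χ g i = χ g j ∧ χ g j = χ g k).card := by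
  classical
  have hs := hN.1
  have hz : ∀ u v : Fin d, u ≠ v → ∑ g : G, χ g u * χ g v = 0 := by
    intro u v huv
    have h1 := pattern2 hR x e he hx G π χ hN hX u v huv
    have h2 : ∀ g : G, χ g u * χ g v =
        (if χ g u = χ g v then (1 : ℤ) else 0) - (if χ g u ≠ χ g v then (1 : ℤ) else 0) := by
      intro g
      rcases hs g u with h3 | h3 <;> rcases hs g v with h4 | h4 <;> rw [h3, h4] <;> norm_num
    rw [Finset.sum_congr rfl fun g _ => h2 g, Finset.sum_sub_distrib, Finset.sum_boole,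
      Finset.sum_boole, h1, sub_self]
  have hkey : ∀ g : G, 4 * (if χ g i = χ g j ∧ χ g j = χ g k then (1 : ℤ) else 0) =
      1 + χ g i * χ g j + χ g j * χ g k + χ g i * χ g k := by
    intro g
    rcases hs g i with h1 | h1 <;> rcases hs g j with h2 | h2 <;> rcases hs g k with h3 | h3 <;>
      rw [h1, h2, h3] <;> norm_num
  have hsum : (4 : ℤ) * ((Finset.univ.filter fun g : G =>
      χ g i = χ g j ∧ χ g j = χ g k).card : ℤ) = (Fintype.card G : ℤ) := by
    have h1 : (((Finset.univ.filter fun g : G => χ g i = χ g j ∧ χ g j = χ g k).card : ℕ) : ℤ) =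
        ∑ g : G, if χ g i = χ g j ∧ χ g j = χ g k then (1 : ℤ) else 0 :=
      (Finset.sum_boole _ _).symm
    rw [h1, Finset.mul_sum, Finset.sum_congr rfl fun g _ => hkey g, Finset.sum_add_distrib,
      Finset.sum_add_distrib, Finset.sum_add_distrib, hz i j hij, hz j k hjk, hz i k hik,
      Finset.sum_const, Finset.card_univ]
    simp
  exact_mod_cast hsum.symm

end Pool.Agent.Helper32.FM
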