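import Pool.Agent.Helper32.FM.Gal
import Pool.Agent.Helper32.FM.Pattern
import Pool.Agent.Helper32.FM.Delta

set_option autoImplicit false

/-!
FM-P6b DeltaNorm. The norm inequality for `Dl`.

Three different indices `i, j, k`; `E l t = sa a * e l t`; `u, v, w = -E 0 i, -E 0 j, -E 0 k`; `A = E 1 i - E 1 j`,
`B = E 1 j - E 1 k` (so `v - u = E 0 i - E 0 j`, `w - v = E 0 j - E 0 k`, `u - w = E 0 k - E 0 i`, `A + B = E 1 i - E 1 k`).
`R l = sa a * √(x l)`, `s l = 4H/R l`, `L l = 3 R l`.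

PROOF. `G, π, χ` from `gal`. `Dl n κ u v w A B = aeval E P` for an integral polynomial `P` in the variables (`Dl` of the
corresponding `MvPolynomial`s: `Tp`, `Sp` are defined over any commutative ring; `map` lemma: `MvPolynomial.aeval` is a ring hom
and `Sp`, `Tp`, `Dl` commute with ring homs by `simp [Sp, map_sum]`). If it is not zero, `1 ≤ ∏_g ‖D_g‖` where `D_g` is `Dl` of the
conjugates `-χ_i E 0 (π i)`, ... (`aeval` at the conjugate point). If `χ_i = χ_j = χ_k` all differences of the conjugates are `≤ s`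
(`small_sub`; a common sign does not matter), `dl_all`. Otherwise exactly two of the signs agree, that difference is `≤ s`, all are `≤ L`
(`big_add`), `dl_one` (`s 0 ≤ L 0` because `4H ≤ 3 R^2`). By `pattern3` (`x = x 0`) the number of `g` of the first kind is
`κ0 = card G / 4`, of the second kind `3 κ0`. So `1 ≤ V^κ0 U^(3 κ0) = (U^3 V)^κ0`, hence `1 ≤ U^3 V` (`κ0 ≥ 1`).
-/

namespace Pool.Agent.Helper32.FM

private theorem dn_sp_map {R S : Type*} [CommRing R] [CommRing S] (f : R →+* S) (p q r : ℕ) (a c : R) :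
    f (Sp p q r a c) = Sp p q r (f a) (f c) := by
  unfold Sp
  simp only [map_sum, map_mul, map_pow, map_natCast]

private theorem dn_tp_map {R S : Type*} [CommRing R] [CommRing S] (f : R →+* S) (p q r : ℕ)
    (u v w : R) : f (Tp p q r u v w) = Tp p q r (f u) (f v) (f w) := by
  unfold Tp
  simp only [map_mul, map_pow, map_sub, map_neg, map_one, dn_sp_map]

private theorem dn_dl_map {R S : Type*} [CommRing R] [CommRing S] (f : R →+* S) (n k : ℕ)
    (u v w A B : R) : f (Dl n k u v w A B) = Dl n k (f u) (f v) (f w) (f A) (f B) := by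
  unfold Dl
  simp only [map_mul, map_sub, dn_tp_map]

/-- the polynomial -/
private noncomputable def DnP (d : ℕ) (n κ : ℕ) (i j k : Fin d) : MvPolynomial (Fin 2 × Fin d) ℤ :=
  Dl n κ (-(MvPolynomial.X (0, i))) (-(MvPolynomial.X (0, j))) (-(MvPolynomial.X (0, k)))
    (MvPolynomial.X (1, i) - MvPolynomial.X (1, j)) (MvPolynomial.X (1, j) - MvPolynomial.X (1, k))

private theorem dn_aeval {d : ℕ} (n κ : ℕ) (i j k : Fin d) (y : Fin 2 × Fin d → ℂ) :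
    MvPolynomial.aeval y (DnP d n κ i j k) =
      Dl n κ (-(y (0, i))) (-(y (0, j))) (-(y (0, k))) (y (1, i) - y (1, j)) (y (1, j) - y (1, k)) := by
  unfold DnP
  have h := dn_dl_map ((MvPolynomial.aeval y : MvPolynomial (Fin 2 × Fin d) ℤ →ₐ[ℤ] ℂ) :
    MvPolynomial (Fin 2 × Fin d) ℤ →+* ℂ) n κ (-(MvPolynomial.X (0, i))) (-(MvPolynomial.X (0, j)))
    (-(MvPolynomial.X (0, k))) (MvPolynomial.X (1, i) - MvPolynomial.X (1, j))
    (MvPolynomial.X (1, j) - MvPolynomial.X (1, k))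
  simpa using h

private theorem dn_sign {c c' : ℤ} (hc : c = 1 ∨ c = -1) (hc' : c' = 1 ∨ c' = -1) {z z' : ℂ} {L s : ℝ}
    (h1 : ‖z - z'‖ ≤ L) (h2 : ‖z + z'‖ ≤ L) (h3 : ‖z - z'‖ ≤ s) :
    ‖(c : ℂ) * z - (c' : ℂ) * z'‖ ≤ L ∧ (c = c' → ‖(c : ℂ) * z - (c' : ℂ) * z'‖ ≤ s) := by
  have e1 : ‖z' - z‖ = ‖z - z'‖ := norm_sub_rev _ _
  have e2 : ‖-z - z'‖ = ‖z + z'‖ := by
    rw [← norm_neg (z + z')]
    congr 1
    ring
  rcases hc with rfl | rfl <;> rcases hc' with rfl | rfl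
  · refine ⟨?_, fun _ => ?_⟩
    · simpa using h1
    · simpa using h3
  · refine ⟨?_, fun h => absurd h (by norm_num)⟩
    simpa using h2
  · refine ⟨?_, fun h => absurd h (by norm_num)⟩
    simpa [e2] using h2
  · have e3 : ((-1 : ℤ) : ℂ) * z - ((-1 : ℤ) : ℂ) * z' = z' - z := by
      push_cast
      ring
    rw [e3, e1]
    exact ⟨h1, fun _ => h3⟩

theorem delta_norm {d H : ℕ} {a : Fin (d + 1) → ℤ} {θ : Fin d → ℂ} (hR : Roots H a θ)
    (x : Fin 2 → ℤ) (e : Fin 2 → Fin d → ℂ) (he : ∀ l, IsE θ (x l) (e l)) (hs : SRel θ (e 0) (e 1))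
    (hx : ∀ l, 4 * (H : ℤ) ≤ x l) (hx1 : ∀ l, 1 ≤ x l)
    (hX : (12 * (H : ℝ)) ^ (2 * (2 ^ d * d.factorial)) < |((a (Fin.last d) : ℤ) : ℝ)| * x 0)
    (i j k : Fin d) (hij : i ≠ j) (hjk : j ≠ k) (hik : i ≠ k) (n κ : ℕ) (hκ : κ ≤ 1)
    (h0 : Dl n κ (-((sa a : ℂ) * e 0 i)) (-((sa a : ℂ) * e 0 j)) (-((sa a : ℂ) * e 0 k))
      ((sa a : ℂ) * e 1 i - (sa a : ℂ) * e 1 j) ((sa a : ℂ) * e 1 j - (sa a : ℂ) * e 1 k) ≠ 0)
    (R0 R1 : ℝ) (hR0 : R0 = sa a * Real.sqrt (x 0)) (hR1 : R1 = sa a * Real.sqrt (x 1)) :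
    1 ≤ (Np n (n + κ) n * ((4 * H / R0) ^ (2 * n + 1) * (3 * R0) ^ (n + κ) * (3 * R1) +
        (3 * R0) ^ (3 * n + 1 + κ) * (4 * H / R1))) ^ 3 *
      (Np n (n + κ) n * (2 * ((4 * H / R0) ^ (3 * n + 1 + κ) * (4 * H / R1)))) := by
  classical
  obtain ⟨G, hG, π, χ, hGn, hcard, hχ, hP⟩ := gal hR x e he hs
    (fun l t => ise_ne hR (hx l) (hx1 l) (he l) t)
  have hN : NormOne a e G π χ := ⟨hχ, hP⟩
  -- sizes
  have hH : 1 ≤ H := by
    have h1 : (1 : ℤ) ≤ |a (Fin.last d)| := Int.one_le_abs hR.lead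
    have h2 := hR.box (Fin.last d)
    exact_mod_cast h1.trans h2
  have hHR : (1 : ℝ) ≤ H := by exact_mod_cast hH
  have ha1 : (1 : ℝ) ≤ |((a (Fin.last d) : ℤ) : ℝ)| := by
    have h1 : (1 : ℤ) ≤ |a (Fin.last d)| := Int.one_le_abs hR.lead
    exact_mod_cast h1
  have hsa : 0 < sa a := Real.sqrt_pos.2 (lt_of_lt_of_le one_pos ha1)
  have hxp : ∀ l, (0 : ℝ) < x l := fun l => by
    have : (0 : ℤ) < x l := lt_of_lt_of_le one_pos (hx1 l)
    exact_mod_cast this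
  have hR0p : 0 < R0 := by
    rw [hR0]; exact mul_pos hsa (Real.sqrt_pos.2 (hxp 0))
  have hR1p : 0 < R1 := by
    rw [hR1]; exact mul_pos hsa (Real.sqrt_pos.2 (hxp 1))
  have hX' : (12 * (H : ℝ)) ^ (2 * Fintype.card G) < |((a (Fin.last d) : ℤ) : ℝ)| * x 0 := by
    refine lt_of_le_of_lt (pow_le_pow_right₀ (by linarith) ?_) hX
    exact Nat.mul_le_mul_left _ hcard
  have h3 := pattern3 hR x e (he 0) (hx 0) G π χ hN hX' i j k hij hjk hik
  set S : Finset G := Finset.univ.filter fun g : G => χ g i = χ g j ∧ χ g j = χ g k with hS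
  -- the two bounds
  set s0 : ℝ := 4 * H / R0 with hs0
  set s1 : ℝ := 4 * H / R1 with hs1
  set U : ℝ := Np n (n + κ) n * (s0 ^ (2 * n + 1) * (3 * R0) ^ (n + κ) * (3 * R1) +
        (3 * R0) ^ (3 * n + 1 + κ) * s1) with hU
  set V : ℝ := Np n (n + κ) n * (2 * (s0 ^ (3 * n + 1 + κ) * s1)) with hV
  have hs0p : 0 < s0 := by rw [hs0]; positivity
  have hs1p : 0 < s1 := by rw [hs1]; positivity
  have hNp : 0 ≤ Np n (n + κ) n := by unfold Np; positivity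
  have hU0 : 0 ≤ U := by rw [hU]; positivity
  have hV0 : 0 ≤ V := by rw [hV]; positivity
  have hsL : s0 ≤ 3 * R0 := by
    rw [hs0, div_le_iff₀ hR0p]
    have h4 : R0 ^ 2 = |((a (Fin.last d) : ℤ) : ℝ)| * x 0 := by
      rw [hR0, mul_pow, Real.sq_sqrt (hxp 0).le]
      unfold sa
      rw [Real.sq_sqrt (abs_nonneg _)]
    have h5 : (4 * (H : ℝ)) ≤ x 0 := by exact_mod_cast hx 0
    have h6 : (x 0 : ℝ) ≤ |((a (Fin.last d) : ℤ) : ℝ)| * x 0 := by
      nlinarith [hxp 0]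
    nlinarith [hxp 0]
  -- the conjugates
  have hbig : ∀ (l : Fin 2) (s t : Fin d), ‖(sa a : ℂ) * e l s - (sa a : ℂ) * e l t‖ ≤
      3 * (sa a * Real.sqrt (x l)) ∧ ‖(sa a : ℂ) * e l s + (sa a : ℂ) * e l t‖ ≤
      3 * (sa a * Real.sqrt (x l)) := fun l s t => big_add hR (hx l) (he l) s t
  have hsm : ∀ (l : Fin 2) (s t : Fin d), ‖(sa a : ℂ) * e l s - (sa a : ℂ) * e l t‖ ≤
      4 * H / (sa a * Real.sqrt (x l)) := fun l s t => small_sub hR (hx l) (hx1 l) (he l) s t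
  have key0 : ∀ (g : G) (s t : Fin d),
      ‖((χ g s : ℤ) : ℂ) * ((sa a : ℂ) * e 0 (π g s)) - ((χ g t : ℤ) : ℂ) * ((sa a : ℂ) * e 0 (π g t))‖
        ≤ 3 * R0 ∧ (χ g s = χ g t → ‖((χ g s : ℤ) : ℂ) * ((sa a : ℂ) * e 0 (π g s)) -
          ((χ g t : ℤ) : ℂ) * ((sa a : ℂ) * e 0 (π g t))‖ ≤ s0) := by
    intro g s t
    rw [hs0, hR0]
    exact dn_sign (hχ g s) (hχ g t) (hbig 0 _ _).1 (hbig 0 _ _).2 (hsm 0 _ _)
  have key1 : ∀ (g : G) (s t : Fin d),
      ‖((χ g s : ℤ) : ℂ) * ((sa a : ℂ) * e 1 (π g s)) - ((χ g t : ℤ) : ℂ) * ((sa a : ℂ) * e 1 (π g t))‖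
        ≤ 3 * R1 ∧ (χ g s = χ g t → ‖((χ g s : ℤ) : ℂ) * ((sa a : ℂ) * e 1 (π g s)) -
          ((χ g t : ℤ) : ℂ) * ((sa a : ℂ) * e 1 (π g t))‖ ≤ s1) := by
    intro g s t
    rw [hs1, hR1]
    exact dn_sign (hχ g s) (hχ g t) (hbig 1 _ _).1 (hbig 1 _ _).2 (hsm 1 _ _)
  have hval : ∀ g : G, MvPolynomial.aeval (fun y : Fin 2 × Fin d =>
      ((χ g y.2 : ℤ) : ℂ) * ((sa a : ℂ) * e y.1 (π g y.2))) (DnP d n κ i j k) =
      Dl n κ (-(((χ g i : ℤ) : ℂ) * ((sa a : ℂ) * e 0 (π g i))))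
        (-(((χ g j : ℤ) : ℂ) * ((sa a : ℂ) * e 0 (π g j))))
        (-(((χ g k : ℤ) : ℂ) * ((sa a : ℂ) * e 0 (π g k))))
        (((χ g i : ℤ) : ℂ) * ((sa a : ℂ) * e 1 (π g i)) - ((χ g j : ℤ) : ℂ) * ((sa a : ℂ) * e 1 (π g j)))
        (((χ g j : ℤ) : ℂ) * ((sa a : ℂ) * e 1 (π g j)) -
          ((χ g k : ℤ) : ℂ) * ((sa a : ℂ) * e 1 (π g k))) := fun g => dn_aeval _ _ _ _ _ _
  have hbd : ∀ g : G, ‖MvPolynomial.aeval (fun y : Fin 2 × Fin d =>
      ((χ g y.2 : ℤ) : ℂ) * ((sa a : ℂ) * e y.1 (π g y.2))) (DnP d n κ i j k)‖ ≤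
      if g ∈ S then V else U := by
    intro g
    rw [hval]
    have a1 := key0 g i j
    have a2 := key0 g j k
    have a3 := key0 g k i
    have b1 := key1 g i j
    have b2 := key1 g j k
    have b3 := key1 g i k
    have n1 : ∀ z z' : ℂ, ‖-z' - -z‖ = ‖z - z'‖ := fun z z' => by congr 1; ring
    have n2 : ∀ z z' z'' : ℂ, ‖z - z' + (z' - z'')‖ = ‖z - z''‖ := fun z z' z'' => by congr 1; ring
    split_ifs with hg
    · have hg2 := (Finset.mem_filter.1 hg).2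
      refine dl_all n κ _ _ _ _ _ s0 s1 hs0p hs1p.le ?_ ?_ ?_ ?_ ?_
      · rw [n1]; exact a1.2 hg2.1
      · rw [n1]; exact a2.2 hg2.2
      · rw [n1]; exact a3.2 (hg2.1.trans hg2.2).symm
      · exact b1.2 hg2.1
      · exact b2.2 hg2.2
    · have hg2 : ¬ (χ g i = χ g j ∧ χ g j = χ g k) := fun h =>
        hg (Finset.mem_filter.2 ⟨Finset.mem_univ _, h⟩)
      refine dl_one n κ hκ _ _ _ _ _ (3 * R0) (3 * R1) s0 s1 hs0p hsL (by positivity) hs1p.le
        ?_ ?_ ?_ ?_ ?_ ?_ ?_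
      · rw [n1]; exact a1.1
      · rw [n1]; exact a2.1
      · rw [n1]; exact a3.1
      · exact b1.1
      · exact b2.1
      · rw [n2]; exact b3.1
      · have hthree : χ g i = χ g j ∨ χ g j = χ g k ∨ χ g i = χ g k := by
          rcases hχ g i with q1 | q1 <;> rcases hχ g j with q2 | q2 <;> rcases hχ g k with q3 | q3 <;>
            rw [q1, q2, q3] <;> simp
        rcases hthree with h | h | h
        · exact Or.inl ⟨by rw [n1]; exact a1.2 h, b1.2 h⟩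
        · exact Or.inr (Or.inl ⟨by rw [n1]; exact a2.2 h, b2.2 h⟩)
        · exact Or.inr (Or.inr ⟨by rw [n1]; exact a3.2 h.symm, by rw [n2]; exact b3.2 h⟩)
  have hne0 : MvPolynomial.aeval (fun y : Fin 2 × Fin d => (sa a : ℂ) * e y.1 y.2)
      (DnP d n κ i j k) ≠ 0 := by
    rw [dn_aeval]
    exact h0
  have h1 := hP (DnP d n κ i j k) hne0
  have h2 : (1 : ℝ) ≤ ∏ g : G, (if g ∈ S then V else U) :=
    h1.trans (Finset.prod_le_prod (fun g _ => norm_nonneg _) fun g _ => hbd g)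
  have h4 : ∏ g : G, (if g ∈ S then V else U) = (U ^ 3 * V) ^ S.card := by
    rw [Finset.prod_ite, Finset.prod_const, Finset.prod_const]
    have e1 : (Finset.univ.filter fun g : G => g ∈ S) = S := by
      ext g; simp
    have e2 : (Finset.univ.filter fun g : G => g ∉ S).card = 3 * S.card := by
      have h5 := Finset.card_filter_add_card_filter_not (s := (Finset.univ : Finset G))
        (fun g : G => g ∈ S)
      rw [e1, Finset.card_univ, h3] at h5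
      omega
    rw [e1, e2, mul_pow (U ^ 3) V, ← pow_mul U 3, mul_comm]
  rw [h4] at h2
  by_contra hlt
  push Not at hlt
  have hS0 : S.card ≠ 0 := by
    intro h5
    rw [h5, mul_zero] at h3
    have := Fintype.card_pos_iff.2 hGn
    omega
  exact absurd h2 (not_le.2 (pow_lt_one₀ (by positivity) hlt hS0))

end Pool.Agent.Helper32.FM
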