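import Pool.Agent.Helper32.FM.Defs

set_option autoImplicit false

/-!
FM-G2 DetNe. The determinant of three points does not vanish.

PROOF. `v l = (e l 0, e l 1, e l 2)`.
(1) Two of the vectors are independent: `λ v l = μ v l'`, `l ≠ l'`: `λ^2 (x l - θ t) = μ^2 (x l' - θ t)` for `t = 0,1,2`, so
`(λ^2 - μ^2) θ t = λ^2 x l - μ^2 x l'` for different `θ 0`, `θ 1`: `λ^2 = μ^2`, then `λ^2 (x l - x l') = 0`, `λ = μ = 0`.
(2) `w 0 = θ 2 - θ 1`, `w 1 = θ 0 - θ 2`, `w 2 = θ 1 - θ 0` are nonzero and `∑ w t (e l t)^2 = ∑ w t (x l - θ t) = 0`.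
(3) Suppose the determinant is zero: nontrivial `c` with `∑_l c l * v l = 0` (`Matrix.exists_vecMul_eq_zero_iff`). By (1) all `c l ≠ 0`
(if `c 2 = 0` then `c 0 v 0 = - c 1 v 1`, ...). So `v 2 = α v 0 + β v 1`, `α β ≠ 0`. With `b(u,v) = ∑ w t u t v t`:
`0 = b(v2,v2) = α^2 b(v0,v0) + 2 α β b(v0,v1) + β^2 b(v1,v1) = 2 α β b(v0,v1)`: `b(v0,v1) = 0`. So both `w v0` and `w v1` (componentwise) are
orthogonal to `v0` and `v1`; the orthogonal complement of two independent vectors of `ℂ^3` is a line (spanned by the cross product), so `w v0`, `w v1`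
are dependent, hence `v0`, `v1` are dependent (`w t ≠ 0`): contradiction to (1).
(All in coordinates; `Matrix.det_fin_three`. If you prefer polynomial algebra: any proof is fine.)

In this file: the Gram matrix of the three vectors for the form `b` has zero diagonal, so its determinant
`w 0 w 1 w 2 det^2` is `2 b01 b02 b12`; and `b(u,v) = 0` together with `b(u,u) = b(v,v) = 0` are three linear equations for
`w` with the determinant `∏ (u s v t - u t v s)`, whose factors are not zero as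
`(u s v t)^2 - (u t v s)^2 = (x - y) (θ s - θ t)`.
-/

namespace Pool.Agent.Helper32.FM

private theorem minor_ne {x y a b u0 u1 v0 v1 : ℂ} (h0 : u0 ^ 2 = x - a) (h1 : u1 ^ 2 = x - b)
    (k0 : v0 ^ 2 = y - a) (k1 : v1 ^ 2 = y - b) (hxy : x ≠ y) (hab : a ≠ b) :
    u0 * v1 - u1 * v0 ≠ 0 := by
  intro h
  have e : (x - y) * (a - b) = 0 := by
    linear_combination (u0 * v1 + u1 * v0) * h - v1 ^ 2 * h0 - (x - a) * k1 + v0 ^ 2 * h1 +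
      (x - b) * k0
  rcases mul_eq_zero.1 e with e | e
  · exact hxy (sub_eq_zero.1 e)
  · exact hab (sub_eq_zero.1 e)

private theorem pair_ne (θ : Fin 3 → ℂ) (hθ : Function.Injective θ) {x y : ℂ} (hxy : x ≠ y)
    (u v : Fin 3 → ℂ) (hu : ∀ t, u t ^ 2 = x - θ t) (hv : ∀ t, v t ^ 2 = y - θ t) :
    (θ 2 - θ 1) * (u 0 * v 0) + (θ 0 - θ 2) * (u 1 * v 1) + (θ 1 - θ 0) * (u 2 * v 2) ≠ 0 := by
  intro h
  have n01 := minor_ne (hu 0) (hu 1) (hv 0) (hv 1) hxy (hθ.ne (by decide))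
  have n02 := minor_ne (hu 0) (hu 2) (hv 0) (hv 2) hxy (hθ.ne (by decide))
  have n12 := minor_ne (hu 1) (hu 2) (hv 1) (hv 2) hxy (hθ.ne (by decide))
  have hu' : (θ 2 - θ 1) * u 0 ^ 2 + (θ 0 - θ 2) * u 1 ^ 2 + (θ 1 - θ 0) * u 2 ^ 2 = 0 := by
    rw [hu 0, hu 1, hu 2]
    ring
  have hv' : (θ 2 - θ 1) * v 0 ^ 2 + (θ 0 - θ 2) * v 1 ^ 2 + (θ 1 - θ 0) * v 2 ^ 2 = 0 := by
    rw [hv 0, hv 1, hv 2]
    ring
  have key : (θ 2 - θ 1) * ((u 0 * v 1 - u 1 * v 0) * (u 0 * v 2 - u 2 * v 0) *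
      (u 1 * v 2 - u 2 * v 1)) = 0 := by
    linear_combination (u 1 * v 1 * v 2 ^ 2 - u 2 * v 2 * v 1 ^ 2) * hu' -
      (u 1 ^ 2 * v 2 ^ 2 - u 2 ^ 2 * v 1 ^ 2) * h +
      (u 1 ^ 2 * (u 2 * v 2) - u 2 ^ 2 * (u 1 * v 1)) * hv'
  have hw : θ 2 - θ 1 ≠ 0 := sub_ne_zero.2 (hθ.ne (by decide))
  exact mul_ne_zero hw (mul_ne_zero (mul_ne_zero n01 n02) n12) key

/-- the determinant of the Gram matrix -/
private theorem gram (w0 w1 w2 a0 a1 a2 b0 b1 b2 c0 c1 c2 : ℂ)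
    (ha : w0 * a0 ^ 2 + w1 * a1 ^ 2 + w2 * a2 ^ 2 = 0)
    (hb : w0 * b0 ^ 2 + w1 * b1 ^ 2 + w2 * b2 ^ 2 = 0)
    (hc : w0 * c0 ^ 2 + w1 * c1 ^ 2 + w2 * c2 ^ 2 = 0)
    (hd : a0 * b1 * c2 - a0 * b2 * c1 - a1 * b0 * c2 + a1 * b2 * c0 + a2 * b0 * c1 -
      a2 * b1 * c0 = 0) :
    (w0 * (a0 * b0) + w1 * (a1 * b1) + w2 * (a2 * b2)) *
      (w0 * (a0 * c0) + w1 * (a1 * c1) + w2 * (a2 * c2)) *
      (w0 * (b0 * c0) + w1 * (b1 * c1) + w2 * (b2 * c2)) = 0 := by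
  linear_combination (1 / 2 : ℂ) * w0 * w1 * w2 *
      (a0 * b1 * c2 - a0 * b2 * c1 - a1 * b0 * c2 + a1 * b2 * c0 + a2 * b0 * c1 -
        a2 * b1 * c0) * hd -
    (1 / 2 : ℂ) * ((w0 * b0 ^ 2 + w1 * b1 ^ 2 + w2 * b2 ^ 2) *
      (w0 * c0 ^ 2 + w1 * c1 ^ 2 + w2 * c2 ^ 2) -
      (w0 * (b0 * c0) + w1 * (b1 * c1) + w2 * (b2 * c2)) ^ 2) * ha +
    (1 / 2 : ℂ) * (w0 * (a0 * c0) + w1 * (a1 * c1) + w2 * (a2 * c2)) ^ 2 * hb +
    (1 / 2 : ℂ) * (w0 * (a0 * b0) + w1 * (a1 * b1) + w2 * (a2 * b2)) ^ 2 * hc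

theorem det_ne (θ : Fin 3 → ℂ) (hθ : Function.Injective θ) (x : Fin 3 → ℤ)
    (hx : Function.Injective x) (e : Fin 3 → Fin 3 → ℂ) (he : ∀ l t, e l t ^ 2 = (x l : ℂ) - θ t) :
    (Matrix.of e).det ≠ 0 := by
  intro hdet
  rw [Matrix.det_fin_three] at hdet
  simp only [Matrix.of_apply] at hdet
  have hw : ∀ l, (θ 2 - θ 1) * e l 0 ^ 2 + (θ 0 - θ 2) * e l 1 ^ 2 +
      (θ 1 - θ 0) * e l 2 ^ 2 = 0 := by
    intro l
    rw [he l 0, he l 1, he l 2]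
    ring
  have hp : ∀ l l' : Fin 3, l ≠ l' → (θ 2 - θ 1) * (e l 0 * e l' 0) +
      (θ 0 - θ 2) * (e l 1 * e l' 1) + (θ 1 - θ 0) * (e l 2 * e l' 2) ≠ 0 :=
    fun l l' h => pair_ne θ hθ (fun h' => h (hx (Int.cast_injective h'))) (e l) (e l') (he l)
      (he l')
  exact mul_ne_zero (mul_ne_zero (hp 0 1 (by decide)) (hp 0 2 (by decide))) (hp 1 2 (by decide))
    (gram _ _ _ _ _ _ _ _ _ _ _ _ (hw 0) (hw 1) (hw 2) (by linear_combination hdet))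

end Pool.Agent.Helper32.FM
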