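import Pool.Agent.Helper32.FM.Defs

set_option autoImplicit false

/-!
FM-G3 DetSize. The size of the determinant of three points.

PROOF. Let `p` be the index with the smallest `‖θ p‖`, `q`, `r` the others. Column operations: subtract column `p` from the columns `q`, `r`
(here `t` is the column index): `|det| = |∑ over permutations e l p (e l' q - e l' p)(e l'' r - e l'' p)| ≤ 6 max`. For every `l`:
`‖e l t‖ ≤ √(3 x_l/2)`, `(e l t).re ≥ √(x_l/2)` (from `he`: `Re^2 - Im^2 = Re (x - θ) ≥ x/2`), so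
`‖e l q - e l p‖ = ‖θ q - θ p‖/‖e l q + e l p‖ ≤ ‖θ q - θ p‖/√(2 x_l)`. Hence each of the six terms is
`≤ √(3/2)/2 * √(x_l/(x_l' x_l'')) ‖θ q - θ p‖ ‖θ r - θ p‖ ≤ √(3/2)/2 * √(x 2/(x 0 x 1)) * 4 m q m r`,
`m t = max 1 ‖θ t‖` (`‖θ q - θ p‖ ≤ m q + m p ≤ 2 m q`), and `6 * √(3/2)/2 * 4 ≤ 16`, `m p ≥ 1`.
-/

namespace Pool.Agent.Helper32.FM

private theorem re_sq_ds (X : ℝ) (a u : ℂ) (hu : u ^ 2 = (X : ℂ) - a) (ha : 2 * ‖a‖ ≤ X) :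
    X / 2 ≤ u.re ^ 2 := by
  have h1 : (u ^ 2).re = u.re ^ 2 - u.im ^ 2 := by
    rw [pow_two, Complex.mul_re]
    ring
  have h2 : (u ^ 2).re = X - a.re := by
    rw [hu, Complex.sub_re, Complex.ofReal_re]
  have h3 := Complex.re_le_norm a
  have h4 := sq_nonneg u.im
  nlinarith

private theorem norm_sq_ds (X : ℝ) (a u : ℂ) (hX : 0 ≤ X) (hu : u ^ 2 = (X : ℂ) - a) (ha : 2 * ‖a‖ ≤ X) :
    ‖u‖ ^ 2 ≤ 3 / 2 * X := by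
  have h1 : ‖u‖ ^ 2 = ‖(X : ℂ) - a‖ := by
    rw [← hu, norm_pow]
  rw [h1]
  have h2 := norm_sub_le (X : ℂ) a
  have h3 : ‖(X : ℂ)‖ = X := by
    rw [Complex.norm_real, Real.norm_of_nonneg hX]
  linarith

private theorem diff_ds (X m : ℝ) (a b u v : ℂ) (hX : 0 ≤ X) (hu : u ^ 2 = (X : ℂ) - a) (hv : v ^ 2 = (X : ℂ) - b)
    (ha : 2 * ‖a‖ ≤ X) (hb : 2 * ‖b‖ ≤ X) (hu0 : 0 ≤ u.re) (hv0 : 0 ≤ v.re) (hab : ‖a‖ ≤ ‖b‖) (hm : ‖b‖ ≤ m) :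
    ‖v - u‖ ^ 2 * X ≤ 2 * m ^ 2 := by
  have h1 := re_sq_ds X a u hu ha
  have h2 := re_sq_ds X b v hv hb
  have h3 : X / 2 ≤ u.re * v.re := by
    apply abs_le_of_sq_le_sq' _ (mul_nonneg hu0 hv0) |>.2
    have : (X / 2) * (X / 2) ≤ u.re ^ 2 * v.re ^ 2 := mul_le_mul h1 h2 (by positivity) (by positivity)
    nlinarith
  have h4 : 2 * X ≤ ‖v + u‖ ^ 2 := by
    have h5 : (v + u).re ≤ ‖v + u‖ := Complex.re_le_norm _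
    rw [Complex.add_re] at h5
    have h6 : (v.re + u.re) ^ 2 ≤ ‖v + u‖ ^ 2 := pow_le_pow_left₀ (by positivity) h5 2
    nlinarith
  have h5 : ‖v - u‖ * ‖v + u‖ = ‖a - b‖ := by
    rw [← norm_mul]
    congr 1
    linear_combination hv - hu
  have h6 : ‖a - b‖ ≤ 2 * m := by
    have := norm_sub_le a b
    linarith
  have h7 : ‖a - b‖ ^ 2 ≤ (2 * m) ^ 2 := pow_le_pow_left₀ (norm_nonneg _) h6 2
  have h8 : ‖v - u‖ ^ 2 * (2 * X) ≤ ‖v - u‖ ^ 2 * ‖v + u‖ ^ 2 :=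
    mul_le_mul_of_nonneg_left h4 (sq_nonneg _)
  have h9 : ‖v - u‖ ^ 2 * ‖v + u‖ ^ 2 = ‖a - b‖ ^ 2 := by
    rw [← h5]
    ring
  nlinarith

private theorem term_ds (X Y Z W a b c m k R : ℝ) (hX : 0 < X) (hY : 0 < Y) (hZ : 0 < Z) (hXW : X ≤ W)
    (ha : 0 ≤ a) (hb : 0 ≤ b) (hc : 0 ≤ c) (hm : 0 ≤ m) (hk : 0 ≤ k) (hR : 0 ≤ R)
    (h1 : a ^ 2 ≤ 3 / 2 * X) (h2 : b ^ 2 * Y ≤ 2 * m ^ 2) (h3 : c ^ 2 * Z ≤ 2 * k ^ 2)
    (hR2 : R ^ 2 * (X * Y * Z) = W ^ 2) :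
    a * b * c ≤ 8 / 3 * (R * (m * k)) := by
  apply abs_le_of_sq_le_sq' _ (by positivity) |>.2
  have e1 : a ^ 2 * (b ^ 2 * Y) * (c ^ 2 * Z) ≤ 3 / 2 * X * (2 * m ^ 2) * (2 * k ^ 2) := by
    apply mul_le_mul _ h3 (by positivity) (by positivity)
    exact mul_le_mul h1 h2 (by positivity) (by positivity)
  have e2 : (a * b * c) ^ 2 * (X * Y * Z) ≤ 6 * X ^ 2 * (m * k) ^ 2 := by
    calc (a * b * c) ^ 2 * (X * Y * Z) = X * (a ^ 2 * (b ^ 2 * Y) * (c ^ 2 * Z)) := by ring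
      _ ≤ X * (3 / 2 * X * (2 * m ^ 2) * (2 * k ^ 2)) := mul_le_mul_of_nonneg_left e1 hX.le
      _ = 6 * X ^ 2 * (m * k) ^ 2 := by ring
  have e3 : X ^ 2 ≤ W ^ 2 := pow_le_pow_left₀ hX.le hXW 2
  have e4 : 6 * X ^ 2 * (m * k) ^ 2 ≤ (8 / 3 * (R * (m * k))) ^ 2 * (X * Y * Z) := by
    have : (8 / 3 * (R * (m * k))) ^ 2 * (X * Y * Z) = 64 / 9 * (m * k) ^ 2 * (R ^ 2 * (X * Y * Z)) := by ring
    rw [this, hR2]
    have := mul_le_mul_of_nonneg_right e3 (sq_nonneg (m * k))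
    nlinarith [sq_nonneg (X * (m * k))]
  exact le_of_mul_le_mul_right (e2.trans e4) (by positivity)

private theorem core_ds (x : Fin 3 → ℤ) (h0 : 1 ≤ x 0) (h01 : x 0 ≤ x 1) (h12 : x 1 ≤ x 2)
    (u v w : Fin 3 → ℂ) (a b c : ℂ) (hu : ∀ l, u l ^ 2 = (x l : ℂ) - a) (hv : ∀ l, v l ^ 2 = (x l : ℂ) - b)
    (hw : ∀ l, w l ^ 2 = (x l : ℂ) - c) (hu0 : ∀ l, 0 ≤ (u l).re) (hv0 : ∀ l, 0 ≤ (v l).re)
    (hw0 : ∀ l, 0 ≤ (w l).re) (ha : 2 * ‖a‖ ≤ x 0) (hb : 2 * ‖b‖ ≤ x 0) (hc : 2 * ‖c‖ ≤ x 0)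
    (hab : ‖a‖ ≤ ‖b‖) (hac : ‖a‖ ≤ ‖c‖) :
    ‖u 0 * v 1 * w 2 - u 0 * v 2 * w 1 - u 1 * v 0 * w 2 + u 1 * v 2 * w 0 + u 2 * v 0 * w 1 - u 2 * v 1 * w 0‖ ≤
      16 * (Real.sqrt ((x 2 : ℝ) / ((x 0 : ℝ) * x 1)) * (max 1 ‖b‖ * max 1 ‖c‖)) := by
  have g0 : (1 : ℝ) ≤ x 0 := by exact_mod_cast h0
  have g01 : (x 0 : ℝ) ≤ x 1 := by exact_mod_cast h01
  have g12 : (x 1 : ℝ) ≤ x 2 := by exact_mod_cast h12
  have gx : ∀ l, (x 0 : ℝ) ≤ x l ∧ (x l : ℝ) ≤ x 2 := by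
    intro l
    fin_cases l
    · exact ⟨le_rfl, g01.trans g12⟩
    · exact ⟨g01, g12⟩
    · exact ⟨g01.trans g12, le_rfl⟩
  have hu' : ∀ l, u l ^ 2 = (((x l : ℝ)) : ℂ) - a := fun l => by rw [hu l]; push_cast; rfl
  have hv' : ∀ l, v l ^ 2 = (((x l : ℝ)) : ℂ) - b := fun l => by rw [hv l]; push_cast; rfl
  have hw' : ∀ l, w l ^ 2 = (((x l : ℝ)) : ℂ) - c := fun l => by rw [hw l]; push_cast; rfl
  set m : ℝ := max 1 ‖b‖ with hm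
  set k : ℝ := max 1 ‖c‖ with hk
  have hm0 : 0 ≤ m := le_trans zero_le_one (le_max_left _ _)
  have hk0 : 0 ≤ k := le_trans zero_le_one (le_max_left _ _)
  set R : ℝ := Real.sqrt ((x 2 : ℝ) / ((x 0 : ℝ) * x 1)) with hR
  have hR0 : 0 ≤ R := Real.sqrt_nonneg _
  have hx0 : (0 : ℝ) < x 0 := by linarith
  have hx1 : (0 : ℝ) < x 1 := by linarith
  have hx2 : (0 : ℝ) < x 2 := by linarith
  have hR2 : R ^ 2 * ((x 0 : ℝ) * x 1 * x 2) = (x 2 : ℝ) ^ 2 := by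
    rw [hR, Real.sq_sqrt (by positivity)]
    field_simp
  have A : ∀ l, ‖u l‖ ^ 2 ≤ 3 / 2 * (x l : ℝ) := fun l =>
    norm_sq_ds _ a (u l) (by linarith [(gx l).1]) (hu' l) (by linarith [(gx l).1])
  have B : ∀ l, ‖v l - u l‖ ^ 2 * (x l : ℝ) ≤ 2 * m ^ 2 := fun l =>
    diff_ds _ m a b (u l) (v l) (by linarith [(gx l).1]) (hu' l) (hv' l) (by linarith [(gx l).1])
      (by linarith [(gx l).1]) (hu0 l) (hv0 l) hab (le_max_right _ _)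
  have C : ∀ l, ‖w l - u l‖ ^ 2 * (x l : ℝ) ≤ 2 * k ^ 2 := fun l =>
    diff_ds _ k a c (u l) (w l) (by linarith [(gx l).1]) (hu' l) (hw' l) (by linarith [(gx l).1])
      (by linarith [(gx l).1]) (hu0 l) (hw0 l) hac (le_max_right _ _)
  have T : ∀ l l' l'', (x l : ℝ) * x l' * x l'' = (x 0 : ℝ) * x 1 * x 2 →
      ‖u l * (v l' - u l') * (w l'' - u l'')‖ ≤ 8 / 3 * (R * (m * k)) := by
    intro l l' l'' hl
    rw [norm_mul, norm_mul]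
    have p1 := gx l
    have p2 := gx l'
    have p3 := gx l''
    exact term_ds (x l) (x l') (x l'') (x 2) _ _ _ m k R (by linarith) (by linarith) (by linarith) p1.2
      (norm_nonneg _) (norm_nonneg _) (norm_nonneg _) hm0 hk0 hR0 (A l) (B l') (C l'') (by rw [hl]; exact hR2)
  have t1 := T 0 1 2 rfl
  have t2 := T 0 2 1 (by ring)
  have t3 := T 1 0 2 (by ring)
  have t4 := T 1 2 0 (by ring)
  have t5 := T 2 0 1 (by ring)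
  have t6 := T 2 1 0 (by ring)
  have e : u 0 * v 1 * w 2 - u 0 * v 2 * w 1 - u 1 * v 0 * w 2 + u 1 * v 2 * w 0 + u 2 * v 0 * w 1 - u 2 * v 1 * w 0 =
      u 0 * (v 1 - u 1) * (w 2 - u 2) - u 0 * (v 2 - u 2) * (w 1 - u 1) - u 1 * (v 0 - u 0) * (w 2 - u 2) +
      u 1 * (v 2 - u 2) * (w 0 - u 0) + u 2 * (v 0 - u 0) * (w 1 - u 1) - u 2 * (v 1 - u 1) * (w 0 - u 0) := by
    ring
  rw [e]
  refine (norm_sub_le _ _).trans ?_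
  have s1 := norm_add_le (u 0 * (v 1 - u 1) * (w 2 - u 2) - u 0 * (v 2 - u 2) * (w 1 - u 1) - u 1 * (v 0 - u 0) * (w 2 - u 2) +
      u 1 * (v 2 - u 2) * (w 0 - u 0)) (u 2 * (v 0 - u 0) * (w 1 - u 1))
  have s2 := norm_add_le (u 0 * (v 1 - u 1) * (w 2 - u 2) - u 0 * (v 2 - u 2) * (w 1 - u 1) - u 1 * (v 0 - u 0) * (w 2 - u 2))
      (u 1 * (v 2 - u 2) * (w 0 - u 0))
  have s3 := norm_sub_le (u 0 * (v 1 - u 1) * (w 2 - u 2) - u 0 * (v 2 - u 2) * (w 1 - u 1)) (u 1 * (v 0 - u 0) * (w 2 - u 2))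
  have s4 := norm_sub_le (u 0 * (v 1 - u 1) * (w 2 - u 2)) (u 0 * (v 2 - u 2) * (w 1 - u 1))
  linarith

theorem det_size (θ : Fin 3 → ℂ) (x : Fin 3 → ℤ) (h0 : 1 ≤ x 0) (h01 : x 0 ≤ x 1) (h12 : x 1 ≤ x 2)
    (hθ : ∀ t, 2 * ‖θ t‖ ≤ x 0) (e : Fin 3 → Fin 3 → ℂ)
    (he : ∀ l t, e l t ^ 2 = (x l : ℂ) - θ t ∧ 0 ≤ (e l t).re) :
    ‖(Matrix.of e).det‖ ≤ 16 * Real.sqrt ((x 2 : ℝ) / ((x 0 : ℝ) * x 1)) * ∏ t, max 1 ‖θ t‖ := by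
  have K : ∀ p q r : Fin 3, ‖θ p‖ ≤ ‖θ q‖ → ‖θ p‖ ≤ ‖θ r‖ →
      ‖e 0 p * e 1 q * e 2 r - e 0 p * e 2 q * e 1 r - e 1 p * e 0 q * e 2 r + e 1 p * e 2 q * e 0 r +
        e 2 p * e 0 q * e 1 r - e 2 p * e 1 q * e 0 r‖ ≤
      16 * (Real.sqrt ((x 2 : ℝ) / ((x 0 : ℝ) * x 1)) * (max 1 ‖θ q‖ * max 1 ‖θ r‖)) := by
    intro p q r h1 h2
    exact core_ds x h0 h01 h12 (fun l => e l p) (fun l => e l q) (fun l => e l r) (θ p) (θ q) (θ r)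
      (fun l => (he l p).1) (fun l => (he l q).1) (fun l => (he l r).1) (fun l => (he l p).2) (fun l => (he l q).2)
      (fun l => (he l r).2) (hθ p) (hθ q) (hθ r) h1 h2
  have M : ∀ p q r : Fin 3, 16 * (Real.sqrt ((x 2 : ℝ) / ((x 0 : ℝ) * x 1)) * (max 1 ‖θ q‖ * max 1 ‖θ r‖)) ≤
      16 * Real.sqrt ((x 2 : ℝ) / ((x 0 : ℝ) * x 1)) * (max 1 ‖θ p‖ * (max 1 ‖θ q‖ * max 1 ‖θ r‖)) := by
    intro p q r
    have h1 : (1 : ℝ) ≤ max 1 ‖θ p‖ := le_max_left _ _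
    have h2 : 0 ≤ max 1 ‖θ q‖ * max 1 ‖θ r‖ := by positivity
    have h3 := mul_le_mul_of_nonneg_right h1 h2
    have h4 := mul_le_mul_of_nonneg_left h3
      (by positivity : 0 ≤ 16 * Real.sqrt ((x 2 : ℝ) / ((x 0 : ℝ) * x 1)))
    linarith
  rw [Fin.prod_univ_three, Matrix.det_fin_three]
  simp only [Matrix.of_apply]
  rcases le_total ‖θ 0‖ ‖θ 1‖ with h1 | h1
  · rcases le_total ‖θ 0‖ ‖θ 2‖ with h2 | h2
    · refine le_trans (le_of_eq ?_) ((K 0 1 2 h1 h2).trans ((M 0 1 2).trans (le_of_eq ?_)))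
      · congr 1; ring
      · ring
    · refine le_trans (le_of_eq ?_) ((K 2 0 1 h2 (h2.trans h1)).trans ((M 2 0 1).trans (le_of_eq ?_)))
      · congr 1; ring
      · ring
  · rcases le_total ‖θ 1‖ ‖θ 2‖ with h2 | h2
    · refine le_trans (le_of_eq ?_) ((K 1 2 0 h2 h1).trans ((M 1 2 0).trans (le_of_eq ?_)))
      · congr 1; ring
      · ring
    · refine le_trans (le_of_eq ?_) ((K 2 0 1 (h2.trans h1) h2).trans ((M 2 0 1).trans (le_of_eq ?_)))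
      · congr 1; ring
      · ring

end Pool.Agent.Helper32.FM
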