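import Pool.Agent.Helper32.DZ.CellEvenS
import Pool.Agent.Helper32.FM.Defs

set_option autoImplicit false

/-!
FM-E2a EvenCellRed. Reduction of a given pair of even size (`cell_even_s` without the point).

PROOF. Copy `cell_even_s` (Helper32/DZ/CellEvenS.lean) with the given `A0`, `B0` instead of the pair of `pencil_s`; `A0.det = ± a_n` follows
from `pen A0 B0 = ± pol a` (compare the coefficients of `X^(m+1)`; or evaluate: `A0.det` is the leading coefficient of the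
pencil determinant: Mathlib `Matrix.leadingCoeff_det_X_one_add_C`-type lemmas `Polynomial.coeff_det_X_add_C_card`:
`(det (X • A.map C + B.map C)).coeff (card n) = A.det`). The condition `PropA` at the translates is not part of this statement (it is a
hypothesis of `even_classes` for all `g`).
-/

open Polynomial Matrix Pool.Agent.Helper32.DZ

namespace Pool.Agent.Helper32.FM

private theorem ces_ev {N : ℕ} (G M : Matrix (Fin N) (Fin N) ℝ) (u w : Fin N → ℝ) :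
    ev (Gᵀ * M * G) u w = ev M (G.mulVec u) (G.mulVec w) := by
  unfold ev
  rw [← Matrix.mulVec_mulVec, ← Matrix.mulVec_mulVec, Matrix.dotProduct_mulVec,
    Matrix.vecMul_transpose]

private theorem ces_toR {N : ℕ} (g A : Matrix (Fin N) (Fin N) ℤ) :
    toR (gᵀ * A * g) = (toR g)ᵀ * toR A * toR g := by
  have hmul : ∀ A B : Matrix (Fin N) (Fin N) ℤ, toR (A * B) = toR A * toR B := by
    intro A B
    exact Matrix.map_mul (f := Int.castRingHom ℝ)
  rw [hmul, hmul]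
  rfl

private theorem ces_det {N : ℕ} (g : Matrix (Fin N) (Fin N) ℤ) :
    (toR g).det = ((g.det : ℤ) : ℝ) :=
  (RingHom.map_det (Int.castRingHom ℝ) g).symm

private theorem ces_pos {N : ℕ} (g : Matrix (Fin N) (Fin N) ℤ) (hg : g.det = 1 ∨ g.det = -1)
    (Φ : Matrix (Fin N) (Fin N) ℝ) (hΦ : Φ.PosDef) : ((toR g)ᵀ * Φ * toR g).PosDef := by
  have hinj : Function.Injective (toR g).mulVec := by
    refine Matrix.mulVec_injective_iff_isUnit.2 ?_
    rw [Matrix.isUnit_iff_isUnit_det, ces_det, isUnit_iff_ne_zero]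
    rcases hg with h | h
    · rw [h]
      simp
    · rw [h]
      simp
  have h := hΦ.conjTranspose_mul_mul_same hinj
  rwa [Matrix.conjTranspose_eq_transpose_of_trivial] at h

private theorem ecr_lead {N : ℕ} (A B : Matrix (Fin N) (Fin N) ℤ) : (pen A B).coeff N = A.det := by
  have h := Polynomial.coeff_det_X_add_C_card A (-B)
  rw [Fintype.card_fin] at h
  rw [← h]
  unfold pen
  congr 2
  ext1 i j
  simp only [Matrix.sub_apply, Matrix.add_apply, Matrix.smul_apply, Matrix.map_apply, Matrix.neg_apply,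
    map_neg]
  ring

private theorem ecr_pol {n : ℕ} (a : Fin (n + 1) → ℤ) : (pol a).coeff n = a (Fin.last n) := by
  unfold pol
  rw [Polynomial.finsetSum_coeff, Finset.sum_eq_single (Fin.last n)]
  · rw [Polynomial.coeff_C_mul_X_pow, if_pos (by simp)]
  · intro i _ hi
    rw [Polynomial.coeff_C_mul_X_pow, if_neg]
    intro h1
    exact hi (Fin.ext (by simpa using h1.symm))
  · intro h1
    exact absurd (Finset.mem_univ _) h1

theorem even_cell_red (m : ℕ) (hm : Odd m) : ∃ K : ℝ, 1 ≤ K ∧ ∀ H : ℕ, 1 ≤ H →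
    ∀ a : Fin (m + 1 + 1) → ℤ, (∀ i, |a i| ≤ (H : ℤ)) → Good a →
    ∀ A0 B0 : Matrix (Fin (m + 1)) (Fin (m + 1)) ℤ, A0.IsSymm → B0.IsSymm →
    pen A0 B0 = C ((-1) ^ ((m + 1) / 2)) * pol a →
    ∃ (g : Matrix (Fin (m + 1)) (Fin (m + 1)) ℤ) (κ : Fin (m + 1) → ℤ), (g.det = 1 ∨ g.det = -1) ∧
      PG (gᵀ * A0 * g) (gᵀ * B0 * g) ∧ Monotone κ ∧ (2 : ℝ) ^ (2 * ∑ i, κ i) ≤ K * H ∧
      ∀ U ∈ Tr κ, ∀ i j, |(((Uᵀ * (gᵀ * A0 * g) * U) i j : ℤ) : ℝ)| < (2 : ℝ) ^ (κ i + κ j) ∧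
          |(((Uᵀ * (gᵀ * B0 * g) * U) i j : ℤ) : ℝ)| < (2 : ℝ) ^ (κ i + κ j) := by
  obtain ⟨C1, hC1, hs⟩ := herm_sort (m + 1)
  have hb1 : (1 : ℝ) ≤ 4 * ((m + 1 : ℕ) : ℝ) := by
    push_cast
    have : (0 : ℝ) ≤ (m : ℝ) := Nat.cast_nonneg m
    linarith
  have hb2 : (1 : ℝ) ≤ (4 * ((m + 1 : ℕ) : ℝ)) ^ (2 * (m + 1)) := one_le_pow₀ hb1
  have hb3 : (1 : ℝ) ≤ (m : ℝ) + 2 := by
    have : (0 : ℝ) ≤ (m : ℝ) := Nat.cast_nonneg m
    linarith
  refine ⟨(4 * ((m + 1 : ℕ) : ℝ)) ^ (2 * (m + 1)) * (C1 * ((m : ℝ) + 2)), ?_, ?_⟩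
  · have h1 : (1 : ℝ) ≤ C1 * ((m : ℝ) + 2) := by nlinarith
    nlinarith
  intro H hH a haH hgood A0 B0 hA0 hB0 hpen
  have hdet : A0.det = (-1) ^ ((m + 1) / 2) * a (Fin.last (m + 1)) := by
    have h1 := congrArg (fun f : ℤ[X] => f.coeff (m + 1)) hpen
    rw [ecr_lead, Polynomial.coeff_C_mul, ecr_pol] at h1
    exact h1
  have hd0 : A0.det ≠ 0 := by
    rw [hdet]
    exact mul_ne_zero (pow_ne_zero _ (by norm_num)) hgood.1
  have hPG0 : PG A0 B0 := pg_of_pen a hgood A0 B0 hA0 hB0 hd0 _ hpen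
  obtain ⟨hl, e, he, hev⟩ := hgood
  have hr : ∀ i, (e i • A0.map (Int.cast : ℤ → ℂ) - B0.map (Int.cast : ℤ → ℂ)).det = 0 := by
    intro i
    rw [← pen_eval, hpen, map_mul, pol_eval, hev (e i),
      Finset.prod_eq_zero (Finset.mem_univ i) (sub_self _), mul_zero, mul_zero]
  obtain ⟨Φ0, hΦ0, hΦd, hΦP, hΦR⟩ := real_form A0 B0 hA0 hB0 hd0 e he hr
    (roots_conj a hl e hev) (fun z => max 1 ‖z‖) (fun z => le_max_left _ _)
    (fun z => by simp) 1 (fun i => by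
      rw [one_mul]
      exact le_max_right _ _)
  obtain ⟨g, hgd, hgp, hgm⟩ := hs Φ0 hΦ0
  have hP' : ∀ u w, (ev (toR (gᵀ * A0 * g)) u w) ^ 2 ≤
      ev ((toR g)ᵀ * Φ0 * toR g) u u * ev ((toR g)ᵀ * Φ0 * toR g) w w := by
    intro u w
    rw [ces_toR, ces_ev, ces_ev, ces_ev]
    exact hΦP _ _
  have hR' : ∀ u w, (ev (toR (gᵀ * B0 * g)) u w) ^ 2 ≤ (1 : ℝ) ^ 2 *
      (ev ((toR g)ᵀ * Φ0 * toR g) u u * ev ((toR g)ᵀ * Φ0 * toR g) w w) := by
    intro u w
    rw [ces_toR, ces_ev, ces_ev, ces_ev]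
    exact hΦR _ _
  obtain ⟨κ, hκm, hκs, hκU⟩ := cell_gen (gᵀ * A0 * g) (gᵀ * B0 * g)
    ((toR g)ᵀ * Φ0 * toR g) (ces_pos g hgd Φ0 hΦ0) 1 one_pos hP' hR' hgm
  have hg2 : g.det ^ 2 = 1 := by
    rcases hgd with h | h
    · rw [h]
      norm_num
    · rw [h]
      norm_num
  refine ⟨g, κ, hgd, pg_conj A0 B0 g hPG0 hgd, hκm, ?_, ?_⟩
  · refine hκs.trans ?_
    rw [mul_assoc _ (C1 * ((m : ℝ) + 2)) (H : ℝ)]
    refine mul_le_mul_of_nonneg_left ?_ (zero_le_one.trans hb2)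
    refine hgp.trans ?_
    rw [mul_assoc C1 ((m : ℝ) + 2) (H : ℝ)]
    refine mul_le_mul_of_nonneg_left ?_ (zero_le_one.trans hC1)
    have h1 : |((A0.det : ℤ) : ℝ)| = |((a (Fin.last (m + 1)) : ℤ) : ℝ)| := by
      rw [hdet]
      push_cast
      rw [abs_mul, abs_pow, abs_neg, abs_one, one_pow, one_mul]
    rw [hΦd, h1]
    refine (roots_mahler a hl e hev).trans ?_
    calc ∑ i, |((a i : ℤ) : ℝ)| ≤ ∑ _i : Fin (m + 1 + 1), (H : ℝ) := by
          refine Finset.sum_le_sum fun i _ => ?_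
          have h2 := haH i
          have h3 : ((|a i| : ℤ) : ℝ) ≤ ((H : ℤ) : ℝ) := by exact_mod_cast h2
          rw [Int.cast_abs] at h3
          exact_mod_cast h3
      _ = ((m : ℝ) + 2) * H := by
          rw [Finset.sum_const, Finset.card_univ, Fintype.card_fin, nsmul_eq_mul]
          push_cast
          ring
  · intro U hU i j
    have h1 := hκU U hU i j
    rwa [one_mul] at h1

end Pool.Agent.Helper32.FM
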