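import Pool.Agent.Helper32.FM.EvenCellI
import Pool.Agent.Helper32.FM.EvenCellRed
import Pool.Agent.Helper38.DZR.EvenTotalR

set_option autoImplicit false

/-!
FM-E2 EvenClasses. The number of inequivalent pairs of even size `m + 1` with determinant form in the box.

PROOF. As `even_main_r` (Helper38/DZR/EvenMainR.lean), with the finite set `F` of indices instead of the set of tuples: `even_cell_red`
(constant `K1`) and `choose` give for `i ∈ F`: `g i`, `κ i`; `A i = (g i)^t (A0 i) (g i)`, `B i` similarly.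
`c κ0 = #{i ∈ F | κ i = κ0}`, `CellI m 1 κ0 _ A B`: `PropA 1` for the translates by the hypothesis with `g i * U`
(`det U = 1` by `ut_det`); injectivity: `U^t A_i U = V^t A_j V`, `U^t B_i U = V^t B_j V` give `A0 j = h^t (A0 i) h`, `B0 j = h^t (B0 i) h` with
`h = (g i) U V⁻¹ (g j)⁻¹` integral, `det = ± 1` (inverses: `adjugate` times `det`; `V⁻¹ = V.adjugate`, `(g j)⁻¹ = ± (g j).adjugate`), so `i = j`.
Then `even_cell_i`, `even_total_r` with `Y = K1 H` as in `even_main_r`. If `F` is empty the bound is trivial.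
-/

open Polynomial Matrix Pool.Agent.Helper32.DZ

namespace Pool.Agent.Helper32.FM

private theorem classes_conj {N : ℕ} (P Q Q' A1 A2 : Matrix (Fin N) (Fin N) ℤ) (hQ : Q * Q' = 1)
    (h : Pᵀ * A1 * P = Qᵀ * A2 * Q) : A2 = (P * Q')ᵀ * A1 * (P * Q') := by
  have h1 : (P * Q')ᵀ * A1 * (P * Q') = Q'ᵀ * (Pᵀ * A1 * P) * Q' := by
    rw [Matrix.transpose_mul]
    simp only [Matrix.mul_assoc]
  have h2 : Q'ᵀ * Qᵀ = 1 := by
    rw [← Matrix.transpose_mul, hQ, Matrix.transpose_one]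
  rw [h1, h]
  calc A2 = (Q'ᵀ * Qᵀ) * A2 * (Q * Q') := by rw [h2, hQ, Matrix.one_mul, Matrix.mul_one]
    _ = Q'ᵀ * (Qᵀ * A2 * Q) * Q' := by simp only [Matrix.mul_assoc]

private theorem classes_inj {N : ℕ} {P : Prop} (g1 g2 U V A1 A2 B1 B2 : Matrix (Fin N) (Fin N) ℤ)
    (h1 : g1.det = 1 ∨ g1.det = -1) (h2 : g2.det = 1 ∨ g2.det = -1) (hU : U.det = 1)
    (hV : V.det = 1) (hA : Uᵀ * (g1ᵀ * A1 * g1) * U = Vᵀ * (g2ᵀ * A2 * g2) * V)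
    (hB : Uᵀ * (g1ᵀ * B1 * g1) * U = Vᵀ * (g2ᵀ * B2 * g2) * V)
    (hP : ∀ g : Matrix (Fin N) (Fin N) ℤ, (g.det = 1 ∨ g.det = -1) → A2 = gᵀ * A1 * g →
      B2 = gᵀ * B1 * g → P) : P := by
  have hQd : (g2 * V).det = 1 ∨ (g2 * V).det = -1 := by
    rw [Matrix.det_mul, hV, mul_one]
    exact h2
  have hQu : IsUnit (g2 * V).det := by
    rcases hQd with h | h <;> rw [h]
    · exact isUnit_one
    · exact isUnit_one.neg
  have hQ : (g2 * V) * (g2 * V)⁻¹ = 1 := Matrix.mul_nonsing_inv _ hQu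
  have hd : ((g2 * V)⁻¹).det = 1 ∨ ((g2 * V)⁻¹).det = -1 := by
    have h3 : IsUnit ((g2 * V)⁻¹).det := by
      have h4 : (g2 * V).det * ((g2 * V)⁻¹).det = 1 := by
        rw [← Matrix.det_mul, hQ, Matrix.det_one]
      exact IsUnit.of_mul_eq_one_right _ h4
    exact Int.isUnit_iff.1 h3
  have e1 : ∀ (W X Y : Matrix (Fin N) (Fin N) ℤ), Wᵀ * (Xᵀ * Y * X) * W = (X * W)ᵀ * Y * (X * W) := by
    intro W X Y
    rw [Matrix.transpose_mul]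
    simp only [Matrix.mul_assoc]
  rw [e1, e1] at hA hB
  refine hP (g1 * U * (g2 * V)⁻¹) ?_ (classes_conj _ _ _ _ _ hQ hA) (classes_conj _ _ _ _ _ hQ hB)
  rw [Matrix.det_mul, Matrix.det_mul, hU, mul_one]
  rcases h1 with h | h <;> rcases hd with h' | h' <;> rw [h, h'] <;> simp

theorem even_classes (m : ℕ) (hm : Odd m) : ∃ C : ℝ, 1 ≤ C ∧ ∀ H : ℕ, 2 ≤ H →
    ∀ (ι : Type) (F : Finset ι) (tup : ι → Fin (m + 1 + 1) → ℤ)
      (A B : ι → Matrix (Fin (m + 1)) (Fin (m + 1)) ℤ),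
      (∀ i ∈ F, (∀ k, |tup i k| ≤ (H : ℤ)) ∧ Good (tup i) ∧ (A i).IsSymm ∧ (B i).IsSymm ∧
        pen (A i) (B i) = Polynomial.C ((-1) ^ ((m + 1) / 2)) * pol (tup i) ∧
        ∀ g : Matrix (Fin (m + 1)) (Fin (m + 1)) ℤ, (g.det = 1 ∨ g.det = -1) →
          PropA 1 ((-1) ^ ((m + 1) / 2 - 1)) (gᵀ * A i * g)) →
      (∀ i ∈ F, ∀ j ∈ F, ∀ g : Matrix (Fin (m + 1)) (Fin (m + 1)) ℤ, (g.det = 1 ∨ g.det = -1) →
        A j = gᵀ * A i * g → B j = gᵀ * B i * g → i = j) →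
      (F.card : ℝ) ≤ C * (H : ℝ) ^ (m + 2) * (Real.log H) ^ (-(1 / 64 : ℝ)) := by
  classical
  obtain ⟨K1, hK1, hcell⟩ := even_cell_red m hm
  obtain ⟨K2, hK2, hbd⟩ := even_cell_i m hm 1 one_ne_zero
  obtain ⟨C3, hC3, htot⟩ := Pool.Agent.Helper38.DZR.even_total_r m K2 hK2
  have hK1p : 0 < K1 := by linarith
  refine ⟨C3 * K1 ^ (m + 2), ?_, fun H hH ι Fs tup A0 B0 hF hinj => ?_⟩
  · have h1 : (1 : ℝ) ≤ K1 ^ (m + 2) := one_le_pow₀ hK1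
    nlinarith
  have hH1 : 1 ≤ H := by omega
  have hH2 : (2 : ℝ) ≤ (H : ℝ) := by exact_mod_cast hH
  have hch : ∀ i : ι, ∃ (g : Matrix (Fin (m + 1)) (Fin (m + 1)) ℤ) (κ : Fin (m + 1) → ℤ),
      i ∈ Fs → (g.det = 1 ∨ g.det = -1) ∧
      PG (gᵀ * A0 i * g) (gᵀ * B0 i * g) ∧ Monotone κ ∧ (2 : ℝ) ^ (2 * ∑ i, κ i) ≤ K1 * H ∧
      ∀ U ∈ Tr κ, ∀ k l, |(((Uᵀ * (gᵀ * A0 i * g) * U) k l : ℤ) : ℝ)| < (2 : ℝ) ^ (κ k + κ l) ∧
          |(((Uᵀ * (gᵀ * B0 i * g) * U) k l : ℤ) : ℝ)| < (2 : ℝ) ^ (κ k + κ l) := by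
    intro i
    by_cases hi : i ∈ Fs
    · obtain ⟨h1, h2, h3, h4, h5, -⟩ := hF i hi
      obtain ⟨g, κ, h⟩ := hcell H hH1 (tup i) h1 h2 (A0 i) (B0 i) h3 h4 h5
      exact ⟨g, κ, fun _ => h⟩
    · exact ⟨0, 0, fun h => absurd h hi⟩
  choose g κ hAB using hch
  obtain ⟨A, hA⟩ : ∃ A : ι → Matrix (Fin (m + 1)) (Fin (m + 1)) ℤ,
      A = fun i => (g i)ᵀ * A0 i * g i := ⟨_, rfl⟩
  obtain ⟨B, hB⟩ : ∃ B : ι → Matrix (Fin (m + 1)) (Fin (m + 1)) ℤ,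
      B = fun i => (g i)ᵀ * B0 i * g i := ⟨_, rfl⟩
  have hAi : ∀ i, A i = (g i)ᵀ * A0 i * g i := fun i => by rw [hA]
  have hBi : ∀ i, B i = (g i)ᵀ * B0 i * g i := fun i => by rw [hB]
  obtain ⟨c, hc⟩ : ∃ c : (Fin (m + 1) → ℤ) → ℝ,
      c = fun κ0 => ((Fs.filter fun a => κ a = κ0).card : ℝ) := ⟨_, rfl⟩
  have hcell2 : ∀ κ0 ∈ Fs.image κ, CellI m 1 κ0 (↑(Fs.filter fun a => κ a = κ0)) A B ∧
      (2 : ℝ) ^ (2 * ∑ i, κ0 i) ≤ K1 * H ∧ (Fs.filter fun a => κ a = κ0).Nonempty := by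
    intro κ0 hκ0
    obtain ⟨a0, ha0, rfl⟩ := Finset.mem_image.1 hκ0
    obtain ⟨-, -, g4, g5, -⟩ := hAB a0 ha0
    refine ⟨⟨g4, ?_, ?_⟩, g5, ⟨a0, Finset.mem_filter.2 ⟨ha0, rfl⟩⟩⟩
    · intro i hi j hj U hU V hV h1 h2
      rw [Finset.mem_coe, Finset.mem_filter] at hi hj
      rw [hAi, hAi] at h1
      rw [hBi, hBi] at h2
      exact classes_inj (g i) (g j) U V (A0 i) (A0 j) (B0 i) (B0 j) (hAB i hi.1).1 (hAB j hj.1).1
        (ut_det U hU.1) (ut_det V hV.1) h1 h2 (fun h hd e1 e2 => hinj i hi.1 j hj.1 h hd e1 e2)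
    · intro a ha
      rw [Finset.mem_coe, Finset.mem_filter] at ha
      obtain ⟨f1, f2, -, -, f6⟩ := hAB a ha.1
      rw [hAi, hBi]
      refine ⟨f2, fun U hU => ⟨?_, ?_⟩⟩
      · have h1 : Uᵀ * ((g a)ᵀ * A0 a * g a) * U = (g a * U)ᵀ * A0 a * (g a * U) := by
          rw [Matrix.transpose_mul]
          simp only [Matrix.mul_assoc]
        rw [h1]
        refine (hF a ha.1).2.2.2.2.2 _ ?_
        rw [Matrix.det_mul, ut_det U hU.1, mul_one]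
        exact f1
      · rw [ha.2] at f6
        exact f6 U hU
  have hsum : (Fs.card : ℝ) = ∑ κ0 ∈ Fs.image κ, c κ0 := by
    rw [Finset.card_eq_sum_card_image κ Fs, hc]
    push_cast
    rfl
  have hcd : ∀ κ0 ∈ Fs.image κ, 1 ≤ ∑ i, κ0 i ∧
      c κ0 ≤ K2 * ((2 : ℝ) ^ (2 * ∑ i, κ0 i)) ^ (m + 2) *
        (3 / 4 : ℝ) ^ (κ0 (Fin.last m) - κ0 0) ∧
      ∀ N : ℝ, 2 ≤ N → N ≤ (2 : ℝ) ^ (2 * κ0 0) →
        c κ0 ≤ K2 * ((2 : ℝ) ^ (2 * ∑ i, κ0 i)) ^ (m + 2) * (Real.log N) ^ (-(1 / 16 : ℝ)) := by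
    intro κ0 h0
    obtain ⟨g1, g2, g3⟩ := hcell2 κ0 h0
    have h := hbd ι κ0 _ (Finset.finite_toSet _) (Finset.coe_nonempty.2 g3) A B g1
    rw [Set.ncard_coe_finset] at h
    rw [hc]
    exact h
  have hKH : 2 ≤ K1 * H := by nlinarith
  have hmain := htot (K1 * H) hKH (Fs.image κ) c
    (fun κ0 _ => by
      rw [hc]
      exact Nat.cast_nonneg _)
    (fun κ0 h0 => ⟨(hcell2 κ0 h0).1.1, (hcd κ0 h0).1, (hcell2 κ0 h0).2.1⟩)
    (fun κ0 h0 => (hcd κ0 h0).2.1) (fun κ0 h0 => (hcd κ0 h0).2.2)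
  rw [hsum]
  refine hmain.trans ?_
  have hlog : (Real.log (K1 * H)) ^ (-(1 / 64 : ℝ)) ≤ (Real.log H) ^ (-(1 / 64 : ℝ)) := by
    refine Real.antitoneOn_rpow_Ioi_of_exponent_nonpos (by norm_num)
      (Real.log_pos (by linarith)) (Real.log_pos (by linarith)) ?_
    exact Real.log_le_log (by linarith) (by nlinarith)
  have h1 : C3 * (K1 * (H : ℝ)) ^ (m + 2) = C3 * K1 ^ (m + 2) * (H : ℝ) ^ (m + 2) := by
    rw [mul_pow]
    ring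
  rw [h1]
  exact mul_le_mul_of_nonneg_left hlog (by positivity)

end Pool.Agent.Helper32.FM
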