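import Pool.Agent.Helper32.FM.Size

set_option autoImplicit false

/-!
FM-P4 Gal. The Galois action on the square roots of two points of one strong class; norms of integers are `≥ 1`.

Notation: `A = |a_d|`, `E l t = √A * e l t` (`l = 0, 1`, `t : Fin d`), so `(E l t)^2 = A (x l - θ t)`.

PROOF. (1) `E l t`, and `A θ t`, are integral over `ℤ`: `a_d θ t` is integral (root of the monic polynomial
`a_d^(d-1) f(X/a_d)`; Mathlib: `RingOfIntegers`-free lemma `isIntegral_leadingCoeff_smul`: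
`IsIntegral R (f.leadingCoeff • x)` for a root `x` of `f`), `A = ± a_d`, and `IsIntegral.of_pow` / `IsIntegral.of_pow (by norm_num)`
for the square root.
(2) Let `h ∈ ℚ[X]` be the product of `f`, `f.comp (C x_0 - C A⁻¹ X^2)`, `f.comp (C x_1 - C A⁻¹ X^2)`, all `≠ 0`. Its complex roots are
the `θ t` and the `± E l t` (`x_l - z^2/A = θ t` iff `z^2 = A (x_l - θ t) = (E l t)^2` iff `z = ± E l t`). Let
`L = IntermediateField.adjoin ℚ (h.rootSet ℂ)`: a splitting field of `h` (`IntermediateField.adjoin_rootSet_isSplittingField`,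
`IsAlgClosed.splits`), so `FiniteDimensional ℚ L` and `IsGalois ℚ L` (`IsGalois.of_separable_splitting_field` needs a separable
polynomial; or `Normal` by `Normal.of_isSplittingField` + characteristic zero). `G = (L ≃ₐ[ℚ] L)` (`Fintype`).
(3) For `σ ∈ G`: `σ (θ t) = θ (π σ t)` with a permutation `π σ` (roots of `f`, injective because `θ`, `σ` are injective; `Fin d` finite).
`σ (E 0 t)^2 = A (x_0 - θ (π t)) = (E 0 (π t))^2`, so `σ (E 0 t) = χ E 0 (π t)`, `χ = χ σ t = ±1`. From `SRel`: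
`E 0 t * E 1 t = A q(θ t)`, so `σ (E 0 t) σ (E 1 t) = A q(θ (π t)) = E 0 (π t) E 1 (π t)`; as `E 0 (π t) ≠ 0` and `χ^2 = 1`:
`σ (E 1 t) = χ E 1 (π t)` with THE SAME sign.
(4) `σ ↦ (π σ, χ σ ·)` is injective (`σ` is determined by its values on the roots of `h`, `IntermediateField.adjoin` /
`AlgEquiv` ext on the adjoined set), and there are at most `d! 2^d` pairs (permutations × sign functions).
(5) Norm: for `P : MvPolynomial (Fin 2 × Fin d) ℤ` the number `z = P(E)` is in `L` and integral over `ℤ`; `z ≠ 0`;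
`Algebra.norm ℚ z` is a nonzero rational number integral over `ℤ`, hence a nonzero integer, so `|norm| ≥ 1`; and
`norm z = ∏_(σ ∈ G) σ z` (`Algebra.norm_eq_prod_automorphisms`), `σ z = P(σ E) = P(χ E ∘ π)`.
-/

open Polynomial

namespace Pool.Agent.Helper32.FM

/-- `√|a|` squared -/
theorem sa_sq {d : ℕ} (a : Fin (d + 1) → ℤ) :
    ((sa a : ℝ) : ℂ) ^ 2 = ((|a (Fin.last d)| : ℤ) : ℂ) := by
  have h : sa a ^ 2 = ((|a (Fin.last d)| : ℤ) : ℝ) := by
    unfold sa
    rw [Real.sq_sqrt (abs_nonneg _)]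
    push_cast
    rfl
  rw [← Complex.ofReal_pow, h]
  exact Complex.ofReal_intCast _

/-- integers of the form `P(E)` -/
theorem aeval_integral {L ι : Type} [Field L] (E : ι → L) (hE : ∀ i, IsIntegral ℤ (E i))
    (P : MvPolynomial ι ℤ) : IsIntegral ℤ (MvPolynomial.aeval E P) := by
  induction P using MvPolynomial.induction_on with
  | C c => rw [MvPolynomial.aeval_C]; exact isIntegral_algebraMap
  | add p q hp hq => rw [map_add]; exact hp.add hq
  | mul_X p i hp => rw [map_mul, MvPolynomial.aeval_X]; exact hp.mul (hE i)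

/-- the norm of a nonzero algebraic integer -/
theorem norm_ge {L : IntermediateField ℚ ℂ} [FiniteDimensional ℚ L] [IsGalois ℚ L] (z : L) (hz : IsIntegral ℤ z) (h0 : z ≠ 0) :
    1 ≤ ∏ g : L ≃ₐ[ℚ] L, ‖((g z : L) : ℂ)‖ := by
  have h1 := Algebra.isIntegral_norm ℚ hz
  obtain ⟨y, hy⟩ := (IsIntegrallyClosed.isIntegral_iff (R := ℤ) (K := ℚ)).1 h1
  have h2 := Algebra.norm_eq_prod_automorphisms ℚ z
  have h3 : (((Algebra.norm ℚ z : ℚ)) : ℂ) = ∏ g : L ≃ₐ[ℚ] L, ((g z : L) : ℂ) := by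
    have h4 := congrArg (fun w : L => (w : ℂ)) h2
    rw [← show (((algebraMap ℚ L) (Algebra.norm ℚ z) : L) : ℂ) = ((Algebra.norm ℚ z : ℚ) : ℂ) from rfl,
      h4]
    have h5 : ∀ (f : (L ≃ₐ[ℚ] L) → L), ((∏ g, f g : L) : ℂ) = ∏ g, (f g : ℂ) := fun f =>
      map_prod L.val f Finset.univ
    exact h5 _
  have h6 : y ≠ 0 := by
    rintro rfl
    rw [map_zero] at hy
    exact (Algebra.norm_ne_zero_iff.2 h0) hy.symm
  have h7 : ∏ g : L ≃ₐ[ℚ] L, ‖((g z : L) : ℂ)‖ = |(y : ℝ)| := by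
    rw [← norm_prod, ← h3, ← hy]
    simp
  rw [h7]
  have h8 : (1 : ℤ) ≤ |y| := Int.one_le_abs h6
  exact_mod_cast h8

theorem gal {d H : ℕ} {a : Fin (d + 1) → ℤ} {θ : Fin d → ℂ} (hR : Roots H a θ) (x : Fin 2 → ℤ)
    (e : Fin 2 → Fin d → ℂ) (he : ∀ l, IsE θ (x l) (e l)) (hs : SRel θ (e 0) (e 1))
    (hne : ∀ l t, e l t ≠ 0) :
    ∃ (G : Type) (_ : Fintype G) (π : G → Equiv.Perm (Fin d)) (χ : G → Fin d → ℤ), Nonempty G ∧
      Fintype.card G ≤ 2 ^ d * d.factorial ∧ (∀ g t, χ g t = 1 ∨ χ g t = -1) ∧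
      ∀ P : MvPolynomial (Fin 2 × Fin d) ℤ,
        MvPolynomial.aeval (fun i : Fin 2 × Fin d => (sa a : ℂ) * e i.1 i.2) P ≠ 0 →
        1 ≤ ∏ g : G, ‖MvPolynomial.aeval (fun i : Fin 2 × Fin d =>
          ((χ g i.2 : ℤ) : ℂ) * ((sa a : ℂ) * e i.1 (π g i.2))) P‖ := by
  classical
  set A : ℤ := |a (Fin.last d)| with hA
  have hA0 : A ≠ 0 := abs_ne_zero.2 hR.lead
  have hAC : (A : ℂ) ≠ 0 := by exact_mod_cast hA0
  have hsa := sa_sq a
  rw [← hA] at hsa
  have hsa0 : ((sa a : ℝ) : ℂ) ≠ 0 := by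
    intro h
    rw [h] at hsa
    exact hAC (by rw [← hsa]; ring)
  set E : Fin 2 → Fin d → ℂ := fun l t => (sa a : ℂ) * e l t with hEdef
  have hE2 : ∀ l t, E l t ^ 2 = (A : ℂ) * ((x l : ℂ) - θ t) := by
    intro l t
    rw [hEdef]
    simp only
    rw [mul_pow, hsa, (he l t).1]
  have hE0 : ∀ l t, E l t ≠ 0 := fun l t => mul_ne_zero hsa0 (hne l t)
  obtain ⟨q, hq⟩ := hs
  have hEE : ∀ t, E 0 t * E 1 t = (A : ℂ) * aeval (θ t) q := by
    intro t
    rw [← hq t, ← hsa, hEdef]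
    ring
  -- the polynomials
  set f : ℚ[X] := ∑ i, C (a i : ℚ) * X ^ (i : ℕ) with hf
  have hfe : ∀ z : ℂ, aeval z f = (a (Fin.last d) : ℂ) * ∏ i, (z - θ i) := by
    intro z
    rw [← hR.eval z, hf, map_sum]
    refine Finset.sum_congr rfl fun i _ => ?_
    rw [map_mul, map_pow, aeval_X, aeval_C]
    simp
  have hlead : ((a (Fin.last d) : ℤ) : ℂ) ≠ 0 := by exact_mod_cast hR.lead
  have hf0 : ∀ z : ℂ, aeval z f = 0 ↔ ∃ t, z = θ t := by
    intro z
    rw [hfe, mul_eq_zero, or_iff_right hlead, Finset.prod_eq_zero_iff]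
    simp only [Finset.mem_univ, true_and, sub_eq_zero]
  have hfne : f ≠ 0 := by
    intro h
    have h1 : ∀ z : ℂ, ∃ t, z = θ t := fun z => (hf0 z).1 (by rw [h, map_zero])
    have h2 : Set.Finite (Set.univ : Set ℂ) := by
      refine (Set.finite_range θ).subset ?_
      intro z _
      obtain ⟨t, ht⟩ := h1 z
      exact ⟨t, ht.symm⟩
    exact Set.infinite_univ h2
  set g : Fin 2 → ℚ[X] := fun l => C (x l : ℚ) - C ((A : ℚ)⁻¹) * X ^ 2 with hg
  have hge : ∀ l (z : ℂ), aeval z (g l) = (x l : ℂ) - (A : ℂ)⁻¹ * z ^ 2 := by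
    intro l z
    rw [hg]
    simp only [map_sub, map_mul, map_pow, aeval_X, aeval_C]
    simp
  have hgc : ∀ l, f.comp (g l) ≠ 0 := by
    intro l h
    have h1 : ∀ z : ℂ, ∃ t, (x l : ℂ) - (A : ℂ)⁻¹ * z ^ 2 = θ t := fun z => by
      rw [← hge]
      exact (hf0 _).1 (by rw [← aeval_comp, h, map_zero])
    have h2 : Set.Finite (Set.univ : Set ℂ) := by
      refine (Set.finite_range θ).subset ?_
      intro w _
      obtain ⟨z, hz⟩ := IsAlgClosed.exists_pow_nat_eq ((A : ℂ) * ((x l : ℂ) - w)) (n := 2) (by norm_num)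
      obtain ⟨t, ht⟩ := h1 z
      refine ⟨t, ?_⟩
      rw [← ht, hz]
      field_simp
      ring
    exact Set.infinite_univ h2
  set h : ℚ[X] := f * (f.comp (g 0) * f.comp (g 1)) with hh
  have hh0 : h ≠ 0 := mul_ne_zero hfne (mul_ne_zero (hgc 0) (hgc 1))
  have hcomp : ∀ l (z : ℂ), aeval z (f.comp (g l)) = 0 ↔ ∃ t, z = E l t ∨ z = -E l t := by
    intro l z
    rw [aeval_comp, hge, hf0]
    refine exists_congr fun t => ?_
    rw [← sq_eq_sq_iff_eq_or_eq_neg, hE2]
    constructor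
    · intro h1
      rw [← h1]
      field_simp
      ring
    · intro h1
      rw [h1]
      field_simp
      ring
  have hroot : ∀ z : ℂ, z ∈ h.rootSet ℂ ↔ (∃ t, z = θ t) ∨ ∃ l t, z = E l t ∨ z = -E l t := by
    intro z
    rw [mem_rootSet]
    have h1 : aeval z h = 0 ↔ (aeval z f = 0) ∨ (aeval z (f.comp (g 0)) = 0) ∨
        (aeval z (f.comp (g 1)) = 0) := by
      rw [hh, map_mul, map_mul, mul_eq_zero, mul_eq_zero]
    rw [h1, hf0, hcomp, hcomp, Fin.exists_fin_two]
    exact ⟨fun h => h.2, fun h => ⟨hh0, h⟩⟩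
  -- the field
  let L : IntermediateField ℚ ℂ := IntermediateField.adjoin ℚ (h.rootSet ℂ)
  have hspl : h.IsSplittingField ℚ L :=
    IntermediateField.adjoin_rootSet_isSplittingField (IsAlgClosed.splits _)
  have hfin : FiniteDimensional ℚ L := hspl.finiteDimensional
  have hnor : Normal ℚ L := Normal.of_isSplittingField h
  have hgal : IsGalois ℚ L := ⟨⟩
  have hmemθ : ∀ t, θ t ∈ L := fun t =>
    IntermediateField.subset_adjoin _ _ ((hroot _).2 (Or.inl ⟨t, rfl⟩))
  have hmemE : ∀ l t, E l t ∈ L := fun l t =>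
    IntermediateField.subset_adjoin _ _ ((hroot _).2 (Or.inr ⟨l, t, Or.inl rfl⟩))
  let θL : Fin d → L := fun t => ⟨θ t, hmemθ t⟩
  let EL : Fin 2 → Fin d → L := fun l t => ⟨E l t, hmemE l t⟩
  let hGf : Fintype (L ≃ₐ[ℚ] L) := inferInstance
  have haev : ∀ (σ : L ≃ₐ[ℚ] L) (p : ℚ[X]) (w : L), aeval ((σ w : L) : ℂ) p =
      ((σ (aeval w p) : L) : ℂ) := by
    intro σ p w
    have h1 : σ (aeval w p) = aeval (σ w) p := (aeval_algHom_apply (σ : L →ₐ[ℚ] L) w p).symm
    rw [h1]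
    exact (aeval_algHom_apply L.val (σ w) p)
  have hcoe : ∀ (p : ℚ[X]) (w : L), ((aeval w p : L) : ℂ) = aeval (w : ℂ) p := fun p w =>
    (aeval_algHom_apply L.val w p).symm
  -- the permutations
  have hπ : ∀ (σ : L ≃ₐ[ℚ] L) (t : Fin d), ∃ t', ((σ (θL t) : L) : ℂ) = θ t' := by
    intro σ t
    apply (hf0 _).1
    rw [haev]
    have h1 : (aeval (θL t) f : L) = 0 := by
      apply Subtype.ext
      rw [hcoe]
      exact (hf0 _).2 ⟨t, rfl⟩
    rw [h1, map_zero]
    rfl
  choose π0 hπ0 using hπ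
  have hinj : ∀ σ, Function.Injective (π0 σ) := by
    intro σ t t' htt
    have h1 : ((σ (θL t) : L) : ℂ) = ((σ (θL t') : L) : ℂ) := by rw [hπ0, hπ0, htt]
    have h2 := σ.injective (Subtype.ext h1)
    exact hR.inj (congrArg Subtype.val h2)
  let π : (L ≃ₐ[ℚ] L) → Equiv.Perm (Fin d) := fun σ =>
    Equiv.ofBijective (π0 σ) (Finite.injective_iff_bijective.1 (hinj σ))
  have hπv : ∀ σ t, π σ t = π0 σ t := fun σ t => rfl
  -- the signs
  have hint : ∀ (σ : L ≃ₐ[ℚ] L) (m : ℤ), ((σ ((m : ℤ) : L) : L) : ℂ) = m := by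
    intro σ m
    rw [map_intCast]
    simp
  have hσ2 : ∀ (σ : L ≃ₐ[ℚ] L) l t, ((σ (EL l t) : L) : ℂ) ^ 2 = E l (π σ t) ^ 2 := by
    intro σ l t
    have h1 : EL l t ^ 2 = ((A : ℤ) : L) * (((x l : ℤ) : L) - θL t) := by
      apply Subtype.ext
      have := hE2 l t
      simpa using this
    have h2 : ((σ (EL l t) : L) : ℂ) ^ 2 = ((σ (EL l t ^ 2) : L) : ℂ) := by
      rw [map_pow]
      rfl
    rw [h2, h1, map_mul, map_sub, hE2, hπv, ← hπ0 σ t]
    have h3 := hint σ A
    have h4 := hint σ (x l)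
    rw [← h3, ← h4]
    rfl
  have hχ : ∀ (σ : L ≃ₐ[ℚ] L) (t : Fin d), ∃ c : ℤ, (c = 1 ∨ c = -1) ∧
      ((σ (EL 0 t) : L) : ℂ) = (c : ℂ) * E 0 (π σ t) := by
    intro σ t
    rcases sq_eq_sq_iff_eq_or_eq_neg.1 (hσ2 σ 0 t) with h1 | h1
    · exact ⟨1, Or.inl rfl, by rw [h1]; simp⟩
    · exact ⟨-1, Or.inr rfl, by rw [h1]; simp⟩
  choose χ hχ1 hχ2 using hχ
  have hχ3 : ∀ σ t, ((σ (EL 1 t) : L) : ℂ) = (χ σ t : ℂ) * E 1 (π σ t) := by
    intro σ t
    have h1 : EL 0 t * EL 1 t = ((A : ℤ) : L) * aeval (θL t) q := by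
      apply Subtype.ext
      have h2 := hEE t
      have h3 := hcoe q (θL t)
      have h4 : (((A : ℤ) : L) * aeval (θL t) q : L) = ((((A : ℤ) : L) * aeval (θL t) q : L)) := rfl
      show E 0 t * E 1 t = (((A : ℤ) : L) : ℂ) * ((aeval (θL t) q : L) : ℂ)
      rw [h3, h2]
      simp [θL]
    have h5 : ((σ (EL 0 t * EL 1 t) : L) : ℂ) = (A : ℂ) * aeval (θ (π σ t)) q := by
      rw [h1, map_mul]
      show ((σ ((A : ℤ) : L) : L) : ℂ) * ((σ (aeval (θL t) q) : L) : ℂ) = _
      rw [hint, ← haev, hπ0, hπv]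
    rw [map_mul] at h5
    have h6 : ((σ (EL 0 t) : L) : ℂ) * ((σ (EL 1 t) : L) : ℂ) = E 0 (π σ t) * E 1 (π σ t) := by
      rw [hEE]
      exact h5
    rw [hχ2] at h6
    have h7 : (χ σ t : ℂ) * (χ σ t : ℂ) = 1 := by
      rcases hχ1 σ t with h | h <;> rw [h] <;> simp
    have h8 := hE0 0 (π σ t)
    have h9 : E 0 (π σ t) * ((χ σ t : ℂ) * ((σ (EL 1 t) : L) : ℂ)) =
        E 0 (π σ t) * E 1 (π σ t) := by
      rw [← h6]
      ring
    have h10 := mul_left_cancel₀ h8 h9
    rw [← h10, ← mul_assoc, h7, one_mul]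
  have hχE : ∀ σ l t, ((σ (EL l t) : L) : ℂ) = (χ σ t : ℂ) * E l (π σ t) := by
    intro σ l t
    fin_cases l
    · exact hχ2 σ t
    · exact hχ3 σ t
  refine ⟨L ≃ₐ[ℚ] L, hGf, π, χ, ⟨AlgEquiv.refl⟩, ?_, hχ1, ?_⟩
  · -- the number of automorphisms
    have hcard : Fintype.card ((Fin d → Bool) × Equiv.Perm (Fin d)) = 2 ^ d * d.factorial := by
      rw [Fintype.card_prod, Fintype.card_perm, Fintype.card_fin, Fintype.card_fun, Fintype.card_bool,
        Fintype.card_fin]
    rw [← hcard]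
    refine Fintype.card_le_of_injective
      (fun σ => ((fun t => decide (χ σ t = 1) : Fin d → Bool), π σ)) ?_
    intro σ τ hστ
    have h1 : ∀ t, χ σ t = χ τ t := by
      intro t
      have h2 := congrFun (Prod.ext_iff.1 hστ).1 t
      simp only [decide_eq_decide] at h2
      rcases hχ1 σ t with h3 | h3 <;> rcases hχ1 τ t with h4 | h4
      · rw [h3, h4]
      · have := h2.1 h3
        rw [h4] at this
        norm_num at this
      · have := h2.2 h4
        rw [h3] at this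
        norm_num at this
      · rw [h3, h4]
    have h2 : π σ = π τ := (Prod.ext_iff.1 hστ).2
    have h3 : (σ : L →ₐ[ℚ] L) = (τ : L →ₐ[ℚ] L) := by
      refine IntermediateField.algHom_ext_of_eq_adjoin ℚ (S := L) rfl ?_
      intro z hz
      apply Subtype.ext
      rcases (hroot z).1 hz with ⟨t, rfl⟩ | ⟨l, t, rfl | rfl⟩
      · show ((σ (θL t) : L) : ℂ) = ((τ (θL t) : L) : ℂ)
        rw [hπ0, hπ0, ← hπv, ← hπv, h2]
      · show ((σ (EL l t) : L) : ℂ) = ((τ (EL l t) : L) : ℂ)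
        rw [hχE, hχE, h1, h2]
      · show ((σ (-EL l t) : L) : ℂ) = ((τ (-EL l t) : L) : ℂ)
        rw [map_neg, map_neg]
        show -((σ (EL l t) : L) : ℂ) = -((τ (EL l t) : L) : ℂ)
        rw [hχE, hχE, h1, h2]
    ext z
    exact congrArg (fun w : L => (w : ℂ)) (DFunLike.congr_fun h3 z)
  · intro P hP
    set zL : L := MvPolynomial.aeval (fun i : Fin 2 × Fin d => EL i.1 i.2) P with hzL
    have hval : ∀ (φ : L →+* ℂ), φ zL = MvPolynomial.aeval (fun i : Fin 2 × Fin d => φ (EL i.1 i.2)) P := by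
      intro φ
      rw [hzL]
      have h1 := MvPolynomial.map_aeval (fun i : Fin 2 × Fin d => EL i.1 i.2) φ P
      have h2 : φ.comp (algebraMap ℤ L) = algebraMap ℤ ℂ := RingHom.ext_int _ _
      rw [h1, h2]
      rfl
    have hint' : ∀ i : Fin 2 × Fin d, IsIntegral ℤ (EL i.1 i.2) := by
      rintro ⟨l, t⟩
      have h1 : IsIntegral ℤ (((A : ℤ) : ℂ) * θ t) := by
        set fZ : ℤ[X] := ∑ i, C (a i) * X ^ (i : ℕ) with hfZ
        have h2 : aeval (θ t) fZ = 0 := by
          have h3 := hR.eval (θ t)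
          rw [Finset.prod_eq_zero (Finset.mem_univ t) (sub_self _), mul_zero] at h3
          rw [← h3, hfZ, map_sum]
          refine Finset.sum_congr rfl fun i _ => ?_
          rw [map_mul, map_pow, aeval_X, aeval_C]
          simp
        have h4 := isIntegral_leadingCoeff_smul fZ (θ t) h2
        have h5 : fZ.leadingCoeff = a (Fin.last d) := by
          have h6 : fZ.coeff d = a (Fin.last d) := by
            rw [hfZ, finset_sum_coeff, Finset.sum_eq_single (Fin.last d)]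
            · simp
            · intro i _ hi
              rw [coeff_C_mul, coeff_X_pow, if_neg, mul_zero]
              intro h7
              exact hi (Fin.ext h7.symm)
            · simp
          have h7 : fZ.natDegree ≤ d := by
            rw [hfZ]
            refine natDegree_sum_le_of_forall_le _ _ fun i _ => ?_
            exact (natDegree_C_mul_X_pow_le _ _).trans (Nat.lt_succ_iff.1 i.2)
          have h8 : fZ.natDegree = d :=
            le_antisymm h7 (le_natDegree_of_ne_zero (by rw [h6]; exact hR.lead))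
          rw [leadingCoeff, h8, h6]
        rw [h5, zsmul_eq_mul] at h4
        rcases abs_choice (a (Fin.last d)) with h9 | h9
        · rw [hA, h9]; exact h4
        · rw [hA, h9]
          have h10 := h4.neg
          push_cast
          rw [neg_mul]
          exact h10
      have h2 : IsIntegral ℤ (E l t) := by
        apply IsIntegral.of_pow (n := 2) (by norm_num)
        rw [hE2, mul_sub]
        have h3 : IsIntegral ℤ (((A : ℤ) : ℂ) * ((x l : ℤ) : ℂ)) := by
          rw [← Int.cast_mul]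
          exact isIntegral_algebraMap (R := ℤ) (A := ℂ) (x := A * x l)
        exact h3.sub h1
      exact (isIntegral_algHom_iff (L.val.restrictScalars ℤ) (L.val.injective)).1 h2
    have h1 := norm_ge zL (aeval_integral _ hint' P) (by
      intro h0
      apply hP
      have h2 := hval (L.val : L →+* ℂ)
      rw [h0, map_zero] at h2
      exact h2.symm)
    refine h1.trans (le_of_eq (Finset.prod_congr rfl fun σ _ => ?_))
    have h3 := hval ((L.val : L →+* ℂ).comp (σ : L →+* L))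
    have h4 : ((σ zL : L) : ℂ) = MvPolynomial.aeval (fun i : Fin 2 × Fin d =>
        ((σ (EL i.1 i.2) : L) : ℂ)) P := h3
    rw [h4]
    congr 2
    congr 1
    funext i
    exact hχE σ i.1 i.2

end Pool.Agent.Helper32.FM
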