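import Pool.Agent.Helper32.FM.Defs
import Pool.Agent.Helper32.DZ.Roots

set_option autoImplicit false

/-!
FM-P0 Size. Sizes of the square roots.

PROOF. `root_le`: from `eval` at `z = θ t`: `a_d θ^d = - ∑_(i<d) a_i θ^i`; if `‖θ‖ > 1` then
`|a_d| ‖θ‖^d ≤ H (‖θ‖^d - 1)/(‖θ‖ - 1) ≤ H ‖θ‖^d/(‖θ‖-1)`, `|a_d| (‖θ‖ - 1) ≤ H`; if `‖θ‖ ≤ 1`: `|a_d| ‖θ‖ ≤ |a_d| ≤ H`.
In both cases `|a_d| ‖θ t‖ ≤ |a_d| + H ≤ 2 H`. So `‖θ t‖ ≤ 2 H ≤ x/2`.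
`ise_norm`: `‖e‖^2 = ‖x - θ‖ ≤ x + x/2`. `ise_re`: `Re(e)^2 - Im(e)^2 = Re (x - θ) ≥ x/2`, so `Re(e)^2 ≥ x/2`.
`ise_add`: `‖e s + e' t‖ ≥ Re(e s) + Re(e' t) ≥ 2 √(x/2) = √(2x)` (two points: `x` the smaller one).
`ise_sub`: `(e s - e t)(e s + e t) = θ t - θ s`.
`prod_max`: Mahler measure: `|a_d| ∏ max 1 ‖θ t‖ ≤ ∑ |a_i| ≤ (d+1) H`: `Pool.Agent.Helper32.DZ.roots_mahler` in
Pool/Agent/Helper32/DZ/Roots.lean (import it; `hev` = `eval`).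
-/

open Polynomial

namespace Pool.Agent.Helper32.FM

variable {d H : ℕ} {a : Fin (d + 1) → ℤ} {θ : Fin d → ℂ}

private theorem box_real (h : Roots H a θ) (i : Fin (d + 1)) : |((a i : ℤ) : ℝ)| ≤ (H : ℝ) := by
  have h1 := h.box i
  have h2 : ((|a i| : ℤ) : ℝ) ≤ ((H : ℤ) : ℝ) := Int.cast_le.2 h1
  simpa using h2

private theorem one_le_lead (h : Roots H a θ) : 1 ≤ |((a (Fin.last d) : ℤ) : ℝ)| := by
  have h1 : (1 : ℤ) ≤ |a (Fin.last d)| := Int.one_le_abs h.lead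
  have h2 : ((1 : ℤ) : ℝ) ≤ ((|a (Fin.last d)| : ℤ) : ℝ) := Int.cast_le.2 h1
  simpa using h2

theorem root_le (h : Roots H a θ) (t : Fin d) :
    |((a (Fin.last d) : ℤ) : ℝ)| * ‖θ t‖ ≤ 2 * H := by
  have h1 := Pool.Agent.Helper32.DZ.roots_bound a h.lead θ h.eval (H : ℝ) (fun i => box_real h i) t
  rwa [norm_mul, Complex.norm_intCast] at h1

theorem root_le' (h : Roots H a θ) (t : Fin d) : ‖θ t‖ ≤ 2 * H := by
  have h1 := root_le h t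
  have h2 := one_le_lead h
  nlinarith [norm_nonneg (θ t)]

theorem ise_norm (h : Roots H a θ) {x : ℤ} (hx : 4 * (H : ℤ) ≤ x) {e : Fin d → ℂ} (he : IsE θ x e)
    (t : Fin d) : ‖e t‖ ^ 2 ≤ 3 / 2 * x ∧ (x : ℝ) / 2 ≤ (e t).re ^ 2 := by
  have h1 := root_le' h t
  obtain ⟨h2, h3⟩ := he t
  have hx' : 4 * (H : ℝ) ≤ (x : ℝ) := by exact_mod_cast hx
  have hH : (0 : ℝ) ≤ H := Nat.cast_nonneg H
  constructor
  · rw [← norm_pow, h2]
    have h4 : ‖(x : ℂ) - θ t‖ ≤ ‖(x : ℂ)‖ + ‖θ t‖ := norm_sub_le _ _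
    rw [Complex.norm_intCast, abs_of_nonneg (by linarith)] at h4
    linarith
  · have h4 : ((e t) ^ 2).re = (e t).re ^ 2 - (e t).im ^ 2 := by
      rw [pow_two, Complex.mul_re]; ring
    rw [h2, Complex.sub_re, Complex.intCast_re] at h4
    have h5 : (θ t).re ≤ ‖θ t‖ := Complex.re_le_norm _
    nlinarith [sq_nonneg (e t).im]

theorem ise_ne (h : Roots H a θ) {x : ℤ} (hx : 4 * (H : ℤ) ≤ x) (hx1 : 1 ≤ x) {e : Fin d → ℂ}
    (he : IsE θ x e) (t : Fin d) : e t ≠ 0 := by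
  intro h0
  have h1 := (ise_norm h hx he t).2
  have h2 : (1 : ℝ) ≤ (x : ℝ) := by exact_mod_cast hx1
  rw [h0] at h1
  simp at h1
  linarith

theorem ise_add (h : Roots H a θ) {x : ℤ} (hx : 4 * (H : ℤ) ≤ x) {e : Fin d → ℂ} (he : IsE θ x e)
    (s t : Fin d) : Real.sqrt (2 * x) ≤ ‖e s + e t‖ := by
  have hs := (ise_norm h hx he s).2
  have ht := (ise_norm h hx he t).2
  have hs0 := (he s).2
  have ht0 := (he t).2
  have hx0 : (0 : ℝ) ≤ (x : ℝ) := by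
    have hx' : 4 * (H : ℝ) ≤ (x : ℝ) := by exact_mod_cast hx
    have hH : (0 : ℝ) ≤ H := Nat.cast_nonneg H
    linarith
  have h1 : Real.sqrt ((x : ℝ) / 2) ≤ (e s).re := Real.sqrt_le_iff.2 ⟨hs0, hs⟩
  have h2 : Real.sqrt ((x : ℝ) / 2) ≤ (e t).re := Real.sqrt_le_iff.2 ⟨ht0, ht⟩
  have h3 : (e s + e t).re ≤ ‖e s + e t‖ := Complex.re_le_norm _
  rw [Complex.add_re] at h3
  have h4 : 2 * Real.sqrt ((x : ℝ) / 2) ≤ ‖e s + e t‖ := by linarith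
  have h5 : Real.sqrt ((x : ℝ) / 2) ^ 2 = (x : ℝ) / 2 := Real.sq_sqrt (by linarith)
  have h6 : 0 ≤ Real.sqrt ((x : ℝ) / 2) := Real.sqrt_nonneg _
  refine Real.sqrt_le_iff.2 ⟨norm_nonneg _, ?_⟩
  nlinarith

theorem ise_sub (h : Roots H a θ) {x : ℤ} (hx : 4 * (H : ℤ) ≤ x) (hx1 : 1 ≤ x) {e : Fin d → ℂ}
    (he : IsE θ x e) (s t : Fin d) : ‖e s - e t‖ * Real.sqrt (2 * x) ≤ ‖θ s - θ t‖ := by
  have h1 := ise_add h hx he s t
  have h2 : ‖e s - e t‖ * ‖e s + e t‖ = ‖θ s - θ t‖ := by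
    rw [← norm_mul]
    have h3 : (e s - e t) * (e s + e t) = θ t - θ s := by
      have h4 := (he s).1
      have h5 := (he t).1
      linear_combination h4 - h5
    rw [h3, norm_sub_rev]
  calc ‖e s - e t‖ * Real.sqrt (2 * x) ≤ ‖e s - e t‖ * ‖e s + e t‖ :=
        mul_le_mul_of_nonneg_left h1 (norm_nonneg _)
    _ = ‖θ s - θ t‖ := h2

private theorem norm_le_sqrt (h : Roots H a θ) {x : ℤ} (hx : 4 * (H : ℤ) ≤ x) {e : Fin d → ℂ}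
    (he : IsE θ x e) (t : Fin d) : ‖e t‖ ≤ 3 / 2 * Real.sqrt x := by
  have h1 := (ise_norm h hx he t).1
  have hx0 : (0 : ℝ) ≤ (x : ℝ) := by
    have hx' : 4 * (H : ℝ) ≤ (x : ℝ) := by exact_mod_cast hx
    have hH : (0 : ℝ) ≤ H := Nat.cast_nonneg H
    linarith
  have h2 : Real.sqrt (x : ℝ) ^ 2 = (x : ℝ) := Real.sq_sqrt hx0
  have h3 : 0 ≤ Real.sqrt (x : ℝ) := Real.sqrt_nonneg _
  refine (pow_le_pow_iff_left₀ (norm_nonneg _) (by linarith) (two_ne_zero)).1 ?_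
  rw [mul_pow, h2]
  linarith

private theorem sa_nonneg (a : Fin (d + 1) → ℤ) : 0 ≤ sa a := Real.sqrt_nonneg _

private theorem norm_sa_mul (a : Fin (d + 1) → ℤ) (z : ℂ) : ‖(sa a : ℂ) * z‖ = sa a * ‖z‖ := by
  rw [norm_mul, Complex.norm_real, Real.norm_of_nonneg (sa_nonneg a)]

/-- sizes after multiplication with `√|a|`, `R = √(|a| x)` -/
theorem big_add (h : Roots H a θ) {x : ℤ} (hx : 4 * (H : ℤ) ≤ x) {e : Fin d → ℂ} (he : IsE θ x e)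
    (s t : Fin d) : ‖(sa a : ℂ) * e s - (sa a : ℂ) * e t‖ ≤ 3 * (sa a * Real.sqrt x) ∧
      ‖(sa a : ℂ) * e s + (sa a : ℂ) * e t‖ ≤ 3 * (sa a * Real.sqrt x) := by
  have h1 := norm_le_sqrt h hx he s
  have h2 := norm_le_sqrt h hx he t
  have h3 := sa_nonneg a
  rw [← mul_sub, ← mul_add, norm_sa_mul, norm_sa_mul]
  have h4 : ‖e s - e t‖ ≤ 3 * Real.sqrt x := (norm_sub_le _ _).trans (by linarith)
  have h5 : ‖e s + e t‖ ≤ 3 * Real.sqrt x := (norm_add_le _ _).trans (by linarith)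
  constructor
  · calc sa a * ‖e s - e t‖ ≤ sa a * (3 * Real.sqrt x) := mul_le_mul_of_nonneg_left h4 h3
      _ = 3 * (sa a * Real.sqrt x) := by ring
  · calc sa a * ‖e s + e t‖ ≤ sa a * (3 * Real.sqrt x) := mul_le_mul_of_nonneg_left h5 h3
      _ = 3 * (sa a * Real.sqrt x) := by ring

theorem small_sub (h : Roots H a θ) {x : ℤ} (hx : 4 * (H : ℤ) ≤ x) (hx1 : 1 ≤ x) {e : Fin d → ℂ}
    (he : IsE θ x e) (s t : Fin d) :
    ‖(sa a : ℂ) * e s - (sa a : ℂ) * e t‖ ≤ 4 * H / (sa a * Real.sqrt x) := by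
  have hx0 : (1 : ℝ) ≤ (x : ℝ) := by exact_mod_cast hx1
  have hl := one_le_lead h
  have hsa2 : sa a ^ 2 = |((a (Fin.last d) : ℤ) : ℝ)| := Real.sq_sqrt (abs_nonneg _)
  have hsa : 0 < sa a := Real.sqrt_pos.2 (by linarith)
  have hsx : 0 < Real.sqrt (x : ℝ) := Real.sqrt_pos.2 (by linarith)
  have h1 := ise_sub h hx hx1 he s t
  have h2 : Real.sqrt (x : ℝ) ≤ Real.sqrt (2 * x) := Real.sqrt_le_sqrt (by linarith)
  have h3 : ‖e s - e t‖ * Real.sqrt x ≤ ‖θ s - θ t‖ :=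
    (mul_le_mul_of_nonneg_left h2 (norm_nonneg _)).trans h1
  have h4 : ‖θ s - θ t‖ ≤ ‖θ s‖ + ‖θ t‖ := norm_sub_le _ _
  have h5 := root_le h s
  have h6 := root_le h t
  rw [← mul_sub, norm_sa_mul, le_div_iff₀ (mul_pos hsa hsx)]
  calc sa a * ‖e s - e t‖ * (sa a * Real.sqrt x) = sa a ^ 2 * (‖e s - e t‖ * Real.sqrt x) := by ring
    _ ≤ sa a ^ 2 * (‖θ s‖ + ‖θ t‖) := mul_le_mul_of_nonneg_left (h3.trans h4) (sq_nonneg _)
    _ = |((a (Fin.last d) : ℤ) : ℝ)| * ‖θ s‖ + |((a (Fin.last d) : ℤ) : ℝ)| * ‖θ t‖ := by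
        rw [hsa2]; ring
    _ ≤ 4 * H := by linarith

theorem prod_max (h : Roots H a θ) :
    |((a (Fin.last d) : ℤ) : ℝ)| * ∏ t, max 1 ‖θ t‖ ≤ (d + 1) * H := by
  refine (Pool.Agent.Helper32.DZ.roots_mahler a h.lead θ h.eval).trans ?_
  calc ∑ i, |((a i : ℤ) : ℝ)| ≤ ∑ _i : Fin (d + 1), (H : ℝ) :=
        Finset.sum_le_sum fun i _ => box_real h i
    _ = (d + 1) * H := by simp

/-- the principal square roots exist -/
theorem exists_ise (θ : Fin d → ℂ) (x : ℤ) : ∃ e : Fin d → ℂ, IsE θ x e := by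
  have h1 : ∀ t, ∃ w : ℂ, w ^ 2 = (x : ℂ) - θ t ∧ 0 ≤ w.re := by
    intro t
    obtain ⟨w, hw⟩ := IsAlgClosed.exists_pow_nat_eq ((x : ℂ) - θ t) (n := 2) (by norm_num)
    rcases le_total 0 w.re with h2 | h2
    · exact ⟨w, hw, h2⟩
    · refine ⟨-w, by rw [neg_sq, hw], ?_⟩
      rw [Complex.neg_re]
      linarith
  choose e he using h1
  exact ⟨e, he⟩

/-- uniqueness (above `4 H`) -/
theorem ise_unique (h : Roots H a θ) {x : ℤ} (hx : 4 * (H : ℤ) ≤ x) (hx1 : 1 ≤ x)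
    {e e' : Fin d → ℂ} (he : IsE θ x e) (he' : IsE θ x e') : e = e' := by
  funext t
  have h1 : e t ^ 2 = e' t ^ 2 := by rw [(he t).1, (he' t).1]
  rcases sq_eq_sq_iff_eq_or_eq_neg.1 h1 with h2 | h2
  · exact h2
  · exfalso
    have h3 := (ise_norm h hx he t).2
    have h4 : (1 : ℝ) ≤ (x : ℝ) := by exact_mod_cast hx1
    have h5 := (he t).2
    have h6 := (he' t).2
    have h7 : (e t).re = -(e' t).re := by rw [h2, Complex.neg_re]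
    have h8 : (e t).re = 0 := by linarith
    rw [h8] at h3
    norm_num at h3
    linarith

end Pool.Agent.Helper32.FM
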