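import Pool.Agent.Helper32.FM.PiGe
import Pool.Agent.Helper32.FM.DetSize
import Pool.Agent.Helper32.FM.Size

set_option autoImplicit false

/-!
FM-G5 Gap. The gap principle for three points of one strong class.

PROOF. `A = |a_d|`, `R^2 = x2/(x0 x1)`, `N = d (d-1)(d-2)` = number of embeddings `Fin 3 ↪ Fin d` (`Fintype.card_embedding_eq`,
`Nat.descFactorial`), `M = 3 (d-1)(d-2)`, `m t = max 1 ‖θ t‖`. `pi_ge` and `det_size` (for `θ ∘ τ`, `2 ‖θ t‖ ≤ 4 H ≤ x0` by `root_le'`):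
`1 ≤ A^M ∏_τ (256 R^2 (∏_s m (τ s))^2) = A^M (256 R^2)^N (∏_t m t)^(2M)` (`∏_τ ∏_s m (τ s) = ∏_t (m t)^M` by `fib_card`:
`Finset.prod_fiberwise` / `Finset.prod_comp`). With `A ∏ m ≤ (d+1) H` (`prod_max`): `1 ≤ (256 R^2)^N ((d+1)H)^(2M)/A^M`. Since `M d = 3 N`,
`d`-th power: `1 ≤ ((256 R^2)^d)^N (((d+1)H)^6/A^3)^N`, i.e. `1 ≤ ((256 R^2)^d ((d+1)H)^6/A^3)^N`, and `N ≥ 1`, so
`1 ≤ (256 R^2)^d ((d+1)H)^6/A^3`: `(x0 x1)^d A^3 ≤ 256^d ((d+1)H)^6 x2^d`.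
`growth`: above the threshold (`Thr K`, `K = 16 (256^d (d+1)^6)^4` suffices, any larger `K` too).
`d ≥ 4`: `x0^4 ≥ K H^7`, so `x2^(4d) K1^4 H^24 ≥ (x0 x1)^(4d) A^12 ≥ K^d H^(7d) x1^(4d)` (`K1 = 256^d (d+1)^6`), `K^d ≥ 16^d K1^4` and
`7 d - 24 ≥ d`: `x2^(4d) ≥ (16 H x1^4)^d`, `16 H x1^4 ≤ x2^4`.
`d = 3`: `(x0 A)^2 ≥ K H^5`: `x2^12 K1^4 H^24 ≥ (x0 A)^12 x1^12 A^0 ..` precisely `(x0 x1)^12 A^12 = (x0 A)^12 x1^12 ≥ K^6 H^30 x1^12`, so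
`x2^12 ≥ 16^3 H^3 x1^12` (`K^6 ≥ 16^3 K1^4`, `30 - 24 ≥ 3`, `H ≥ 1`), `16 H x1^4 ≤ x2^4`.
`growth2`: far out (`x0 ≥ K1^2 H^12`): `(x0 x1)^d ≤ K1 H^6 x2^d ≤ x0^(1/2) x2^d`, `x0^(2d) x1^(2d) ≤ x0 x2^(2d) ≤ x0^d x2^(2d)`, so
`x0 x1^2 ≤ x2^2`.
-/

namespace Pool.Agent.Helper32.FM

private theorem prod_emb {d : ℕ} (m : Fin d → ℝ) :
    ∏ τ : Fin 3 ↪ Fin d, ∏ s, m (τ s) = (∏ t, m t) ^ (3 * ((d - 1) * (d - 2))) := by
  classical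
  rw [← Finset.prod_product' (s := (Finset.univ : Finset (Fin 3 ↪ Fin d)))
    (t := (Finset.univ : Finset (Fin 3))) (f := fun τ s => m (τ s))]
  rw [← Finset.prod_pow]
  rw [Finset.univ_product_univ]
  rw [← Finset.prod_fiberwise (s := (Finset.univ : Finset ((Fin 3 ↪ Fin d) × Fin 3)))
    (g := fun i => i.1 i.2)]
  refine Finset.prod_congr rfl fun t _ => ?_
  rw [← fib_card d t]
  refine Finset.prod_eq_pow_card fun i hi => ?_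
  rw [Finset.mem_filter] at hi
  rw [hi.2]

private theorem A_ge {d H : ℕ} {a : Fin (d + 1) → ℤ} {θ : Fin d → ℂ} (hR : Roots H a θ) :
    1 ≤ |a (Fin.last d)| ∧ 1 ≤ (H : ℤ) := by
  have h1 : 1 ≤ |a (Fin.last d)| := Int.one_le_abs hR.lead
  exact ⟨h1, h1.trans (hR.box _)⟩

theorem gap3 {d H : ℕ} (hd : 3 ≤ d) {a : Fin (d + 1) → ℤ} {θ : Fin d → ℂ} (hR : Roots H a θ)
    (x : Fin 3 → ℤ) (h0 : 4 * (H : ℤ) ≤ x 0) (h1 : 1 ≤ x 0) (h01 : x 0 < x 1) (h12 : x 1 < x 2)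
    (e : Fin 3 → Fin d → ℂ) (he : ∀ l, IsE θ (x l) (e l)) (hs : ∀ l l', SRel θ (e l) (e l')) :
    (x 0 * x 1) ^ d * |a (Fin.last d)| ^ 3 ≤ 256 ^ d * ((d + 1) * (H : ℤ)) ^ 6 * x 2 ^ d := by
  classical
  have hinj : Function.Injective x := by
    have hsm : StrictMono x := by
      rw [Fin.strictMono_iff_lt_succ]
      intro i
      fin_cases i
      · exact h01
      · exact h12
    exact hsm.injective
  have hpi := pi_ge hR x hinj e he hs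
  obtain ⟨hA1, hH1⟩ := A_ge hR
  set A : ℝ := |((a (Fin.last d) : ℤ) : ℝ)| with hAdef
  have hA1' : (1 : ℝ) ≤ A := by
    rw [hAdef, ← Int.cast_abs]
    exact_mod_cast hA1
  have hx0 : (1 : ℝ) ≤ (x 0 : ℝ) := by exact_mod_cast h1
  have hx1 : (1 : ℝ) ≤ (x 1 : ℝ) := by exact_mod_cast (h1.trans h01.le)
  have hx2 : (1 : ℝ) ≤ (x 2 : ℝ) := by exact_mod_cast (h1.trans (h01.le.trans h12.le))
  set R2 : ℝ := (x 2 : ℝ) / ((x 0 : ℝ) * x 1) with hR2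
  have hR2pos : 0 ≤ R2 := by positivity
  set P : ℝ := ∏ t, max 1 ‖θ t‖ with hP
  have hP0 : 0 ≤ P := Finset.prod_nonneg fun t _ => le_max_of_le_left zero_le_one
  have hθ : ∀ t, 2 * ‖θ t‖ ≤ x 0 := by
    intro t
    have h := root_le' hR t
    have h0' : 4 * (H : ℝ) ≤ x 0 := by exact_mod_cast h0
    linarith
  have hdet : ∀ τ : Fin 3 ↪ Fin d, ‖(Matrix.of fun l s => e l (τ s)).det‖ ^ 2 ≤
      256 * R2 * (∏ s, max 1 ‖θ (τ s)‖) ^ 2 := by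
    intro τ
    have h := det_size (fun s => θ (τ s)) x h1 h01.le h12.le (fun s => hθ (τ s))
      (fun l s => e l (τ s)) (fun l t => he l (τ t))
    have h2 := pow_le_pow_left₀ (norm_nonneg _) h 2
    refine h2.trans (le_of_eq ?_)
    rw [mul_pow, mul_pow, Real.sq_sqrt hR2pos]
    norm_num
  have hprod : ∏ τ : Fin 3 ↪ Fin d, ‖(Matrix.of fun l s => e l (τ s)).det‖ ^ 2 ≤
      (256 * R2) ^ (d * ((d - 1) * (d - 2))) * (P ^ (3 * ((d - 1) * (d - 2)))) ^ 2 := by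
    refine (Finset.prod_le_prod (fun τ _ => by positivity) (fun τ _ => hdet τ)).trans
      (le_of_eq ?_)
    rw [Finset.prod_mul_distrib, Finset.prod_const, Finset.prod_pow,
      prod_emb (fun t => max 1 ‖θ t‖), Finset.card_univ, Fintype.card_embedding_eq,
      Fintype.card_fin, Fintype.card_fin]
    congr 2
    obtain ⟨k, rfl⟩ : ∃ k, d = k + 3 := ⟨d - 3, by omega⟩
    simp only [Nat.descFactorial_succ, Nat.descFactorial_zero]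
    have e1 : k + 3 - 2 = k + 1 := by omega
    have e2 : k + 3 - 1 = k + 2 := by omega
    have e3 : k + 3 - 0 = k + 3 := by omega
    rw [e1, e2, e3]
    ring
  set k : ℕ := (d - 1) * (d - 2) with hk
  have hk0 : k ≠ 0 := by
    rw [hk]
    have : 0 < (d - 1) * (d - 2) := Nat.mul_pos (by omega) (by omega)
    omega
  have hmain : 1 ≤ (A ^ 3 * (256 * R2) ^ d * P ^ 6) ^ k := by
    calc (1 : ℝ) ≤ A ^ (3 * k) * ∏ τ : Fin 3 ↪ Fin d,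
          ‖(Matrix.of fun l s => e l (τ s)).det‖ ^ 2 := hpi
      _ ≤ A ^ (3 * k) * ((256 * R2) ^ (d * k) * (P ^ (3 * k)) ^ 2) :=
          mul_le_mul_of_nonneg_left hprod (by positivity)
      _ = (A ^ 3 * (256 * R2) ^ d * P ^ 6) ^ k := by
          have e1 : (A ^ 3 * (256 * R2) ^ d * P ^ 6) ^ k =
              A ^ (3 * k) * (256 * R2) ^ (d * k) * P ^ (6 * k) := by
            rw [mul_pow, mul_pow, ← pow_mul, ← pow_mul, ← pow_mul]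
          have e2 : (P ^ (3 * k)) ^ 2 = P ^ (6 * k) := by
            rw [← pow_mul]
            congr 1
            ring
          rw [e1, e2, mul_assoc]
  have hbase : 1 ≤ A ^ 3 * (256 * R2) ^ d * P ^ 6 := by
    by_contra hcon
    push Not at hcon
    have : (A ^ 3 * (256 * R2) ^ d * P ^ 6) ^ k < 1 :=
      pow_lt_one₀ (by positivity) hcon hk0
    linarith
  have hAP : A * P ≤ (d + 1) * H := prod_max hR
  have h6 : (A * P) ^ 6 ≤ ((d + 1) * (H : ℝ)) ^ 6 := pow_le_pow_left₀ (by positivity) hAP 6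
  have hA3 : A ^ 3 ≤ (256 * R2) ^ d * ((d + 1) * (H : ℝ)) ^ 6 := by
    calc A ^ 3 ≤ A ^ 3 * (A ^ 3 * (256 * R2) ^ d * P ^ 6) :=
          le_mul_of_one_le_right (by positivity) hbase
      _ = (256 * R2) ^ d * (A * P) ^ 6 := by ring
      _ ≤ (256 * R2) ^ d * ((d + 1) * (H : ℝ)) ^ 6 :=
          mul_le_mul_of_nonneg_left h6 (by positivity)
  have hfin : ((x 0 : ℝ) * x 1) ^ d * A ^ 3 ≤
      256 ^ d * ((d + 1) * (H : ℝ)) ^ 6 * (x 2 : ℝ) ^ d := by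
    calc ((x 0 : ℝ) * x 1) ^ d * A ^ 3 ≤
          ((x 0 : ℝ) * x 1) ^ d * ((256 * R2) ^ d * ((d + 1) * (H : ℝ)) ^ 6) :=
          mul_le_mul_of_nonneg_left hA3 (by positivity)
      _ = 256 ^ d * ((d + 1) * (H : ℝ)) ^ 6 * (((x 0 : ℝ) * x 1) * R2) ^ d := by
          rw [mul_pow 256 R2, mul_pow _ R2]; ring
      _ = 256 ^ d * ((d + 1) * (H : ℝ)) ^ 6 * (x 2 : ℝ) ^ d := by
          congr 2
          rw [hR2]
          field_simp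
  have hcast : (((x 0 * x 1) ^ d * |a (Fin.last d)| ^ 3 : ℤ) : ℝ) ≤
      ((256 ^ d * ((d + 1) * (H : ℤ)) ^ 6 * x 2 ^ d : ℤ) : ℝ) := by
    push_cast
    rw [← hAdef]
    exact hfin
  exact_mod_cast hcast

private theorem K1_pos (d : ℕ) : (1 : ℤ) ≤ 256 ^ d * ((d : ℤ) + 1) ^ 6 := by
  have h1 : (1 : ℤ) ≤ 256 ^ d := one_le_pow₀ (by norm_num)
  have h2 : (1 : ℤ) ≤ ((d : ℤ) + 1) ^ 6 := one_le_pow₀ (by omega)
  nlinarith

private theorem gapK {d H : ℕ} (hd : 3 ≤ d) {a : Fin (d + 1) → ℤ} {θ : Fin d → ℂ}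
    (hR : Roots H a θ)
    (x : Fin 3 → ℤ) (h0 : 4 * (H : ℤ) ≤ x 0) (h1 : 1 ≤ x 0) (h01 : x 0 < x 1) (h12 : x 1 < x 2)
    (e : Fin 3 → Fin d → ℂ) (he : ∀ l, IsE θ (x l) (e l)) (hs : ∀ l l', SRel θ (e l) (e l')) :
    (x 0 * x 1) ^ d * |a (Fin.last d)| ^ 3 ≤
      (256 ^ d * ((d : ℤ) + 1) ^ 6) * (H : ℤ) ^ 6 * x 2 ^ d := by
  refine (gap3 hd hR x h0 h1 h01 h12 e he hs).trans (le_of_eq ?_)
  ring

theorem growth (d : ℕ) (hd : 3 ≤ d) : ∃ K : ℕ, 1 ≤ K ∧ ∀ (H : ℕ) (a : Fin (d + 1) → ℤ)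
    (θ : Fin d → ℂ), Roots H a θ → ∀ (x : Fin 3 → ℤ), Thr K H a (x 0) → x 0 < x 1 → x 1 < x 2 →
    ∀ (e : Fin 3 → Fin d → ℂ), (∀ l, IsE θ (x l) (e l)) → (∀ l l', SRel θ (e l) (e l')) →
    16 * (H : ℤ) * x 1 ^ 4 ≤ x 2 ^ 4 := by
  refine ⟨16 * (256 ^ d * (d + 1) ^ 6) ^ 4, ?_, ?_⟩
  · have : 0 < 16 * (256 ^ d * (d + 1) ^ 6) ^ 4 := by positivity
    omega
  intro H a θ hR x hT h01 h12 e he hs
  obtain ⟨h0, h1, hthr⟩ := hT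
  obtain ⟨hA1, hH1⟩ := A_ge hR
  have hg := gapK hd hR x h0 h1 h01 h12 e he hs
  set K1 : ℤ := 256 ^ d * ((d : ℤ) + 1) ^ 6 with hK1
  have hK1p : 1 ≤ K1 := K1_pos d
  have hK1c : ((16 * (256 ^ d * (d + 1) ^ 6) ^ 4 : ℕ) : ℤ) = 16 * K1 ^ 4 := by
    push_cast
    rfl
  rw [hK1c] at hthr
  set A : ℤ := |a (Fin.last d)| with hA
  have hx0 : 0 < x 0 := by omega
  have hx1 : 0 < x 1 := by omega
  have hx2 : 0 < x 2 := by omega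
  have hHp : 0 < (H : ℤ) := by omega
  have hK4 : 1 ≤ K1 ^ 4 := one_le_pow₀ hK1p
  have hK4p : 0 < K1 ^ 4 := by omega
  -- fourth power
  have hg4 := pow_le_pow_left₀ (by positivity) hg 4
  by_cases hd3 : d = 3
  · subst hd3
    rw [if_pos rfl] at hthr
    have ht6 := pow_le_pow_left₀ (by positivity) hthr 6
    -- (x0 A)^12 x1^12 ≤ K1^4 H^24 x2^12
    have hA' : (x 0 * A) ^ 12 * x 1 ^ 12 ≤ K1 ^ 4 * (H : ℤ) ^ 24 * x 2 ^ 12 := by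
      calc (x 0 * A) ^ 12 * x 1 ^ 12 = ((x 0 * x 1) ^ 3 * A ^ 3) ^ 4 := by ring
        _ ≤ (K1 * (H : ℤ) ^ 6 * x 2 ^ 3) ^ 4 := hg4
        _ = K1 ^ 4 * (H : ℤ) ^ 24 * x 2 ^ 12 := by ring
    have hB : (16 * K1 ^ 4) ^ 6 * (H : ℤ) ^ 30 * x 1 ^ 12 ≤
        K1 ^ 4 * (H : ℤ) ^ 24 * x 2 ^ 12 := by
      calc (16 * K1 ^ 4) ^ 6 * (H : ℤ) ^ 30 * x 1 ^ 12
          = (16 * K1 ^ 4 * (H : ℤ) ^ 5) ^ 6 * x 1 ^ 12 := by ring
        _ ≤ ((x 0 * A) ^ 2) ^ 6 * x 1 ^ 12 :=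
            mul_le_mul_of_nonneg_right ht6 (by positivity)
        _ = (x 0 * A) ^ 12 * x 1 ^ 12 := by ring
        _ ≤ _ := hA'
    have hC : K1 ^ 4 * (H : ℤ) ^ 24 * (16 * (H : ℤ) * x 1 ^ 4) ^ 3 ≤
        K1 ^ 4 * (H : ℤ) ^ 24 * (x 2 ^ 4) ^ 3 := by
      calc K1 ^ 4 * (H : ℤ) ^ 24 * (16 * (H : ℤ) * x 1 ^ 4) ^ 3
          = (K1 ^ 4 * 16 ^ 3 * (H : ℤ) ^ 27) * x 1 ^ 12 := by ring
        _ ≤ ((16 * K1 ^ 4) ^ 6 * (H : ℤ) ^ 30) * x 1 ^ 12 := by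
            refine mul_le_mul_of_nonneg_right ?_ (by positivity)
            have e1 : K1 ^ 4 * 16 ^ 3 ≤ (16 * K1 ^ 4) ^ 6 := by
              have : (1 : ℤ) ≤ (K1 ^ 4) ^ 5 := one_le_pow₀ hK4
              calc K1 ^ 4 * 16 ^ 3 ≤ K1 ^ 4 * 16 ^ 3 * (16 ^ 3 * (K1 ^ 4) ^ 5) := by
                    refine le_mul_of_one_le_right (by positivity) ?_
                    nlinarith
                _ = (16 * K1 ^ 4) ^ 6 := by ring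
            have e2 : (H : ℤ) ^ 27 ≤ (H : ℤ) ^ 30 := pow_le_pow_right₀ hH1 (by norm_num)
            exact mul_le_mul e1 e2 (by positivity) (by positivity)
        _ ≤ K1 ^ 4 * (H : ℤ) ^ 24 * x 2 ^ 12 := hB
        _ = K1 ^ 4 * (H : ℤ) ^ 24 * (x 2 ^ 4) ^ 3 := by ring
    have hD : (16 * (H : ℤ) * x 1 ^ 4) ^ 3 ≤ (x 2 ^ 4) ^ 3 :=
      le_of_mul_le_mul_left hC (by positivity)
    exact le_of_pow_le_pow_left₀ (by norm_num) (by positivity) hD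
  · rw [if_neg hd3] at hthr
    have hd4 : 4 ≤ d := by omega
    have htd := pow_le_pow_left₀ (by positivity) hthr d
    have hA3 : 1 ≤ A ^ 3 := one_le_pow₀ hA1
    have hA' : (x 0 ^ 4) ^ d * (x 1 ^ 4) ^ d ≤ K1 ^ 4 * (H : ℤ) ^ 24 * (x 2 ^ 4) ^ d := by
      calc (x 0 ^ 4) ^ d * (x 1 ^ 4) ^ d = ((x 0 * x 1) ^ d) ^ 4 := by
            rw [← mul_pow, ← mul_pow, ← pow_mul, ← pow_mul, mul_comm d 4]
        _ ≤ ((x 0 * x 1) ^ d * A ^ 3) ^ 4 :=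
            pow_le_pow_left₀ (by positivity) (le_mul_of_one_le_right (by positivity) hA3) 4
        _ ≤ (K1 * (H : ℤ) ^ 6 * x 2 ^ d) ^ 4 := hg4
        _ = K1 ^ 4 * (H : ℤ) ^ 24 * (x 2 ^ 4) ^ d := by
            rw [mul_pow, mul_pow, ← pow_mul, ← pow_mul, ← pow_mul, mul_comm d 4]
    have hC : K1 ^ 4 * (H : ℤ) ^ 24 * (16 * (H : ℤ) * x 1 ^ 4) ^ d ≤
        K1 ^ 4 * (H : ℤ) ^ 24 * (x 2 ^ 4) ^ d := by
      calc K1 ^ 4 * (H : ℤ) ^ 24 * (16 * (H : ℤ) * x 1 ^ 4) ^ d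
          = (16 ^ d * K1 ^ 4 * (H : ℤ) ^ (24 + d)) * (x 1 ^ 4) ^ d := by
            rw [mul_pow, mul_pow, pow_add]; ring
        _ ≤ ((16 * K1 ^ 4) ^ d * (H : ℤ) ^ (7 * d)) * (x 1 ^ 4) ^ d := by
            refine mul_le_mul_of_nonneg_right ?_ (by positivity)
            have e1 : 16 ^ d * K1 ^ 4 ≤ (16 * K1 ^ 4) ^ d := by
              rw [mul_pow (16 : ℤ) (K1 ^ 4) d]
              exact mul_le_mul_of_nonneg_left (le_self_pow₀ hK4 (show d ≠ 0 by omega))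
                (by positivity)
            have e2 : (H : ℤ) ^ (24 + d) ≤ (H : ℤ) ^ (7 * d) :=
              pow_le_pow_right₀ hH1 (by omega)
            exact mul_le_mul e1 e2 (by positivity) (by positivity)
        _ = (16 * K1 ^ 4 * (H : ℤ) ^ 7) ^ d * (x 1 ^ 4) ^ d := by
            rw [mul_pow (16 * K1 ^ 4), ← pow_mul (H : ℤ) 7 d]
        _ ≤ (x 0 ^ 4) ^ d * (x 1 ^ 4) ^ d :=
            mul_le_mul_of_nonneg_right htd (by positivity)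
        _ ≤ _ := hA'
    have hD : (16 * (H : ℤ) * x 1 ^ 4) ^ d ≤ (x 2 ^ 4) ^ d :=
      le_of_mul_le_mul_left hC (by positivity)
    exact le_of_pow_le_pow_left₀ (by omega) (by positivity) hD

theorem growth2 (d : ℕ) (hd : 3 ≤ d) : ∃ K : ℕ, 1 ≤ K ∧ ∀ (H : ℕ) (a : Fin (d + 1) → ℤ)
    (θ : Fin d → ℂ), Roots H a θ → ∀ (x : Fin 3 → ℤ), (K : ℤ) * (H : ℤ) ^ 12 ≤ x 0 →
    x 0 < x 1 → x 1 < x 2 →
    ∀ (e : Fin 3 → Fin d → ℂ), (∀ l, IsE θ (x l) (e l)) → (∀ l l', SRel θ (e l) (e l')) →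
    x 0 * x 1 ^ 2 ≤ x 2 ^ 2 := by
  refine ⟨4 * (256 ^ d * (d + 1) ^ 6) ^ 2, ?_, ?_⟩
  · have : 0 < 4 * (256 ^ d * (d + 1) ^ 6) ^ 2 := by positivity
    omega
  intro H a θ hR x hT h01 h12 e he hs
  obtain ⟨hA1, hH1⟩ := A_ge hR
  set K1 : ℤ := 256 ^ d * ((d : ℤ) + 1) ^ 6 with hK1
  have hK1p : 1 ≤ K1 := K1_pos d
  have hK1c : ((4 * (256 ^ d * (d + 1) ^ 6) ^ 2 : ℕ) : ℤ) = 4 * K1 ^ 2 := by
    push_cast
    rfl
  rw [hK1c] at hT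
  have hHp : 0 < (H : ℤ) := by omega
  have hK2 : 1 ≤ K1 ^ 2 := one_le_pow₀ hK1p
  have hH12 : (H : ℤ) ≤ (H : ℤ) ^ 12 := le_self_pow₀ hH1 (by norm_num)
  have h0 : 4 * (H : ℤ) ≤ x 0 := by
    refine le_trans ?_ hT
    calc 4 * (H : ℤ) ≤ 4 * (H : ℤ) ^ 12 := by linarith
      _ ≤ 4 * K1 ^ 2 * (H : ℤ) ^ 12 := by
          refine mul_le_mul_of_nonneg_right ?_ (by positivity)
          linarith
  have h1 : 1 ≤ x 0 := by omega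
  have hg := gapK hd hR x h0 h1 h01 h12 e he hs
  rw [← hK1] at hg
  set A : ℤ := |a (Fin.last d)| with hA
  have hx0 : 0 < x 0 := by omega
  have hx1 : 0 < x 1 := by omega
  have hx2 : 0 < x 2 := by omega
  have hA3 : 1 ≤ A ^ 3 := one_le_pow₀ hA1
  have hg2 : ((x 0 * x 1) ^ d) ^ 2 ≤ (K1 * (H : ℤ) ^ 6 * x 2 ^ d) ^ 2 := by
    refine pow_le_pow_left₀ (by positivity) (le_trans ?_ hg) 2
    exact le_mul_of_one_le_right (by positivity) hA3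
  have hKH : (K1 * (H : ℤ) ^ 6) ^ 2 ≤ x 0 := by
    refine le_trans ?_ hT
    have : 0 ≤ K1 ^ 2 * (H : ℤ) ^ 12 := by positivity
    nlinarith
  have hC : x 0 ^ d * (x 0 * x 1 ^ 2) ^ d ≤ x 0 ^ d * (x 2 ^ 2) ^ d := by
    calc x 0 ^ d * (x 0 * x 1 ^ 2) ^ d = ((x 0 * x 1) ^ d) ^ 2 := by
          rw [mul_pow, mul_pow, ← pow_mul, mul_pow, ← pow_mul, ← pow_mul, mul_comm d 2,
            pow_mul (x 0) 2 d, sq (x 0), mul_pow]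
          ring
      _ ≤ (K1 * (H : ℤ) ^ 6 * x 2 ^ d) ^ 2 := hg2
      _ = (K1 * (H : ℤ) ^ 6) ^ 2 * (x 2 ^ 2) ^ d := by
          rw [mul_pow, ← pow_mul (x 2), ← pow_mul (x 2), mul_comm d 2]
      _ ≤ x 0 * (x 2 ^ 2) ^ d := mul_le_mul_of_nonneg_right hKH (by positivity)
      _ ≤ x 0 ^ d * (x 2 ^ 2) ^ d :=
          mul_le_mul_of_nonneg_right (le_self_pow₀ h1 (by omega)) (by positivity)
  have hD : (x 0 * x 1 ^ 2) ^ d ≤ (x 2 ^ 2) ^ d :=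
    le_of_mul_le_mul_left hC (by positivity)
  exact le_of_pow_le_pow_left₀ (by omega) (by positivity) hD

end Pool.Agent.Helper32.FM
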