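import Pool.Agent.Helper32.FM.Defs

set_option autoImplicit false

/-!
FM-G1 LemG. Gauss' lemma for products over the roots: `a_d^m` clears the denominators.

PROOF. (1) LEMMA: if `g ∈ ℂ[X]` has all coefficients integral over `ℤ` and `g = (X - C z) * q`, then all coefficients of `q` are
integral over `ℤ`. Let `n = natDegree q`, `M` the `ℤ`-submodule ... simplest: by induction on the degree of `g`, or: let
`O = integralClosure ℤ ℂ`; for `j ≤ n` the number `b = q.coeff j` satisfies `b M ⊆ M` for the finitely generated `O'`-module `M` spanned by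
`1, z, .., z^n` over the subring `O' = ℤ[coefficients of g]` (a f.g. `ℤ`-module algebra: all coefficients integral): for `i ≤ j`
`b z^i` is `∑_(l > j) g_l z^(l-1-j+i)` with `l - 1 - j + i ≤ n`, for `i > j` it is `- ∑_(l ≤ j) g_l z^(l+i-1-j)`. Then
`isIntegral_of_smul_mem_submodule`. ALTERNATIVE PROOF of (1): leading coefficient argument: `q = ∑ b_j X^j`, `b_n = g_(n+1)`,
`b_(j-1) = g_j + z b_j`. Show by downward induction that `b_j` and `b_j z` are integral: `b_j z` is a root of ... (use whichever is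
shorter; Mathlib may have `Polynomial.isIntegral_coeff_of_dvd` / `IsIntegral` lemmas for factors of polynomials: e.g.
`Polynomial.isIntegral_coeff_of_factors`, or Gauss' lemma via `Polynomial.IsPrimitive`; a valuation proof is also possible).
(2) With `g = C a_d * ∏_(t ∈ univ) (X - C (θ t))` = image of `f` (integral coefficients) and induction on the number of removed factors:
for every `S`, `C a_d * ∏_(t ∈ S) (X - C (θ t))` has integral coefficients; evaluate at `0`: `lemG_set`.
(3) `lemG`: expand `∏ t (x t - θ t) = ∑_S (∏_(t ∉ S) x t) (∏_(t ∈ S) (- θ t))` (`Finset.prod_add` / `Finset.prod_sub`).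
(4) `lemG_mult`: all fibres of `τ` have `m` elements: choose `φ : I ≃ Fin m × Fin d` with `(φ i).2 = τ i` (fibres ≃ Fin m:
`Fintype.equivFinOfCardEq`, `Equiv.sigmaFiberEquiv`), then the product is `∏_(r : Fin m) (a_d * ∏_t (x (φ.symm (r,t)) - θ t))`.
(5) `lemG_sqrt`: the square of `a_d^m * ∏ γ i` is the product of two numbers as in (4); `IsIntegral.of_pow`.
-/

open Polynomial

namespace Pool.Agent.Helper32.FM

/-- the coefficients of `g / (X - z)` are integral (Horner) -/
private theorem coeff_quot_int : ∀ (N : ℕ) (g : (integralClosure ℤ ℂ)[X]) (z : ℂ) (q : ℂ[X]),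
    g.natDegree ≤ N → g.map (algebraMap (integralClosure ℤ ℂ) ℂ) = (X - C z) * q →
    ∀ j, IsIntegral ℤ (q.coeff j) := by
  intro N
  induction N with
  | zero =>
    intro g z q hg h j
    have hq : q = 0 := by
      by_contra hq
      have h1 : (g.map (algebraMap (integralClosure ℤ ℂ) ℂ)).natDegree ≤ 0 :=
        (natDegree_map_le).trans hg
      rw [h, natDegree_mul (X_sub_C_ne_zero z) hq, natDegree_X_sub_C] at h1
      omega
    rw [hq, coeff_zero]
    exact isIntegral_zero
  | succ N ih =>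
    intro g z q hg h j
    -- `c z` is integral, `c` the coefficient of `X^(N+1)`
    have hcz : IsIntegral ℤ (algebraMap (integralClosure ℤ ℂ) ℂ (g.coeff (N + 1)) * z) := by
      by_cases hc : g.coeff (N + 1) = 0
      · rw [hc, map_zero, zero_mul]
        exact isIntegral_zero
      · have hdeg : g.natDegree = N + 1 := le_antisymm hg (le_natDegree_of_ne_zero hc)
        have hroot : aeval z g = 0 := by
          rw [aeval_def, ← eval_map, h, eval_mul, eval_sub, eval_X, eval_C, sub_self, zero_mul]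
        have h1 := isIntegral_leadingCoeff_smul g z hroot
        rw [leadingCoeff, hdeg, Algebra.smul_def] at h1
        exact isIntegral_trans (R := ℤ) (A := integralClosure ℤ ℂ) _ h1
    obtain ⟨w, hw⟩ : ∃ w : integralClosure ℤ ℂ, algebraMap (integralClosure ℤ ℂ) ℂ w =
        algebraMap (integralClosure ℤ ℂ) ℂ (g.coeff (N + 1)) * z := ⟨⟨_, hcz⟩, rfl⟩
    have hg' : (g - C (g.coeff (N + 1)) * X ^ (N + 1) + C w * X ^ N).natDegree ≤ N := by
      rw [natDegree_le_iff_coeff_eq_zero]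
      intro m hm
      rw [coeff_add, coeff_sub, coeff_C_mul, coeff_C_mul, coeff_X_pow, coeff_X_pow,
        if_neg (by omega : m ≠ N)]
      by_cases hm1 : m = N + 1
      · rw [hm1, if_pos rfl]
        ring
      · rw [if_neg hm1, coeff_eq_zero_of_natDegree_lt (by omega)]
        ring
    have h' : (g - C (g.coeff (N + 1)) * X ^ (N + 1) + C w * X ^ N).map
        (algebraMap (integralClosure ℤ ℂ) ℂ) = (X - C z) *
        (q - C (algebraMap (integralClosure ℤ ℂ) ℂ (g.coeff (N + 1))) * X ^ N) := by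
      rw [Polynomial.map_add, Polynomial.map_sub, Polynomial.map_mul, Polynomial.map_mul,
        Polynomial.map_pow, Polynomial.map_pow, map_X, map_C, map_C, h, hw, C_mul]
      ring
    have h2 := ih _ z _ hg' h' j
    rw [coeff_sub, coeff_C_mul, coeff_X_pow] at h2
    have h3 : IsIntegral ℤ (algebraMap (integralClosure ℤ ℂ) ℂ (g.coeff (N + 1)) *
        (if j = N then (1 : ℂ) else 0)) := by
      split_ifs
      · rw [mul_one]
        exact (g.coeff (N + 1)).2
      · rw [mul_zero]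
        exact isIntegral_zero
    have h4 := h2.add h3
    rwa [sub_add_cancel] at h4

/-- after removing the factors of `T` the coefficients are still integral -/
private theorem exists_lift {d H : ℕ} {a : Fin (d + 1) → ℤ} {θ : Fin d → ℂ} (hR : Roots H a θ)
    (T : Finset (Fin d)) : ∃ g : (integralClosure ℤ ℂ)[X],
      g.map (algebraMap (integralClosure ℤ ℂ) ℂ) =
        C (a (Fin.last d) : ℂ) * ∏ t ∈ Tᶜ, (X - C (θ t)) := by
  induction T using Finset.induction_on with
  | empty =>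
    refine ⟨∑ i : Fin (d + 1), C ((a i : ℤ) : integralClosure ℤ ℂ) * X ^ (i : ℕ), ?_⟩
    apply Polynomial.funext
    intro z
    rw [Finset.compl_empty, Polynomial.map_sum, eval_finsetSum, eval_mul, eval_C, eval_prod]
    have h0 := hR.eval z
    simp only [Polynomial.map_mul, Polynomial.map_pow, map_X, eval_mul, eval_pow, eval_X,
      eval_C, eval_sub, map_intCast, Polynomial.map_intCast, eval_intCast]
    exact h0
  | insert s T hs ih =>
    obtain ⟨g, hg⟩ := ih
    have hTs : Tᶜ = insert s (insert s T)ᶜ := by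
      ext x
      simp only [Finset.mem_compl, Finset.mem_insert, not_or]
      constructor
      · intro hx
        by_cases hxs : x = s
        · exact Or.inl hxs
        · exact Or.inr ⟨hxs, hx⟩
      · rintro (hx | hx)
        · rw [hx]; exact hs
        · exact hx.2
    have hns : s ∉ (insert s T)ᶜ := by simp
    rw [hTs, Finset.prod_insert hns] at hg
    have hg2 : g.map (algebraMap (integralClosure ℤ ℂ) ℂ) =
        (X - C (θ s)) * (C (a (Fin.last d) : ℂ) * ∏ t ∈ (insert s T)ᶜ, (X - C (θ t))) := by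
      rw [hg]; ring
    have hc := coeff_quot_int _ g (θ s) _ le_rfl hg2
    have hl : (C (a (Fin.last d) : ℂ) * ∏ t ∈ (insert s T)ᶜ, (X - C (θ t))) ∈
        lifts (algebraMap (integralClosure ℤ ℂ) ℂ) := by
      rw [lifts_iff_coeff_lifts]
      intro n
      exact ⟨⟨_, hc n⟩, rfl⟩
    rw [mem_lifts] at hl
    exact hl

theorem lemG_set {d H : ℕ} {a : Fin (d + 1) → ℤ} {θ : Fin d → ℂ} (hR : Roots H a θ)
    (S : Finset (Fin d)) : IsIntegral ℤ ((a (Fin.last d) : ℂ) * ∏ t ∈ S, θ t) := by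
  obtain ⟨g, hg⟩ := exists_lift hR Sᶜ
  rw [compl_compl] at hg
  have h0 : IsIntegral ℤ ((C (a (Fin.last d) : ℂ) * ∏ t ∈ S, (X - C (θ t))).eval 0) := by
    rw [← hg, ← coeff_zero_eq_eval_zero, coeff_map]
    exact (g.coeff 0).2
  rw [eval_mul, eval_C, eval_prod] at h0
  have h1 : ∏ t ∈ S, (X - C (θ t)).eval 0 = (-1) ^ S.card * ∏ t ∈ S, θ t := by
    rw [← Finset.prod_const, ← Finset.prod_mul_distrib]
    refine Finset.prod_congr rfl fun t _ => ?_
    rw [eval_sub, eval_X, eval_C]
    ring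
  rw [h1] at h0
  have h2 : IsIntegral ℤ ((-1 : ℂ) ^ S.card) := (isIntegral_one.neg).pow _
  have h3 := h2.mul h0
  have h4 : (-1 : ℂ) ^ S.card * ((a (Fin.last d) : ℂ) * ((-1) ^ S.card * ∏ t ∈ S, θ t)) =
      (a (Fin.last d) : ℂ) * ∏ t ∈ S, θ t := by
    have : (-1 : ℂ) ^ S.card * (-1) ^ S.card = 1 := by
      rw [← mul_pow]; norm_num
    calc _ = ((-1 : ℂ) ^ S.card * (-1) ^ S.card) * ((a (Fin.last d) : ℂ) * ∏ t ∈ S, θ t) := by ring
      _ = _ := by rw [this, one_mul]
  rwa [h4] at h3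

theorem lemG {d H : ℕ} {a : Fin (d + 1) → ℤ} {θ : Fin d → ℂ} (hR : Roots H a θ) (x : Fin d → ℤ) :
    IsIntegral ℤ ((a (Fin.last d) : ℂ) * ∏ t, ((x t : ℂ) - θ t)) := by
  have h1 : ∏ t, ((x t : ℂ) - θ t) = ∏ t, ((x t : ℂ) + (-1) * θ t) :=
    Finset.prod_congr rfl fun t _ => by ring
  rw [h1, Finset.prod_add, Finset.mul_sum]
  refine IsIntegral.sum _ fun S _ => ?_
  rw [Finset.prod_mul_distrib, Finset.prod_const]
  have h2 : IsIntegral ℤ (∏ i ∈ S, (x i : ℂ)) := by
    refine IsIntegral.prod _ fun i _ => ?_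
    exact isIntegral_algebraMap (R := ℤ) (A := ℂ) (x := x i)
  have h3 : IsIntegral ℤ ((-1 : ℂ) ^ (Finset.univ \ S).card) := (isIntegral_one.neg).pow _
  have h4 := (h2.mul h3).mul (lemG_set hR (Finset.univ \ S))
  have h5 : (∏ i ∈ S, (x i : ℂ)) * (-1 : ℂ) ^ (Finset.univ \ S).card *
      ((a (Fin.last d) : ℂ) * ∏ t ∈ Finset.univ \ S, θ t) =
      (a (Fin.last d) : ℂ) * ((∏ i ∈ S, (x i : ℂ)) *
        ((-1 : ℂ) ^ (Finset.univ \ S).card * ∏ t ∈ Finset.univ \ S, θ t)) := by ring
  rwa [h5] at h4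

theorem lemG_mult {d H : ℕ} {a : Fin (d + 1) → ℤ} {θ : Fin d → ℂ} (hR : Roots H a θ)
    {I : Type} [Fintype I] [DecidableEq I] (τ : I → Fin d) (m : ℕ)
    (hτ : ∀ t, (Finset.univ.filter fun i => τ i = t).card = m) (x : I → ℤ) :
    IsIntegral ℤ ((a (Fin.last d) : ℂ) ^ m * ∏ i, ((x i : ℂ) - θ (τ i))) := by
  have hcard : ∀ t, Fintype.card {i // τ i = t} = m := by
    intro t
    rw [Fintype.card_subtype]
    exact hτ t
  have e : ∀ t, {i // τ i = t} ≃ Fin m := fun t => Fintype.equivFinOfCardEq (hcard t)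
  have h1 : ∏ i, ((x i : ℂ) - θ (τ i)) =
      ∏ r : Fin m, ∏ t, ((x ((e t).symm r).1 : ℂ) - θ t) := by
    rw [Finset.prod_comm, ← (Equiv.sigmaFiberEquiv τ).prod_comp, Fintype.prod_sigma]
    refine Finset.prod_congr rfl fun t _ => ?_
    rw [← (e t).symm.prod_comp]
    refine Finset.prod_congr rfl fun r _ => ?_
    have h2 : τ ((e t).symm r).1 = t := ((e t).symm r).2
    simp only [Equiv.sigmaFiberEquiv, Equiv.coe_fn_mk, h2]
  have h3 : (a (Fin.last d) : ℂ) ^ m * ∏ i, ((x i : ℂ) - θ (τ i)) =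
      ∏ r : Fin m, ((a (Fin.last d) : ℂ) * ∏ t, ((x ((e t).symm r).1 : ℂ) - θ t)) := by
    rw [Finset.prod_mul_distrib, Finset.prod_const, Finset.card_univ, Fintype.card_fin, h1]
  rw [h3]
  exact IsIntegral.prod _ fun r _ => lemG hR fun t => x ((e t).symm r).1

theorem lemG_sqrt {d H : ℕ} {a : Fin (d + 1) → ℤ} {θ : Fin d → ℂ} (hR : Roots H a θ)
    {I : Type} [Fintype I] [DecidableEq I] (τ : I → Fin d) (m : ℕ)
    (hτ : ∀ t, (Finset.univ.filter fun i => τ i = t).card = m) (x y : I → ℤ) (γ : I → ℂ)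
    (hγ : ∀ i, γ i ^ 2 = ((x i : ℂ) - θ (τ i)) * ((y i : ℂ) - θ (τ i))) :
    IsIntegral ℤ ((a (Fin.last d) : ℂ) ^ m * ∏ i, γ i) := by
  have h1 := (lemG_mult hR τ m hτ x).mul (lemG_mult hR τ m hτ y)
  have h2 : ((a (Fin.last d) : ℂ) ^ m * ∏ i, γ i) ^ 2 =
      ((a (Fin.last d) : ℂ) ^ m * ∏ i, ((x i : ℂ) - θ (τ i))) *
        ((a (Fin.last d) : ℂ) ^ m * ∏ i, ((y i : ℂ) - θ (τ i))) := by
    have h3 : (∏ i, γ i) ^ 2 = (∏ i, ((x i : ℂ) - θ (τ i))) * ∏ i, ((y i : ℂ) - θ (τ i)) := by
      rw [← Finset.prod_pow, ← Finset.prod_mul_distrib]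
      exact Finset.prod_congr rfl fun i _ => hγ i
    rw [mul_pow, h3]
    ring
  rw [← h2] at h1
  exact IsIntegral.of_pow (by norm_num) h1

end Pool.Agent.Helper32.FM
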