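import Pool.Agent.Helper38.DZR.OddCellR
import Pool.Agent.Helper32.FM.Defs

set_option autoImplicit false

/-!
FM-E3 OddCellI. `odd_count` and `odd_cell_r` with an index type.

PROOF. Copy `odd_count` (Helper32/DZ/OddCount.lean: `inj_count` is already stated for any index type; the injectivity is now a hypothesis)
and `odd_cell_r` (Helper38/DZR/OddCellR.lean: only the first line of the proof that uses `odd_count` changes; its private lemmas must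
be copied).
-/

open Polynomial Matrix Pool.Agent.Helper32.DZ Pool.Agent.Helper38.DZR

namespace Pool.Agent.Helper32.FM

/-- all `i ∈ F` have the reduced pair `(G i, S i)` in the cell `κ`, inequivalent under unitriangular matrices -/
def CellOI (d H : ℕ) {ι : Type} (κ : Fin d → ℤ) (α : ℤ) (F : Set ι)
    (G S : ι → Matrix (Fin d) (Fin d) ℤ) : Prop :=
  Monotone κ ∧
  (∀ i ∈ F, ∀ j ∈ F, ∀ U ∈ Tr κ, ∀ V ∈ Tr κ, Uᵀ * G i * U = Vᵀ * G j * V →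
    Uᵀ * S i * U = Vᵀ * S j * V → i = j) ∧
  ∀ a ∈ F, PG (G a) (S a) ∧ NegSq α (S a) ∧
    ∀ U ∈ Tr κ, ∀ i j, |(((Uᵀ * G a * U) i j : ℤ) : ℝ)| < (2 : ℝ) ^ (κ i + κ j) ∧
      |(((Uᵀ * S a * U) i j : ℤ) : ℝ)| < 2 * (H : ℝ) * (2 : ℝ) ^ (κ i + κ j)

private theorem h86ps_finite (α : ℤ) (L : ℝ) : (Ps α L).Finite := by
  refine (Set.finite_Icc (-⌈L⌉) ⌈L⌉).subset ?_
  rintro s ⟨_, h, _⟩
  have h1 := abs_lt.mp h
  have h2 : (s : ℝ) < (⌈L⌉ : ℤ) := h1.2.trans_le (Int.le_ceil L)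
  have h3 : ((-⌈L⌉ : ℤ) : ℝ) < (s : ℝ) := by
    push_cast
    linarith [Int.le_ceil L, h1.1]
  exact ⟨by exact_mod_cast h3.le, by exact_mod_cast h2.le⟩

private theorem h86mem (m H : ℕ) (κ : Fin (m + 1) → ℤ) (α : ℤ)
    {M : Matrix (Fin (m + 1)) (Fin (m + 1)) ℤ × Matrix (Fin (m + 1)) (Fin (m + 1)) ℤ}
    (hM : M ∈ OT (m + 1) H κ α) (h0 : M.2 0 0 ≠ 0) :
    M.2 0 0 ∈ Ps α (2 * (H : ℝ) * (2 : ℝ) ^ (2 * κ 0)) := by
  refine ⟨h0, ?_, ?_⟩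
  · have h1 := hM.2.1.2 0 0
    have h2 : 2 * κ 0 = κ 0 + κ 0 := two_mul _
    rw [h2]
    exact h1
  · intro p hp hpα
    obtain ⟨u, hu⟩ := hM.2.2.1
    have h1 : (p : ℤ) ∣ M.2 0 0 + u 0 * u 0 := hpα.trans (hu 0 0)
    rw [← ZMod.intCast_zmod_eq_zero_iff_dvd] at h1
    refine ⟨((u 0 : ℤ) : ZMod p), ?_⟩
    push_cast at h1 ⊢
    linear_combination -h1

private theorem h86split (m H : ℕ) (κ : Fin (m + 1) → ℤ) (α : ℤ) :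
    ((OT (m + 1) H κ α).ncard : ℝ) ≤ ((({M ∈ OT (m + 1) H κ α | M.2 0 0 = 0}.ncard : ℕ) : ℝ)) +
      ∑ s ∈ (h86ps_finite α (2 * (H : ℝ) * (2 : ℝ) ^ (2 * κ 0))).toFinset,
        ((({M ∈ OT (m + 1) H κ α | M.2 0 0 = s}.ncard : ℕ) : ℝ)) := by
  classical
  set T := (ot_finite (m + 1) H κ α).toFinset with hT
  set P := (h86ps_finite α (2 * (H : ℝ) * (2 : ℝ) ^ (2 * κ 0))).toFinset with hP
  have h0 : (0 : ℤ) ∉ P := by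
    rw [hP, Set.Finite.mem_toFinset]
    exact fun h => h.1 rfl
  have hmap : ∀ M ∈ T, M.2 0 0 ∈ insert (0 : ℤ) P := by
    intro M hM
    rw [hT, Set.Finite.mem_toFinset] at hM
    rw [Finset.mem_insert]
    by_cases h : M.2 0 0 = 0
    · exact Or.inl h
    · right
      rw [hP, Set.Finite.mem_toFinset]
      exact h86mem m H κ α hM h
  have hcard := Finset.card_eq_sum_card_fiberwise (f := fun M : Matrix (Fin (m + 1)) (Fin (m + 1)) ℤ ×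
    Matrix (Fin (m + 1)) (Fin (m + 1)) ℤ => M.2 0 0) (s := T) (t := insert (0 : ℤ) P) hmap
  have hfib : ∀ s : ℤ, (T.filter fun M => M.2 0 0 = s).card =
      ({M ∈ OT (m + 1) H κ α | M.2 0 0 = s} : Set _).ncard := by
    intro s
    rw [← Set.ncard_coe_finset]
    congr 1
    ext M
    simp [hT]
  rw [Finset.sum_insert h0, hfib] at hcard
  have hT' : (OT (m + 1) H κ α).ncard = T.card := by
    rw [← Set.ncard_coe_finset]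
    congr 1
    ext M
    simp [hT]
  rw [hT', hcard]
  push_cast
  refine add_le_add le_rfl (le_of_eq ?_)
  refine Finset.sum_congr rfl fun s _ => ?_
  rw [hfib]

private theorem odd_count_i (d H : ℕ) {ι : Type} (κ : Fin d → ℤ) (α : ℤ) (F : Set ι)
    (hF : F.Finite) (G S : ι → Matrix (Fin d) (Fin d) ℤ) (h : CellOI d H κ α F G S) :
    (F.ncard : ℝ) * (2 : ℝ) ^ (Dk κ) ≤ (((OT d H κ α).ncard : ℕ) : ℝ) := by
  obtain ⟨hκ, h1, h2⟩ := h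
  exact inj_count F hF κ hκ G S (fun a ha => (h2 a ha).1) h1
    (OT d H κ α) (ot_finite d H κ α)
    (fun a ha U hU => by
      have h4 := pg_conj (G a) (S a) U (h2 a ha).1 (Or.inl (ut_det U hU.1))
      have h5 := (h2 a ha).2.2 U hU
      exact ⟨⟨h4.1, fun i j => (h5 i j).1⟩, ⟨h4.2.1, fun i j => (h5 i j).2⟩,
        negSq_conj _ _ _ (h2 a ha).2.1, h4⟩)

theorem odd_cell_i (m : ℕ) (hm : Even m) (h2 : 2 ≤ m) (c : ℕ) : ∃ K1 : ℕ, ∀ t : ℕ,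
    ∀ H : ℕ, 1 ≤ H → ∀ (q : ℕ) (α : ℤ), α ≠ 0 → Squarefree q → (q : ℤ) ∣ α →
    (H : ℝ) ≤ 2 ^ t * q → ∀ κ : Fin (m + 1) → ℤ,
    (∀ i : Fin (m + 1), 1 ≤ κ i + κ i.rev ∧ κ i + κ i.rev ≤ 2 * (c : ℤ)) → ∑ i, κ i ≤ (c : ℤ) →
    ∀ (ι : Type) (F : Set ι) (_ : F.Finite) (G S : ι → Matrix (Fin (m + 1)) (Fin (m + 1)) ℤ),
      CellOI (m + 1) H κ α F G S →
      (F.ncard : ℝ) ≤ 2 ^ (K1 * (t + 1)) * √((H : ℝ) ^ (2 * m + 1)) +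
        2 ^ (K1 * (t + 1)) * (H : ℝ) ^ m * (2 : ℝ) ^ (-(2 * κ 0)) *
          (3 / 4 : ℝ) ^ (κ (Fin.last m) - κ 0) *
          (((Ps α (2 * (H : ℝ) * (2 : ℝ) ^ (2 * κ 0))).ncard : ℕ) : ℝ) := by
  obtain ⟨A1, hpos⟩ := odd_pos_r m hm h2 c
  obtain ⟨A2, hzero⟩ := odd_zero_r m hm h2 c
  refine ⟨max A1 A2, fun t => ?_⟩
  intro H hH q α _ hsq hdvd hHq κ hκ1 hκ2 ι F hF G S hcell
  have hmono : Monotone κ := hcell.1
  have hcount := odd_count_i (m + 1) H κ α F hF G S hcell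
  have hA := hpos t H hH q α hsq hdvd hHq κ hmono hκ1 hκ2
  have hB := hzero t H hH q α hsq hdvd hHq κ hmono hκ1 hκ2
  obtain ⟨K1, hK1e⟩ : ∃ K1 : ℝ, K1 = 2 ^ (A1 * (t + 1)) := ⟨_, rfl⟩
  obtain ⟨K2, hK2e⟩ : ∃ K2 : ℝ, K2 = 2 ^ (A2 * (t + 1)) := ⟨_, rfl⟩
  obtain ⟨K, hKe⟩ : ∃ K : ℝ, K = 2 ^ (max A1 A2 * (t + 1)) := ⟨_, rfl⟩
  rw [← hK1e] at hA
  simp only [← hK2e] at hB
  rw [← hKe]
  have hK1K : K1 ≤ K := by
    rw [hK1e, hKe]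
    exact pow_le_pow_right₀ (by norm_num) (Nat.mul_le_mul_right _ (le_max_left _ _))
  have hK2K : K2 ≤ K := by
    rw [hK2e, hKe]
    exact pow_le_pow_right₀ (by norm_num) (Nat.mul_le_mul_right _ (le_max_right _ _))
  have hK0 : 1 ≤ K := by
    rw [hKe]
    exact one_le_pow₀ (by norm_num)
  have hD : (0 : ℝ) < (2 : ℝ) ^ (Dk κ) := zpow_pos (by norm_num) _
  have hE : (0 : ℝ) < (2 : ℝ) ^ (-(2 * κ 0)) := zpow_pos (by norm_num) _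
  have hQ : (0 : ℝ) < (3 / 4 : ℝ) ^ (κ (Fin.last m) - κ 0) := zpow_pos (by norm_num) _
  have hHm : (0 : ℝ) ≤ (H : ℝ) ^ m := by positivity
  have hX : (0 : ℝ) ≤ (H : ℝ) ^ (2 * m + 1) := by positivity
  have hsplit := h86split m H κ α
  -- the part with zero entry
  have h1 : ((({M ∈ OT (m + 1) H κ α | M.2 0 0 = 0}.ncard : ℕ) : ℝ)) ≤
      K * (2 : ℝ) ^ (Dk κ) * √((H : ℝ) ^ (2 * m + 1)) := by
    refine (sq_le_sq₀ (Nat.cast_nonneg _) (by positivity)).mp ?_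
    refine hA.trans ?_
    rw [mul_pow, mul_pow, Real.sq_sqrt hX]
    have h3 : K1 ≤ K ^ 2 := by
      have h4 : K1 ≤ K := hK1K
      nlinarith
    have h5 : 0 ≤ ((2 : ℝ) ^ (Dk κ)) ^ 2 * (H : ℝ) ^ (2 * m + 1) := by positivity
    calc K1 * ((2 : ℝ) ^ (Dk κ)) ^ 2 * (H : ℝ) ^ (2 * m + 1)
        = K1 * (((2 : ℝ) ^ (Dk κ)) ^ 2 * (H : ℝ) ^ (2 * m + 1)) := by ring
      _ ≤ K ^ 2 * (((2 : ℝ) ^ (Dk κ)) ^ 2 * (H : ℝ) ^ (2 * m + 1)) :=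
          mul_le_mul_of_nonneg_right h3 h5
      _ = K ^ 2 * ((2 : ℝ) ^ (Dk κ)) ^ 2 * (H : ℝ) ^ (2 * m + 1) := by ring
  -- the other part
  have h3 : ∑ s ∈ (h86ps_finite α (2 * (H : ℝ) * (2 : ℝ) ^ (2 * κ 0))).toFinset,
      ((({M ∈ OT (m + 1) H κ α | M.2 0 0 = s}.ncard : ℕ) : ℝ)) ≤
      (((Ps α (2 * (H : ℝ) * (2 : ℝ) ^ (2 * κ 0))).ncard : ℕ) : ℝ) *
        (K * (H : ℝ) ^ m * (2 : ℝ) ^ (Dk κ) * (2 : ℝ) ^ (-(2 * κ 0)) *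
        (3 / 4 : ℝ) ^ (κ (Fin.last m) - κ 0)) := by
    have h4 : ((Ps α (2 * (H : ℝ) * (2 : ℝ) ^ (2 * κ 0))).ncard : ℕ) =
        (h86ps_finite α (2 * (H : ℝ) * (2 : ℝ) ^ (2 * κ 0))).toFinset.card :=
      Set.ncard_eq_toFinset_card _ _
    rw [h4, ← nsmul_eq_mul]
    refine Finset.sum_le_card_nsmul _ _ _ fun s hs => ?_
    rw [Set.Finite.mem_toFinset] at hs
    refine (hB s hs.1).trans ?_
    have h6 : K2 ≤ K := hK2K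
    have h7 : 0 ≤ (H : ℝ) ^ m * (2 : ℝ) ^ (Dk κ) * (2 : ℝ) ^ (-(2 * κ 0)) *
        (3 / 4 : ℝ) ^ (κ (Fin.last m) - κ 0) := by positivity
    calc K2 * (H : ℝ) ^ m * (2 : ℝ) ^ (Dk κ) * (2 : ℝ) ^ (-(2 * κ 0)) *
          (3 / 4 : ℝ) ^ (κ (Fin.last m) - κ 0)
        = K2 * ((H : ℝ) ^ m * (2 : ℝ) ^ (Dk κ) * (2 : ℝ) ^ (-(2 * κ 0)) *
          (3 / 4 : ℝ) ^ (κ (Fin.last m) - κ 0)) := by ring
      _ ≤ K * ((H : ℝ) ^ m * (2 : ℝ) ^ (Dk κ) * (2 : ℝ) ^ (-(2 * κ 0)) *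
          (3 / 4 : ℝ) ^ (κ (Fin.last m) - κ 0)) := mul_le_mul_of_nonneg_right h6 h7
      _ = _ := by ring
  have h5 : (F.ncard : ℝ) * (2 : ℝ) ^ (Dk κ) ≤
      (K * √((H : ℝ) ^ (2 * m + 1)) +
        K * (H : ℝ) ^ m * (2 : ℝ) ^ (-(2 * κ 0)) * (3 / 4 : ℝ) ^ (κ (Fin.last m) - κ 0) *
          (((Ps α (2 * (H : ℝ) * (2 : ℝ) ^ (2 * κ 0))).ncard : ℕ) : ℝ)) * (2 : ℝ) ^ (Dk κ) := by
    refine hcount.trans (hsplit.trans ((add_le_add h1 h3).trans (le_of_eq ?_)))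
    ring
  exact le_of_mul_le_mul_right h5 hD

end Pool.Agent.Helper32.FM
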