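import Pool.Agent.Helper32.DZ.PencilS
import Pool.Agent.Helper32.DZ.PropOf
import Pool.Agent.Helper32.FM.Corner

set_option autoImplicit false

/-!
FM-E5a PencilPt. The pencil of a point, with the corner entry of the adjugate.

PROOF. `pencil_c`: copy PencilS.lean (all its private lemmas) and add the last component: `X • A.map C - B.map C` is (by `pen_mat` there, as
matrices) `mat b c (C s * X - C r) (C ρ - C σ * X) (k+1)` up to the signs used there, and its adjugate entry `(last, last)` is the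
determinant of the corner block, `(-1)^q (C s * X - C r)^k` by `mat_corner` over the ring `ℤ[X]` (exactly as for `A.adjugate last last`:
`Matrix.adjugate_fin_succ_eq_det_submatrix`).
`pt_even`: `pencil_c` with `r = x`, `s = 1`; `PropA 1` for all `g` by `propA_of` (`w = 1`, `τ = 1`); `PtOf` with `y` = the last unit vector:
evaluate the identity of the corner at `θ t`: `(θ - x)^m = - (x - θ)^m`.
-/

open Polynomial Matrix Pool.Agent.Helper32.DZ

namespace Pool.Agent.Helper32.FM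

theorem pencil_c (k : ℕ) (hk : Odd k) (a : Fin (k + 1 + 1) → ℤ) (r s c : ℤ) (h : IsCoprime r s)
    (hc : c ^ 2 = ∑ i : Fin (k + 1 + 1), a i * r ^ (i : ℕ) * s ^ (k + 1 - (i : ℕ))) :
    ∃ (A B : Matrix (Fin (k + 1)) (Fin (k + 1)) ℤ) (σ ρ : ℤ), r * σ - s * ρ = 1 ∧
      A.IsSymm ∧ B.IsSymm ∧ pen A B = C ((-1) ^ ((k + 1) / 2)) * pol a ∧
      A.det = (-1) ^ ((k + 1) / 2) * a (Fin.last (k + 1)) ∧
      A.adjugate (Fin.last k) (Fin.last k) = (-1) ^ ((k + 1) / 2 - 1) * s ^ k ∧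
      s * A.adjugate 0 0 = A.det + (-1) ^ ((k + 1) / 2 - 1) * c ^ 2 * σ ^ (k + 1) ∧
      ((X : ℤ[X]) • A.map (C : ℤ → ℤ[X]) - B.map (C : ℤ → ℤ[X])).adjugate (Fin.last k) (Fin.last k) =
        C ((-1) ^ ((k + 1) / 2 - 1)) * (C s * X - C r) ^ k := by
  sorry

theorem pt_even (m : ℕ) (hm : Odd m) (a : Fin (m + 1 + 1) → ℤ) (hl : a (Fin.last (m + 1)) ≠ 0)
    (x c : ℤ) (hc : c ^ 2 = ∑ i, a i * x ^ (i : ℕ)) :
    ∃ A B : Matrix (Fin (m + 1)) (Fin (m + 1)) ℤ, A.IsSymm ∧ B.IsSymm ∧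
      pen A B = C ((-1) ^ ((m + 1) / 2)) * pol a ∧
      (∀ g : Matrix (Fin (m + 1)) (Fin (m + 1)) ℤ, (g.det = 1 ∨ g.det = -1) →
        PropA 1 ((-1) ^ ((m + 1) / 2 - 1)) (gᵀ * A * g)) ∧
      ∀ θ : Fin (m + 1) → ℂ, PtOf θ ((-1) ^ ((m + 1) / 2)) m x A B := by
  sorry

end Pool.Agent.Helper32.FM
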