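import Pool.Agent.Helper32.DZ.PencilOddS
import Pool.Agent.Helper32.FM.PencilPt

set_option autoImplicit false

/-!
FM-E5b PencilPtOdd. The unimodular pencil of an integral point, odd degree `d`, with the corner property.

PROOF. Copy `pencil_odd_s` (Helper32/DZ/PencilOddS.lean; `r = x`, `s = w = 1`) with `pencil_c` instead of `pencil_s` and keep the objects `g`, `A = g^t A0 g`,
`B = g^t B0 g`, `G`, `B1`, `β`, `S = a B1 - β β^t` (`a = a_d = B l l`, `l = Fin.last`). Only the last component is new.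
At a root `θ` put `Q = θ A - B = [[θ G - B1, -β],[-β^t, -a]]` (size `d+1`), `N = adj Q`, `det Q = ± f(θ) = 0`.
(1) `y = ` row `l` of `g` : `y^t N y = (g N g^t)_(l,l)` and `g N g^t = adj (θ A0 - B0)` (`N = adj g * adj (θ A0 - B0) * (adj g)^t`, `g * adj g = det g`,
`det g^2 = 1`), so `y^t N y = ε' (θ - x)^d`, `ε' = (-1)^((d+1)/2 - 1) = (-1)^((d-1)/2)` (evaluate the last component of `pencil_c` at `θ`, `k = d`).
(2) `N Q = 0`, column `l`: `N_(i,l) a = - ∑_(j<l) N_(i,j) β_j`. So with `z_i = y_i - y_l β_i / a` (`i < l`, rational):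
`∑_(i,j<l) z_i z_j N_(i,j) = y^t N y` (`N` symmetric).
(3) as polynomial matrices, `Q = X A - B`: rows `< l` and `l` of `Q N = det Q`: `(a X G - S) N' = a det Q`, `N' = ` block of `N`; and
`det (a X G - S) = - a^(d-1) det Q`; so `adj (a X G - S) = - a^(d-2) N'` (multiply by `a X G - S` and cancel, `ℤ[X]` is a domain and `det (a X G - S) ≠ 0`:
it is `± a^(d-1) pol a ≠ 0`). Evaluate at `θ`.
Hence `∑ z_i z_j adj (θ a G - S)_(i,j) = - a^(d-2) ε' (θ - x)^d = ε' a^(d-2) (x - θ)^d`.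
-/

open Polynomial Matrix Pool.Agent.Helper32.DZ

namespace Pool.Agent.Helper32.FM

theorem pt_odd (d : ℕ) (hd : Odd d) (h3 : 3 ≤ d) (a : Fin (d + 1) → ℤ) (hl : a (Fin.last d) ≠ 0)
    (x v : ℤ) (hv : v ^ 2 = ∑ i, a i * x ^ (i : ℕ)) :
    ∃ G S : Matrix (Fin d) (Fin d) ℤ, G.IsSymm ∧ S.IsSymm ∧ G.det = (-1) ^ ((d - 1) / 2) ∧
      NegSq (a (Fin.last d)) S ∧
      pen (a (Fin.last d) • G) S =
        C (-(-1) ^ ((d + 1) / 2) * (a (Fin.last d)) ^ (d - 1)) * pol a ∧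
      ∀ θ : Fin d → ℂ, (∀ t, ∑ i, (a i : ℂ) * θ t ^ (i : ℕ) = 0) →
        PtOf θ ((-1) ^ ((d - 1) / 2) * (a (Fin.last d) : ℚ) ^ (d - 2)) d x (a (Fin.last d) • G) S := by
  sorry

end Pool.Agent.Helper32.FM
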