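import Pool.Agent.Helper32.FM.LemG
import Pool.Agent.Helper32.FM.DetNe

set_option autoImplicit false

/-!
FM-G4 PiGe. `|a_d|^M` times the product of the squares of all determinants is a positive integer, `M = 3 (d-1)(d-2)`.

PROOF. `D τ = det (e l (τ s))_(l,s)`, `τ : Fin 3 ↪ Fin d`. `Π = ∏_τ (D τ)^2`.
(1) RATIONAL. `q_(l,l') ∈ ℚ[X]` with `e l t * e l' t = q_(l,l')(θ t)` (`hs`). `(D τ)^2 = ∑_(π,ρ : Perm (Fin 3)) sign π sign ρ ∏_s e (π s) (τ s) e (ρ s) (τ s)
= W(θ (τ 0), θ (τ 1), θ (τ 2))`, `W = ∑ sign π sign ρ ∏_s q_(π s, ρ s)(Y_s) ∈ ℚ[Y_0,Y_1,Y_2]` (`Matrix.det_apply`; careful with the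
transpose). `Π = ∏_τ W(θ ∘ τ)` lies in the splitting field `L = adjoin ℚ (rootSet f ℂ)`, Galois over `ℚ`; every `σ` permutes the `θ t` by
`π`, and `τ ↦ π ∘ τ` permutes the embeddings, so `σ Π = Π` for all `σ`, `Π ∈ ℚ` (`IsGalois.mem_bot_iff_fixed` or
`IntermediateField` / `InfiniteGalois`-free version `(IsGalois.tfae ..)`).
(2) INTEGRAL. `Π = ∏_τ ∑_(π,ρ) ± ∏_s γ = ∑_(c : τ ↦ (π,ρ)) ± ∏_(τ,s) γ_(c,τ,s)` (`Finset.prod_univ_sum`), `γ_(c,τ,s) = e (π s) (τ s) * e (ρ s) (τ s)`,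
`γ^2 = (x (π s) - θ (τ s)) (x (ρ s) - θ (τ s))`. Index set `I = (Fin 3 ↪ Fin d) × Fin 3`, `τ' (τ,s) = τ s`; every `t` has exactly
`3 (d-1)(d-2)` preimages. By `lemG_sqrt` `a_d^M * (each term)` is integral over `ℤ`.
(The number of `(τ, s)` with `τ s = t` does not depend on `t` (compose with a transposition) and the sum over `t` is
`3 * d (d-1)(d-2)`.)
(3) `a_d^M Π` is rational, integral, nonzero (`det_ne` for `θ ∘ τ`): a nonzero integer, absolute value `≥ 1`.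
-/

namespace Pool.Agent.Helper32.FM

open Polynomial

private theorem pg_fib_const {d : ℕ} (t t' : Fin d) :
    (Finset.univ.filter fun i : (Fin 3 ↪ Fin d) × Fin 3 => i.1 i.2 = t).card =
      (Finset.univ.filter fun i : (Fin 3 ↪ Fin d) × Fin 3 => i.1 i.2 = t').card := by
  classical
  refine Finset.card_bij (fun i _ => (i.1.trans (Equiv.swap t t').toEmbedding, i.2)) ?_ ?_ ?_
  · intro i hi
    rw [Finset.mem_filter] at hi ⊢
    refine ⟨Finset.mem_univ _, ?_⟩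
    simp [hi.2]
  · intro i _ j _ hij
    have h1 := congrArg Prod.fst hij
    have h2 := congrArg Prod.snd hij
    simp only at h1 h2
    refine Prod.ext ?_ h2
    ext s
    have h3 := DFunLike.congr_fun h1 s
    simp only [Function.Embedding.trans_apply, Equiv.coe_toEmbedding] at h3
    exact congrArg Fin.val ((Equiv.swap t t').injective h3)
  · intro j hj
    rw [Finset.mem_filter] at hj
    refine ⟨(j.1.trans (Equiv.swap t t').toEmbedding, j.2), ?_, ?_⟩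
    · rw [Finset.mem_filter]
      refine ⟨Finset.mem_univ _, ?_⟩
      simp [hj.2]
    · refine Prod.ext ?_ rfl
      ext s
      simp

theorem fib_card (d : ℕ) (t : Fin d) :
    (Finset.univ.filter fun i : (Fin 3 ↪ Fin d) × Fin 3 => i.1 i.2 = t).card =
      3 * ((d - 1) * (d - 2)) := by
  classical
  have hd : 0 < d := t.pos
  have h1 : ∑ t' : Fin d, (Finset.univ.filter fun i : (Fin 3 ↪ Fin d) × Fin 3 => i.1 i.2 = t').card =
      (Finset.univ : Finset ((Fin 3 ↪ Fin d) × Fin 3)).card :=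
    (Finset.card_eq_sum_card_fiberwise (f := fun i : (Fin 3 ↪ Fin d) × Fin 3 => i.1 i.2)
      (t := Finset.univ) (fun _ _ => Finset.mem_coe.2 (Finset.mem_univ _))).symm
  rw [Finset.sum_congr rfl fun t' _ => pg_fib_const t' t, Finset.sum_const, Finset.card_univ,
    Finset.card_univ, Fintype.card_fin, Fintype.card_prod, Fintype.card_embedding_eq,
    Fintype.card_fin, Fintype.card_fin, smul_eq_mul] at h1
  have h2 : d.descFactorial 3 = d * ((d - 1) * (d - 2)) := by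
    simp only [Nat.descFactorial_succ, Nat.descFactorial_zero]
    rw [Nat.sub_zero]
    ring
  rw [h2] at h1
  have h3 : d * (Finset.univ.filter fun i : (Fin 3 ↪ Fin d) × Fin 3 => i.1 i.2 = t).card =
      d * (3 * ((d - 1) * (d - 2))) := by
    rw [h1]; ring
  exact Nat.eq_of_mul_eq_mul_left hd h3

/-! ### rationality of symmetric expressions -/

private theorem pg_esymm_rat {d H : ℕ} {a : Fin (d + 1) → ℤ} {θ : Fin d → ℂ} (hR : Roots H a θ)
    (n : ℕ) : ∃ r : ℚ, MvPolynomial.aeval θ (MvPolynomial.esymm (Fin d) ℚ n) = (algebraMap ℚ ℂ) r := by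
  classical
  rw [MvPolynomial.aeval_esymm_eq_multiset_esymm]
  set s : Multiset ℂ := Finset.univ.val.map θ with hs
  have hcard : Multiset.card s = d := by
    rw [hs, Multiset.card_map, Finset.card_val, Finset.card_univ, Fintype.card_fin]
  by_cases hn : d < n
  · refine ⟨0, ?_⟩
    rw [map_zero, Multiset.esymm, Multiset.powersetCard_eq_empty _ (by rw [hcard]; exact hn)]
    simp
  have hn' : n ≤ d := not_lt.1 hn
  have hlead : ((a (Fin.last d) : ℤ) : ℂ) ≠ 0 := by exact_mod_cast hR.lead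
  -- the polynomial
  have hpoly : (∑ i : Fin (d + 1), C ((a i : ℤ) : ℂ) * X ^ (i : ℕ) : ℂ[X]) =
      C ((a (Fin.last d) : ℤ) : ℂ) * (s.map fun t => X - C t).prod := by
    apply Polynomial.funext
    intro z
    have h0 := hR.eval z
    rw [hs, Multiset.map_map]
    have e1 : (Multiset.map ((fun t => X - C t) ∘ θ) Finset.univ.val).prod =
        ∏ t : Fin d, (X - C (θ t) : ℂ[X]) := rfl
    rw [e1, eval_finsetSum, eval_mul, eval_C, eval_prod]
    simp only [eval_mul, eval_pow, eval_X, eval_C, eval_sub]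
    exact h0
  have hco := congrArg (fun p : ℂ[X] => p.coeff (d - n)) hpoly
  simp only [coeff_C_mul, finsetSum_coeff, coeff_X_pow] at hco
  rw [Multiset.prod_X_sub_C_coeff s (by rw [hcard]; omega), hcard, show d - (d - n) = n by omega,
    Finset.sum_eq_single (⟨d - n, by omega⟩ : Fin (d + 1))] at hco
  · rw [if_pos rfl, mul_one] at hco
    refine ⟨(-1) ^ n * ((a ⟨d - n, by omega⟩ : ℤ) : ℚ) / ((a (Fin.last d) : ℤ) : ℚ), ?_⟩
    have h2 : ((-1 : ℂ) ^ n) * (-1) ^ n = 1 := by rw [← mul_pow]; norm_num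
    have h3 : s.esymm n = (-1) ^ n * ((a ⟨d - n, by omega⟩ : ℤ) : ℂ) /
        ((a (Fin.last d) : ℤ) : ℂ) := by
      rw [eq_div_iff hlead, hco]
      linear_combination (-(s.esymm n) * ((a (Fin.last d) : ℤ) : ℂ)) * h2
    rw [h3]
    simp
  · intro b _ hb
    rw [if_neg, mul_zero]
    intro h
    exact hb (Fin.ext h.symm)
  · intro h
    exact absurd (Finset.mem_univ _) h

private theorem pg_sym_rat {d H : ℕ} {a : Fin (d + 1) → ℤ} {θ : Fin d → ℂ} (hR : Roots H a θ)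
    (P : MvPolynomial (Fin d) ℚ) (hP : P.IsSymmetric) :
    ∃ r : ℚ, MvPolynomial.aeval θ P = (algebraMap ℚ ℂ) r := by
  classical
  obtain ⟨Q, hQ⟩ := MvPolynomial.esymmAlgHom_surjective (σ := Fin d) (R := ℚ) (n := d)
    (by rw [Fintype.card_fin]) ⟨P, hP⟩
  have hQ' : P = MvPolynomial.aeval (fun i : Fin d => MvPolynomial.esymm (Fin d) ℚ (i + 1)) Q := by
    rw [← MvPolynomial.esymmAlgHom_apply, hQ]
  choose r hr using fun n => pg_esymm_rat hR n
  refine ⟨MvPolynomial.aeval (fun i : Fin d => r (i + 1)) Q, ?_⟩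
  rw [hQ']
  have h1 := MvPolynomial.comp_aeval_apply (R := ℚ)
    (f := fun i : Fin d => MvPolynomial.esymm (Fin d) ℚ (i + 1)) (MvPolynomial.aeval θ) Q
  rw [h1]
  have h2 : (fun i : Fin d => (MvPolynomial.aeval θ) (MvPolynomial.esymm (Fin d) ℚ (i + 1))) =
      fun i : Fin d => (algebraMap ℚ ℂ) (r (i + 1)) := by
    funext i
    exact hr _
  rw [h2, ← MvPolynomial.aeval_algebraMap_apply]
  rfl

/-- the square of the determinant as a polynomial in the roots -/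
private noncomputable def PgW {d : ℕ} (q : Fin 3 → Fin 3 → ℚ[X]) (τ : Fin 3 ↪ Fin d) :
    MvPolynomial (Fin d) ℚ :=
  ∑ p : Equiv.Perm (Fin 3) × Equiv.Perm (Fin 3),
    (((Equiv.Perm.sign p.1 : ℤ) : MvPolynomial (Fin d) ℚ) *
      ((Equiv.Perm.sign p.2 : ℤ) : MvPolynomial (Fin d) ℚ)) *
      ∏ s, Polynomial.aeval (MvPolynomial.X (τ s) : MvPolynomial (Fin d) ℚ) (q (p.1 s) (p.2 s))

private theorem pg_det_sq {d : ℕ} (e : Fin 3 → Fin d → ℂ) (τ : Fin 3 ↪ Fin d) :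
    (Matrix.of fun l s => e l (τ s)).det ^ 2 =
      ∑ p : Equiv.Perm (Fin 3) × Equiv.Perm (Fin 3),
        (((Equiv.Perm.sign p.1 : ℤ) : ℂ) * ((Equiv.Perm.sign p.2 : ℤ) : ℂ)) *
          ∏ s, (e (p.1 s) (τ s) * e (p.2 s) (τ s)) := by
  rw [sq, Matrix.det_apply', Finset.sum_mul_sum, ← Finset.univ_product_univ, Finset.sum_product]
  refine Finset.sum_congr rfl fun σ _ => Finset.sum_congr rfl fun ρ _ => ?_
  rw [Finset.prod_mul_distrib]
  simp only [Matrix.of_apply]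
  ring

private theorem pg_W_eval {d : ℕ} {θ : Fin d → ℂ} (e : Fin 3 → Fin d → ℂ)
    (q : Fin 3 → Fin 3 → ℚ[X]) (hq : ∀ l l' t, e l t * e l' t = Polynomial.aeval (θ t) (q l l'))
    (τ : Fin 3 ↪ Fin d) :
    MvPolynomial.aeval θ (PgW q τ) = (Matrix.of fun l s => e l (τ s)).det ^ 2 := by
  rw [pg_det_sq, PgW, map_sum]
  refine Finset.sum_congr rfl fun p _ => ?_
  rw [map_mul, map_mul, map_intCast, map_intCast, map_prod]
  congr 1
  refine Finset.prod_congr rfl fun s _ => ?_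
  rw [hq, ← Polynomial.aeval_algHom_apply, MvPolynomial.aeval_X]

private theorem pg_W_rename {d : ℕ} (q : Fin 3 → Fin 3 → ℚ[X]) (g : Equiv.Perm (Fin d))
    (τ : Fin 3 ↪ Fin d) :
    MvPolynomial.rename g (PgW q τ) = PgW q (τ.trans g.toEmbedding) := by
  unfold PgW
  rw [map_sum]
  refine Finset.sum_congr rfl fun p _ => ?_
  rw [map_mul, map_mul, map_intCast, map_intCast, map_prod]
  congr 1
  refine Finset.prod_congr rfl fun s _ => ?_
  rw [← Polynomial.aeval_algHom_apply, MvPolynomial.rename_X]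
  rfl

private theorem pg_sym {d : ℕ} (q : Fin 3 → Fin 3 → ℚ[X]) :
    (∏ τ : Fin 3 ↪ Fin d, PgW q τ).IsSymmetric := by
  classical
  intro g
  rw [map_prod, Finset.prod_congr rfl fun τ _ => pg_W_rename q g τ]
  exact Fintype.prod_equiv (Equiv.embeddingCongr (Equiv.refl (Fin 3)) g) _ _ fun τ => by
    congr 1

/-- integrality -/
private theorem pg_int {d H : ℕ} {a : Fin (d + 1) → ℤ} {θ : Fin d → ℂ} (hR : Roots H a θ)
    (x : Fin 3 → ℤ) (e : Fin 3 → Fin d → ℂ) (he : ∀ l, IsE θ (x l) (e l)) :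
    IsIntegral ℤ (((a (Fin.last d) : ℤ) : ℂ) ^ (3 * ((d - 1) * (d - 2))) *
      ∏ τ : Fin 3 ↪ Fin d, (Matrix.of fun l s => e l (τ s)).det ^ 2) := by
  classical
  have h1 : ∏ τ : Fin 3 ↪ Fin d, (Matrix.of fun l s => e l (τ s)).det ^ 2 =
      ∑ c ∈ Fintype.piFinset (fun _ : Fin 3 ↪ Fin d =>
        (Finset.univ : Finset (Equiv.Perm (Fin 3) × Equiv.Perm (Fin 3)))),
        ∏ τ : Fin 3 ↪ Fin d, ((((Equiv.Perm.sign (c τ).1 : ℤ) : ℂ) *
          ((Equiv.Perm.sign (c τ).2 : ℤ) : ℂ)) *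
          ∏ s, (e ((c τ).1 s) (τ s) * e ((c τ).2 s) (τ s))) := by
    rw [Finset.prod_congr rfl fun τ _ => pg_det_sq e τ]
    exact Finset.prod_univ_sum _ _
  rw [h1, Finset.mul_sum]
  refine IsIntegral.sum _ fun c _ => ?_
  rw [Finset.prod_mul_distrib]
  have h2 : IsIntegral ℤ (∏ τ : Fin 3 ↪ Fin d, (((Equiv.Perm.sign (c τ).1 : ℤ) : ℂ) *
      ((Equiv.Perm.sign (c τ).2 : ℤ) : ℂ))) := by
    refine IsIntegral.prod _ fun τ _ => ?_
    rw [← Int.cast_mul]
    exact isIntegral_algebraMap (R := ℤ) (A := ℂ) (x := _)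
  have h3 := lemG_sqrt hR (I := (Fin 3 ↪ Fin d) × Fin 3) (fun i => i.1 i.2)
    (3 * ((d - 1) * (d - 2))) (fun t => fib_card d t)
    (fun i => x ((c i.1).1 i.2)) (fun i => x ((c i.1).2 i.2))
    (fun i => e ((c i.1).1 i.2) (i.1 i.2) * e ((c i.1).2 i.2) (i.1 i.2)) (fun i => by
      rw [mul_pow, (he _ _).1, (he _ _).1])
  rw [← Finset.univ_product_univ, Finset.prod_product] at h3
  have h4 := h2.mul h3
  convert h4 using 1
  ring

theorem pi_ge {d H : ℕ} {a : Fin (d + 1) → ℤ} {θ : Fin d → ℂ} (hR : Roots H a θ)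
    (x : Fin 3 → ℤ) (hx : Function.Injective x) (e : Fin 3 → Fin d → ℂ)
    (he : ∀ l, IsE θ (x l) (e l)) (hs : ∀ l l', SRel θ (e l) (e l')) :
    1 ≤ |((a (Fin.last d) : ℤ) : ℝ)| ^ (3 * ((d - 1) * (d - 2))) *
      ∏ τ : Fin 3 ↪ Fin d, ‖(Matrix.of fun l s => e l (τ s)).det‖ ^ 2 := by
  classical
  choose q hq using hs
  obtain ⟨r, hr⟩ := pg_sym_rat hR _ (pg_sym (d := d) q)
  have hPi : ∏ τ : Fin 3 ↪ Fin d, (Matrix.of fun l s => e l (τ s)).det ^ 2 = (algebraMap ℚ ℂ) r := by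
    rw [← hr, map_prod]
    exact Finset.prod_congr rfl fun τ _ => (pg_W_eval e q hq τ).symm
  have hint := pg_int hR x e he
  rw [hPi] at hint
  have hlead : ((a (Fin.last d) : ℤ) : ℂ) ≠ 0 := by exact_mod_cast hR.lead
  -- the rational number
  have h1 : ((a (Fin.last d) : ℤ) : ℂ) ^ (3 * ((d - 1) * (d - 2))) * (algebraMap ℚ ℂ) r =
      (algebraMap ℚ ℂ) (((a (Fin.last d) : ℤ) : ℚ) ^ (3 * ((d - 1) * (d - 2))) * r) := by
    rw [map_mul, map_pow, map_intCast]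
  rw [h1, isIntegral_algebraMap_iff (algebraMap ℚ ℂ).injective] at hint
  obtain ⟨y, hy⟩ := (IsIntegrallyClosed.isIntegral_iff (R := ℤ) (K := ℚ)).1 hint
  have hne : ∏ τ : Fin 3 ↪ Fin d, (Matrix.of fun l s => e l (τ s)).det ^ 2 ≠ 0 := by
    refine Finset.prod_ne_zero_iff.2 fun τ _ => pow_ne_zero 2 ?_
    exact det_ne (fun s => θ (τ s)) (hR.inj.comp τ.injective) x hx (fun l s => e l (τ s))
      (fun l s => (he l (τ s)).1)
  have hy0 : y ≠ 0 := by
    rintro rfl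
    rw [map_zero] at hy
    have h2 := h1
    rw [← hy, map_zero, ← hPi] at h2
    exact (mul_ne_zero (pow_ne_zero _ hlead) hne) h2
  have h3 : |((a (Fin.last d) : ℤ) : ℝ)| ^ (3 * ((d - 1) * (d - 2))) *
      ∏ τ : Fin 3 ↪ Fin d, ‖(Matrix.of fun l s => e l (τ s)).det‖ ^ 2 = |(y : ℝ)| := by
    have h4 : ‖((a (Fin.last d) : ℤ) : ℂ) ^ (3 * ((d - 1) * (d - 2))) *
        ∏ τ : Fin 3 ↪ Fin d, (Matrix.of fun l s => e l (τ s)).det ^ 2‖ =
        |((a (Fin.last d) : ℤ) : ℝ)| ^ (3 * ((d - 1) * (d - 2))) *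
          ∏ τ : Fin 3 ↪ Fin d, ‖(Matrix.of fun l s => e l (τ s)).det‖ ^ 2 := by
      rw [norm_mul, norm_pow, norm_prod, Complex.norm_intCast]
      congr 1
      exact Finset.prod_congr rfl fun τ _ => norm_pow _ _
    rw [← h4, hPi, h1, ← hy]
    simp
  rw [h3]
  have h8 : (1 : ℤ) ≤ |y| := Int.one_le_abs hy0
  exact_mod_cast h8

end Pool.Agent.Helper32.FM
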