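import Pool.Agent.Helper32.FM.BetaInt

set_option autoImplicit false

/-!
FM-P2 Triangle. `Tp p q r u v w` = `Np p q r` times the integral of `(t-u)^p (t-v)^q (t-w)^r` from `u` to `v`.

PROOF. `tp_eq`: `F(v) - F(u) = (v - u) ∫_0^1 F'(u + s (v-u)) ds` (fundamental theorem for `s ↦ F.eval (u + s (v-u))`,
`integral_eq_sub_of_hasDerivAt`), and `F'(u + s(v-u)) = (s (v-u))^p (-(1-s)(v-u))^q ((u-w) + (v-u) s)^r`; then `sp_int`
with `a = v - u`, `c = u - w`.
`tp_cycle`: an antiderivative `F` of `ψ = (X-u)^n (X-v)^m (X-w)^k` exists (for a polynomial `∑ c_i X^i` take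
`∑ c_i/(i+1) X^(i+1)`; e.g. induction over monomials/sums, or `Polynomial.sum`); `Np` is symmetric; so the sum is
`N ((F v - F u) + (F w - F v) + (F u - F w)) = 0`.
`tp_bound`: `sp_int`; `‖(u-w) + s (v-u)‖ = ‖(1-s)(u-w) + s (v-w)‖ ≤ M` for `s ∈ [0,1]`, `s^p (1-s)^q ≤ 1`
(`intervalIntegral.norm_integral_le_of_norm_le_const`), `Np ≥ 0`.
`tp_zero`: for `ψ` as above and `F` with `derivative F = ψ`: used in P3.
-/

open Polynomial

namespace Pool.Agent.Helper32.FM

theorem exists_anti (P : ℂ[X]) : ∃ F : ℂ[X], derivative F = P ∧ F.natDegree ≤ P.natDegree + 1 := by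
  refine ⟨∑ i ∈ Finset.range (P.natDegree + 1), C (P.coeff i / ((i : ℂ) + 1)) * X ^ (i + 1), ?_, ?_⟩
  · rw [derivative_sum]
    conv_rhs => rw [P.as_sum_range_C_mul_X_pow]
    refine Finset.sum_congr rfl fun i _ => ?_
    have h1 : (i : ℂ) + 1 ≠ 0 := Nat.cast_add_one_ne_zero i
    rw [derivative_C_mul_X_pow, Nat.add_sub_cancel]
    congr 2
    push_cast
    field_simp
  · refine natDegree_sum_le_of_forall_le _ _ fun i hi => ?_
    refine (natDegree_C_mul_X_pow_le _ _).trans ?_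
    have := Finset.mem_range.1 hi
    omega

theorem tp_eq (p q r : ℕ) (u v w : ℂ) (F : ℂ[X])
    (hF : derivative F = (X - C u) ^ p * (X - C v) ^ q * (X - C w) ^ r) :
    Tp p q r u v w = (Np p q r : ℂ) * (F.eval v - F.eval u) := by
  have hd : ∀ s : ℝ, HasDerivAt (fun s : ℝ => F.eval (u + (s : ℂ) * (v - u)))
      ((derivative F).eval (u + (s : ℂ) * (v - u)) * (v - u)) s := by
    intro s
    have h1 : HasDerivAt (fun s : ℝ => u + (s : ℂ) * (v - u)) (v - u) s := by
      have h2 := ((hasDerivAt_id s).ofReal_comp.mul_const (v - u)).const_add u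
      simpa using h2
    exact (F.hasDerivAt (u + (s : ℂ) * (v - u))).comp s h1
  have h1 : ∫ s in (0:ℝ)..1, (derivative F).eval (u + (s : ℂ) * (v - u)) * (v - u) =
      F.eval v - F.eval u := by
    rw [intervalIntegral.integral_eq_sub_of_hasDerivAt (fun s _ => hd s)
      (Continuous.intervalIntegrable (by fun_prop) _ _)]
    simp
  rw [← h1]
  unfold Tp
  rw [sp_int]
  have h2 : ∀ s : ℝ, (derivative F).eval (u + (s : ℂ) * (v - u)) * (v - u) =
      ((-1) ^ q * (v - u) ^ (p + q + 1)) *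
        ((s : ℂ) ^ p * (1 - (s : ℂ)) ^ q * ((u - w) + (v - u) * (s : ℂ)) ^ r) := by
    intro s
    rw [hF]
    simp only [eval_mul, eval_pow, eval_sub, eval_X, eval_C]
    have e1 : u + (s : ℂ) * (v - u) - u = (s : ℂ) * (v - u) := by ring
    have e2 : u + (s : ℂ) * (v - u) - v = -1 * ((1 - (s : ℂ)) * (v - u)) := by ring
    have e3 : u + (s : ℂ) * (v - u) - w = (u - w) + (v - u) * (s : ℂ) := by ring
    rw [e1, e2, e3, mul_pow, mul_pow, mul_pow]
    ring
  rw [intervalIntegral.integral_congr (g := fun s : ℝ => ((-1) ^ q * (v - u) ^ (p + q + 1)) *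
        ((s : ℂ) ^ p * (1 - (s : ℂ)) ^ q * ((u - w) + (v - u) * (s : ℂ)) ^ r)) (fun s _ => h2 s),
    intervalIntegral.integral_const_mul]
  ring

theorem tp_cycle (n m k : ℕ) (u v w : ℂ) :
    Tp n m k u v w + Tp m k n v w u + Tp k n m w u v = 0 := by
  obtain ⟨F, hF, -⟩ := exists_anti ((X - C u) ^ n * (X - C v) ^ m * (X - C w) ^ k)
  have e1 : Np m k n = Np n m k := by
    unfold Np
    rw [show m + k + n + 1 = n + m + k + 1 by ring]
    congr 1
    ring
  have e2 : Np k n m = Np n m k := by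
    unfold Np
    rw [show k + n + m + 1 = n + m + k + 1 by ring]
    congr 1
    ring
  rw [tp_eq n m k u v w F hF, tp_eq m k n v w u F (by rw [hF]; ring),
    tp_eq k n m w u v F (by rw [hF]; ring), e1, e2]
  ring

theorem tp_bound (p q r : ℕ) (u v w : ℂ) (M : ℝ) (h1 : ‖u - w‖ ≤ M) (h2 : ‖v - w‖ ≤ M) :
    ‖Tp p q r u v w‖ ≤ Np p q r * ‖v - u‖ ^ (p + q + 1) * M ^ r := by
  have hM : 0 ≤ M := (norm_nonneg _).trans h1
  have hN : 0 ≤ Np p q r := by
    unfold Np
    positivity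
  have hI : ‖∫ s in (0:ℝ)..1, (s : ℂ) ^ p * (1 - (s : ℂ)) ^ q *
      ((u - w) + (v - u) * (s : ℂ)) ^ r‖ ≤ M ^ r := by
    have h3 := intervalIntegral.norm_integral_le_of_norm_le_const (a := (0 : ℝ)) (b := 1)
      (C := M ^ r) (f := fun s : ℝ => (s : ℂ) ^ p * (1 - (s : ℂ)) ^ q *
        ((u - w) + (v - u) * (s : ℂ)) ^ r) (by
      intro s hs
      rw [Set.uIoc_of_le zero_le_one] at hs
      obtain ⟨hs0, hs1⟩ := hs
      have a1 : ‖(s : ℂ)‖ = s := by
        rw [Complex.norm_real, Real.norm_of_nonneg hs0.le]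
      have a2 : ‖1 - (s : ℂ)‖ = 1 - s := by
        have : (1 : ℂ) - (s : ℂ) = ((1 - s : ℝ) : ℂ) := by push_cast; rfl
        rw [this, Complex.norm_real, Real.norm_of_nonneg (by linarith)]
      have a3 : ‖(u - w) + (v - u) * (s : ℂ)‖ ≤ M := by
        have e : (u - w) + (v - u) * (s : ℂ) = (1 - (s : ℂ)) * (u - w) + (s : ℂ) * (v - w) := by
          ring
        rw [e]
        refine (norm_add_le _ _).trans ?_
        rw [norm_mul, norm_mul, a1, a2]
        nlinarith [mul_le_mul_of_nonneg_left h1 (by linarith : 0 ≤ 1 - s),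
          mul_le_mul_of_nonneg_left h2 hs0.le]
      rw [norm_mul, norm_mul, norm_pow, norm_pow, norm_pow, a1, a2]
      have b1 : s ^ p ≤ 1 := pow_le_one₀ hs0.le hs1
      have b2 : (1 - s) ^ q ≤ 1 := pow_le_one₀ (by linarith) (by linarith)
      have b3 : ‖(u - w) + (v - u) * (s : ℂ)‖ ^ r ≤ M ^ r := pow_le_pow_left₀ (norm_nonneg _) a3 r
      calc s ^ p * (1 - s) ^ q * ‖(u - w) + (v - u) * (s : ℂ)‖ ^ r
          ≤ 1 * 1 * M ^ r := by
            refine mul_le_mul (mul_le_mul b1 b2 (pow_nonneg (by linarith) _) zero_le_one) b3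
              (pow_nonneg (norm_nonneg _) _) (by norm_num)
        _ = M ^ r := by ring)
    simpa using h3
  unfold Tp
  rw [sp_int, norm_mul, norm_mul, norm_mul, norm_pow, norm_pow, norm_neg, norm_one, one_pow,
    one_mul, Complex.norm_real, Real.norm_of_nonneg hN]
  calc ‖v - u‖ ^ (p + q + 1) * (Np p q r * ‖∫ s in (0:ℝ)..1, (s : ℂ) ^ p * (1 - (s : ℂ)) ^ q *
      ((u - w) + (v - u) * (s : ℂ)) ^ r‖) ≤ ‖v - u‖ ^ (p + q + 1) * (Np p q r * M ^ r) :=
        mul_le_mul_of_nonneg_left (mul_le_mul_of_nonneg_left hI hN) (by positivity)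
    _ = Np p q r * ‖v - u‖ ^ (p + q + 1) * M ^ r := by ring

end Pool.Agent.Helper32.FM
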